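import Pool.Agent.Lib.MP_b54217_ag.S.Defs

/-! # PROJECT S: the configuration outside the window -/

set_option autoImplicit false

namespace Pool.Agent.SV.S

open MvPolynomial Finset

theorem mem_cl {n r l k : ℕ} : k ∈ cl n r l ↔ k < r ∧ k % n = l := by
  rw [cl, mem_filter, mem_range]

theorem cl_card {n r l : ℕ} (hl : l < n) :
    (cl n r l).card = r / n + (if l < r % n then 1 else 0) := by
  have hn : 0 < n := by omega
  have h4 := Nat.count_modEq_card r hn l
  rw [Nat.mod_eq_of_lt hl] at h4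
  rw [← h4, Nat.count_eq_card_filter_range, cl]
  congr 1
  ext s
  simp only [mem_filter, mem_range, Nat.ModEq, Nat.mod_eq_of_lt hl]

theorem cl_card_le {n r l g : ℕ} (hn : 1 ≤ n) (h : r ≤ n * g) (hl : l < n) :
    (cl n r l).card ≤ g := by
  rw [cl_card hl]
  have h1 := Nat.div_add_mod r n
  have h2 : r / n ≤ g := by
    rw [Nat.div_le_iff_le_mul_add_pred (by omega)]
    omega
  rcases Nat.lt_or_ge (r / n) g with h3 | h3
  · split_ifs <;> omega
  · have h4 : r / n = g := le_antisymm h2 h3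
    rw [h4] at h1
    have h5 : r % n = 0 := by omega
    rw [h5, if_neg (Nat.not_lt_zero _)]
    omega

theorem le_cl_card {n r l g : ℕ} (hl : l < n) (h : n * g ≤ r) : g ≤ (cl n r l).card := by
  rw [cl_card hl]
  have h2 : g ≤ r / n := by
    rw [Nat.le_div_iff_mul_le (by omega), mul_comm]
    exact h
  omega

theorem cl_card_mul {n q l : ℕ} (hl : l < n) : (cl n (q * n) l).card = q := by
  apply le_antisymm
  · exact cl_card_le (by omega) (by rw [mul_comm]) hl
  · exact le_cl_card hl (by rw [mul_comm])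

theorem sum_eu {n k : ℕ} (hn : 1 ≤ n) (w : Fin n → ℂ) :
    ∑ l, eu n k l * w l = w ⟨k % n, Nat.mod_lt _ hn⟩ := by
  rw [Finset.sum_eq_single ⟨k % n, Nat.mod_lt _ hn⟩]
  · simp [eu]
  · intro l _ hl
    have : ¬ k % n = (l : ℕ) := fun h => hl (Fin.ext h.symm)
    rw [eu, if_neg this, zero_mul]
  · intro h
    exact absurd (mem_univ _) h

/-- `F l` = the polynomial with the prescribed values `a k l` at all points and the prescribed
gradients `b k, c k` at the points of the class `l`. -/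
theorem surj_flat {n : ℕ} (hn : 1 ≤ n) {D : ℕ → ℕ} {r : ℕ} {p : ℕ → Fin 2 → ℂ}
    (h : ∀ l < n, Itp D p (range r) (cl n r l)) : SurjN n D r p (eu n) := by
  intro a b c
  choose F hF1 hF2 hF3 using fun l : Fin n => h l l.2 (fun k => a k l) b c
  refine ⟨F, hF1, fun k hk l => hF2 l k (mem_range.2 hk), fun k hk => ?_⟩
  have h1 := hF3 ⟨k % n, Nat.mod_lt _ hn⟩ k (mem_cl.2 ⟨hk, rfl⟩)
  constructor
  · rw [sum_eu hn]
    exact h1.1
  · rw [sum_eu hn]
    exact h1.2

theorem inj_flat {n : ℕ} (hn : 1 ≤ n) {D : ℕ → ℕ} {r : ℕ} {p : ℕ → Fin 2 → ℂ}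
    (h : ∀ l < n, ∀ f ∈ PP D, (∀ k < r, eval (p k) f = 0) →
      (∀ k ∈ cl n r l, eval (p k) (pderiv 0 f) = 0 ∧ eval (p k) (pderiv 1 f) = 0) → f = 0) :
    InjN n D r p (eu n) := by
  intro F hF h0 h1 l
  refine h l l.2 (F l) (hF l) (fun k hk => h0 k hk l) fun k hk => ?_
  obtain ⟨hk1, hk2⟩ := mem_cl.1 hk
  obtain ⟨h2, h3⟩ := h1 k hk1
  rw [sum_eu hn] at h2 h3
  have e : (⟨k % n, Nat.mod_lt _ hn⟩ : Fin n) = l := Fin.ext hk2
  rw [e] at h2 h3
  exact ⟨h2, h3⟩

end Pool.Agent.SV.S
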