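import Pool.Agent.Lib.MP_b54217_ag.S.Inj
import Pool.Agent.Lib.MP_b54217_ag.S.AsmA

/-! # PROJECT S: the configuration in the window -/

set_option autoImplicit false

namespace Pool.Agent.SV.S

open MvPolynomial Finset

/-- The vectors `wu` outside the groups. -/
theorem sum_wu {n q t : ℕ} (ht : 2 * t + 1 < n) (w : Fin n → ℂ) :
    ∑ l, wu n q (q * n + t) l * w l = w ⟨2 * t, by omega⟩ + w ⟨2 * t + 1, ht⟩ := by
  have h1 : ∀ l : Fin n, wu n q (q * n + t) l =
      (if l = ⟨2 * t, by omega⟩ then 1 else 0) + (if l = ⟨2 * t + 1, ht⟩ then 1 else 0) := by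
    intro l
    have e1 : ¬ q * n + t < q * n := by omega
    have e2 : q * n + t - q * n = t := by omega
    simp only [wu, if_neg e1, e2, if_pos ht, Fin.ext_iff]
    by_cases h2 : (l : ℕ) = 2 * t
    · have h3 : ¬ (l : ℕ) = 2 * t + 1 := by omega
      simp [h2]
    · by_cases h3 : (l : ℕ) = 2 * t + 1
      · simp [h3]
      · simp [h2, h3]
  simp only [h1, add_mul, Finset.sum_add_distrib, ite_mul, one_mul, zero_mul,
    Finset.sum_ite_eq', mem_univ, if_true]

theorem sum_wu_odd {n q t : ℕ} (ht : 2 * t + 1 = n) (h2 : 2 ≤ n) (w : Fin n → ℂ) :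
    ∑ l, wu n q (q * n + t) l * w l = w ⟨2 * t, by omega⟩ + w ⟨0, by omega⟩ := by
  have h1 : ∀ l : Fin n, wu n q (q * n + t) l =
      (if l = ⟨2 * t, by omega⟩ then 1 else 0) + (if l = ⟨0, by omega⟩ then 1 else 0) := by
    intro l
    have e1 : ¬ q * n + t < q * n := by omega
    have e2 : q * n + t - q * n = t := by omega
    have e3 : ¬ 2 * t + 1 < n := by omega
    simp only [wu, if_neg e1, e2, if_neg e3, Fin.ext_iff]
    by_cases h2 : (l : ℕ) = 2 * t
    · have h3 : ¬ (l : ℕ) = 0 := by omega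
      simp [h2]
      omega
    · by_cases h3 : (l : ℕ) = 0
      · rw [if_pos (Or.inr h3), if_neg h2, if_pos h3, zero_add]
      · simp [h2, h3]
  simp only [h1, add_mul, Finset.sum_add_distrib, ite_mul, one_mul, zero_mul,
    Finset.sum_ite_eq', mem_univ, if_true]

/-- The vectors `wu` in the groups. -/
theorem sum_wu_lt {n q k : ℕ} (hn : 1 ≤ n) (hk : k < q * n) (w : Fin n → ℂ) :
    ∑ l, wu n q k l * w l = w ⟨k % n, Nat.mod_lt _ hn⟩ := by
  have h1 : ∀ l : Fin n, wu n q k l = eu n k l := by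
    intro l
    simp only [wu, if_pos hk, eu]
  simp only [h1]
  exact sum_eu hn w

/-- Subabundant window: `F (2t)`, `F (2t+1)` from `PairI` for `t < s`, the other `F l` from
`Itp`. -/
theorem surj_window {n q s : ℕ} (hn : 1 ≤ n) {D : ℕ → ℕ} {p : ℕ → Fin 2 → ℂ} (h2 : 2 * s ≤ n)
    (hp : ∀ t < s, PairI D p (range (q * n + s)) (range (q * n + s)) (cl n (q * n) (2 * t))
      (cl n (q * n) (2 * t + 1)) (q * n + t))
    (hi : ∀ l, 2 * s ≤ l → l < n → Itp D p (range (q * n + s)) (cl n (q * n) l)) :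
    SurjN n D (q * n + s) p (wu n q) := by
  classical
  intro a b c
  -- values as functions of ℕ
  let A : ℕ → ℕ → ℂ := fun l k => if hl : l < n then a k ⟨l, hl⟩ else 0
  have hA : ∀ (l : Fin n) (k : ℕ), A l k = a k l := fun l k => by
    simp only [A, dif_pos l.2]
  -- the polynomials
  have key : ∃ F : ℕ → MvPolynomial (Fin 2) ℂ, (∀ l < n, F l ∈ PP D) ∧
      (∀ l < n, ∀ k ∈ range (q * n + s), eval (p k) (F l) = A l k) ∧
      (∀ l < n, ∀ k ∈ cl n (q * n) l, eval (p k) (pderiv 0 (F l)) = b k ∧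
        eval (p k) (pderiv 1 (F l)) = c k) ∧
      ∀ t < s, eval (p (q * n + t)) (pderiv 0 (F (2 * t) + F (2 * t + 1))) = b (q * n + t) ∧
        eval (p (q * n + t)) (pderiv 1 (F (2 * t) + F (2 * t + 1))) = c (q * n + t) := by
    have h3 : ∀ t, ∃ f g : MvPolynomial (Fin 2) ℂ, t < s → (f ∈ PP D ∧ g ∈ PP D ∧
        (∀ k ∈ range (q * n + s), eval (p k) f = A (2 * t) k) ∧
        (∀ k ∈ range (q * n + s), eval (p k) g = A (2 * t + 1) k) ∧
        (∀ k ∈ cl n (q * n) (2 * t), eval (p k) (pderiv 0 f) = b k ∧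
          eval (p k) (pderiv 1 f) = c k) ∧
        (∀ k ∈ cl n (q * n) (2 * t + 1), eval (p k) (pderiv 0 g) = b k ∧
          eval (p k) (pderiv 1 g) = c k) ∧
        eval (p (q * n + t)) (pderiv 0 (f + g)) = b (q * n + t) ∧
        eval (p (q * n + t)) (pderiv 1 (f + g)) = c (q * n + t)) := by
      intro t
      by_cases ht : t < s
      · obtain ⟨f, hf, g, hg, e1, e2, e3, e4, e5, e6⟩ := hp t ht (A (2 * t)) (A (2 * t + 1)) b b c c
          (b (q * n + t)) (c (q * n + t))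
        exact ⟨f, g, fun _ => ⟨hf, hg, e1, e2, e3, e4, e5, e6⟩⟩
      · exact ⟨0, 0, fun h => absurd h ht⟩
    have h4 : ∀ l, ∃ f : MvPolynomial (Fin 2) ℂ, 2 * s ≤ l → l < n → (f ∈ PP D ∧
        (∀ k ∈ range (q * n + s), eval (p k) f = A l k) ∧
        (∀ k ∈ cl n (q * n) l, eval (p k) (pderiv 0 f) = b k ∧
          eval (p k) (pderiv 1 f) = c k)) := by
      intro l
      by_cases hl : 2 * s ≤ l ∧ l < n
      · obtain ⟨f, hf, e1, e2⟩ := hi l hl.1 hl.2 (A l) b c
        exact ⟨f, fun _ _ => ⟨hf, e1, e2⟩⟩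
      · exact ⟨0, fun h h' => absurd ⟨h, h'⟩ hl⟩
    choose f g hfg using h3
    choose f' hf' using h4
    let F : ℕ → MvPolynomial (Fin 2) ℂ := fun l =>
      if l < 2 * s then (if l % 2 = 0 then f (l / 2) else g (l / 2)) else f' l
    have F0 : ∀ t < s, F (2 * t) = f t := by
      intro t ht
      have e1 : 2 * t < 2 * s := by omega
      have e2 : 2 * t % 2 = 0 := by omega
      have e3 : 2 * t / 2 = t := by omega
      simp only [F, if_pos e1, if_pos e2, e3]
    have F1 : ∀ t < s, F (2 * t + 1) = g t := by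
      intro t ht
      have e1 : 2 * t + 1 < 2 * s := by omega
      have e2 : ¬ (2 * t + 1) % 2 = 0 := by omega
      have e3 : (2 * t + 1) / 2 = t := by omega
      simp only [F, if_pos e1, if_neg e2, e3]
    have F2 : ∀ l, 2 * s ≤ l → F l = f' l := by
      intro l hl
      simp only [F, if_neg (not_lt.2 hl)]
    have cases : ∀ l < n, (∃ t < s, l = 2 * t) ∨ (∃ t < s, l = 2 * t + 1) ∨ 2 * s ≤ l := by
      intro l _
      rcases Nat.lt_or_ge l (2 * s) with h5 | h5
      · rcases Nat.mod_two_eq_zero_or_one l with h6 | h6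
        · exact Or.inl ⟨l / 2, by omega, by omega⟩
        · exact Or.inr (Or.inl ⟨l / 2, by omega, by omega⟩)
      · exact Or.inr (Or.inr h5)
    refine ⟨F, ?_, ?_, ?_, ?_⟩
    · intro l hl
      rcases cases l hl with ⟨t, ht, rfl⟩ | ⟨t, ht, rfl⟩ | h5
      · rw [F0 t ht]
        exact (hfg t ht).1
      · rw [F1 t ht]
        exact (hfg t ht).2.1
      · rw [F2 l h5]
        exact (hf' l h5 hl).1
    · intro l hl
      rcases cases l hl with ⟨t, ht, rfl⟩ | ⟨t, ht, rfl⟩ | h5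
      · rw [F0 t ht]
        exact (hfg t ht).2.2.1
      · rw [F1 t ht]
        exact (hfg t ht).2.2.2.1
      · rw [F2 l h5]
        exact (hf' l h5 hl).2.1
    · intro l hl
      rcases cases l hl with ⟨t, ht, rfl⟩ | ⟨t, ht, rfl⟩ | h5
      · rw [F0 t ht]
        exact (hfg t ht).2.2.2.2.1
      · rw [F1 t ht]
        exact (hfg t ht).2.2.2.2.2.1
      · rw [F2 l h5]
        exact (hf' l h5 hl).2.2
    · intro t ht
      rw [F0 t ht, F1 t ht]
      exact (hfg t ht).2.2.2.2.2.2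
  obtain ⟨F, hF1, hF2, hF3, hF4⟩ := key
  refine ⟨fun l => F l, fun l => hF1 l l.2, fun k hk l => ?_, fun k hk => ?_⟩
  · rw [hF2 l l.2 k (mem_range.2 hk)]
    exact hA l k
  · rcases Nat.lt_or_ge k (q * n) with hk' | hk'
    · have h5 := hF3 (k % n) (Nat.mod_lt _ hn) k (mem_cl.2 ⟨hk', rfl⟩)
      constructor
      · rw [sum_wu_lt hn hk' (fun l => eval (p k) (pderiv 0 (F l)))]
        exact h5.1
      · rw [sum_wu_lt hn hk' (fun l => eval (p k) (pderiv 1 (F l)))]
        exact h5.2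
    · obtain ⟨t, rfl⟩ : ∃ t, k = q * n + t := ⟨k - q * n, by omega⟩
      have ht : t < s := by omega
      have h6 := hF4 t ht
      rw [map_add, map_add, map_add, map_add] at h6
      constructor
      · rw [sum_wu (by omega) (fun l => eval (p (q * n + t)) (pderiv 0 (F l)))]
        exact h6.1
      · rw [sum_wu (by omega) (fun l => eval (p (q * n + t)) (pderiv 1 (F l)))]
        exact h6.2

/-- Superabundant window: all pairs vanish by `pair_inj`, and for odd `n` the last one by `pair_inj`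
for the pair `(F (n-1), F 0)` with `F 0 = 0`. -/
theorem inj_window {n q s c : ℕ} (hn : 2 ≤ n) {D : ℕ → ℕ} (hD : ∀ i, c ≤ i → D i = 0)
    {p : ℕ → Fin 2 → ℂ} (h2 : n ≤ 2 * s) (hN : num D c = q * n + s + 2 * q + 1)
    (hp : ∀ t, 2 * t + 1 < n → PairI D p (range (q * n + s)) (range (q * n + s))
      (cl n (q * n) (2 * t)) (cl n (q * n) (2 * t + 1)) (q * n + t))
    (ho : ∀ t, 2 * t + 1 = n → PairI D p (range (q * n + s)) (range (q * n + s))
      (cl n (q * n) (2 * t)) (cl n (q * n) 0) (q * n + t)) :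
    InjN n D (q * n + s) p (wu n q) := by
  intro F hF h0 h1
  have hcl : ∀ l : Fin n, ∀ k ∈ cl n (q * n) l, eval (p k) (pderiv 0 (F l)) = 0 ∧
      eval (p k) (pderiv 1 (F l)) = 0 := by
    intro l k hk
    obtain ⟨hk1, hk2⟩ := mem_cl.1 hk
    obtain ⟨e1, e2⟩ := h1 k (by omega)
    rw [sum_wu_lt (by omega) hk1 (fun l => eval (p k) (pderiv 0 (F l)))] at e1
    rw [sum_wu_lt (by omega) hk1 (fun l => eval (p k) (pderiv 1 (F l)))] at e2
    have e : (⟨k % n, Nat.mod_lt _ (by omega)⟩ : Fin n) = l := Fin.ext hk2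
    rw [e] at e1 e2
    exact ⟨e1, e2⟩
  have hv : ∀ l : Fin n, ∀ k ∈ range (q * n + s), eval (p k) (F l) = 0 := fun l k hk =>
    h0 k (mem_range.1 hk) l
  have hpairs : ∀ t (ht : 2 * t + 1 < n), F ⟨2 * t, by omega⟩ = 0 ∧ F ⟨2 * t + 1, ht⟩ = 0 := by
    intro t ht
    obtain ⟨e1, e2⟩ := h1 (q * n + t) (by omega)
    rw [sum_wu ht (fun l => eval (p (q * n + t)) (pderiv 0 (F l)))] at e1
    rw [sum_wu ht (fun l => eval (p (q * n + t)) (pderiv 1 (F l)))] at e2
    refine pair_inj hD (hp t ht) ?_ (hF _) (hF _) (hv _) (hv _) (hcl ⟨2 * t, by omega⟩)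
      (hcl ⟨2 * t + 1, ht⟩) ?_ ?_
    · rw [card_range, cl_card_mul (by omega), cl_card_mul ht]
      omega
    · rw [map_add, map_add]
      exact e1
    · rw [map_add, map_add]
      exact e2
  intro l
  rcases Nat.mod_two_eq_zero_or_one (l : ℕ) with h6 | h6
  · obtain ⟨t, ht⟩ : ∃ t, (l : ℕ) = 2 * t := ⟨(l : ℕ) / 2, by omega⟩
    have hl := l.2
    rcases Nat.lt_or_ge (2 * t + 1) n with h7 | h7
    · have e : l = ⟨2 * t, by omega⟩ := Fin.ext ht
      rw [e]
      exact (hpairs t h7).1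
    · have h8 : 2 * t + 1 = n := by omega
      have e : l = ⟨2 * t, by omega⟩ := Fin.ext ht
      have hF0 : F ⟨0, by omega⟩ = 0 := (hpairs 0 (by omega)).1
      obtain ⟨e1, e2⟩ := h1 (q * n + t) (by omega)
      rw [sum_wu_odd h8 hn (fun l => eval (p (q * n + t)) (pderiv 0 (F l)))] at e1
      rw [sum_wu_odd h8 hn (fun l => eval (p (q * n + t)) (pderiv 1 (F l)))] at e2
      rw [e]
      refine (pair_inj hD (ho t h8) ?_ (hF _) (hF ⟨0, by omega⟩) (hv _) (hv _)
        (hcl ⟨2 * t, by omega⟩) (hcl ⟨0, by omega⟩) ?_ ?_).1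
      · rw [card_range, cl_card_mul (by omega), cl_card_mul (by omega)]
        omega
      · rw [map_add, map_add]
        exact e1
      · rw [map_add, map_add]
        exact e2
  · obtain ⟨t, ht⟩ : ∃ t, (l : ℕ) = 2 * t + 1 := ⟨(l : ℕ) / 2, by omega⟩
    have hl := l.2
    have e : l = ⟨2 * t + 1, by omega⟩ := Fin.ext ht
    rw [e]
    exact (hpairs t (by omega)).2

end Pool.Agent.SV.S
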