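import Pool.Agent.Lib.MP_b54217_ag.S.Defs

/-! # PROJECT S: the spaces `PP D` -/

set_option autoImplicit false

namespace Pool.Agent.SV.S

open MvPolynomial

theorem mono_mem {D : ℕ → ℕ} {i j : ℕ} (h : j < D i) :
    (X 0 ^ i * X 1 ^ j : MvPolynomial (Fin 2) ℂ) ∈ PP D :=
  Submodule.subset_span ⟨i, j, h, rfl⟩

theorem C_mul_mem {D : ℕ → ℕ} (a : ℂ) {f : MvPolynomial (Fin 2) ℂ} (h : f ∈ PP D) :
    C a * f ∈ PP D := by
  rw [← smul_eq_C_mul]
  exact Submodule.smul_mem _ _ h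

/-- A polynomial in `y` of degree `< D 0` lies in `PP D`.
Proof: sum of its monomials `C (t.coeff j) * X 1 ^ j = C _ * (X 0 ^ 0 * X 1 ^ j)`. -/
theorem trace_mem {D : ℕ → ℕ} (t : Polynomial ℂ) (ht : t ∈ Polynomial.degreeLT ℂ (D 0)) :
    Polynomial.aeval (X 1 : MvPolynomial (Fin 2) ℂ) t ∈ PP D := by
  rw [Polynomial.aeval_eq_sum_range]
  refine Submodule.sum_mem _ fun j hj => ?_
  rw [smul_eq_C_mul]
  by_cases hj' : j < D 0
  · apply C_mul_mem
    have := mono_mem (D := D) (i := 0) hj'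
    simpa using this
  · have : t.coeff j = 0 := by
      rw [Polynomial.mem_degreeLT] at ht
      apply Polynomial.coeff_eq_zero_of_degree_lt
      refine lt_of_lt_of_le ht ?_
      exact_mod_cast (not_lt.1 hj')
    rw [this, C_0, zero_mul]
    exact Submodule.zero_mem _

/-- `(x - x0) g ∈ PP D` for `g ∈ PP (tl D)`.  Proof: span induction on `g`; for a monomial
`X 0 ^ (i+1) * X 1 ^ j` with `j < D (i+1) ≤ D i`. -/
theorem shift_mem {D : ℕ → ℕ} (hD : Antitone D) (x0 : ℂ) {g : MvPolynomial (Fin 2) ℂ}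
    (hg : g ∈ PP (tl D)) : (X 0 - C x0) * g ∈ PP D := by
  induction hg using Submodule.span_induction with
  | mem m hm =>
    obtain ⟨i, j, hj, rfl⟩ := hm
    have h1 : (X 0 - C x0) * (X 0 ^ i * X 1 ^ j : MvPolynomial (Fin 2) ℂ) =
        X 0 ^ (i + 1) * X 1 ^ j - C x0 * (X 0 ^ i * X 1 ^ j) := by ring
    rw [h1]
    refine Submodule.sub_mem _ (mono_mem hj) (C_mul_mem _ (mono_mem ?_))
    exact lt_of_lt_of_le hj (hD (Nat.le_succ i))
  | zero => rw [mul_zero]; exact Submodule.zero_mem _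
  | add a b _ _ ha hb => rw [mul_add]; exact Submodule.add_mem _ ha hb
  | smul a b _ hb =>
    rw [mul_smul_comm]
    exact Submodule.smul_mem _ _ hb

/-- A sum over the monomials lies in `PP D`. -/
theorem sum_mem_PP {D : ℕ → ℕ} {c : ℕ} (a : J D c → ℂ) :
    ∑ x : J D c, C (a x) * (X 0 ^ x.1.1 * X 1 ^ x.1.2) ∈ PP D := by
  refine Submodule.sum_mem _ fun x _ => C_mul_mem _ (mono_mem ?_)
  have := x.2
  rw [Finset.mem_sigma, Finset.mem_range, Finset.mem_range] at this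
  exact this.2

/-- Every element of `PP D` is such a sum (span induction). -/
theorem eq_sum_of_mem_PP {D : ℕ → ℕ} {c : ℕ} (hD : ∀ i, c ≤ i → D i = 0)
    {f : MvPolynomial (Fin 2) ℂ} (hf : f ∈ PP D) :
    ∃ a : J D c → ℂ, f = ∑ x : J D c, C (a x) * (X 0 ^ x.1.1 * X 1 ^ x.1.2) := by
  classical
  induction hf using Submodule.span_induction with
  | mem m hm =>
    obtain ⟨i, j, hj, rfl⟩ := hm
    have hi : i < c := by
      by_contra h
      rw [hD i (not_lt.1 h)] at hj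
      exact absurd hj (Nat.not_lt_zero _)
    have hmem : (⟨i, j⟩ : (_ : ℕ) × ℕ) ∈ (Finset.range c).sigma fun i => Finset.range (D i) := by
      rw [Finset.mem_sigma, Finset.mem_range, Finset.mem_range]
      exact ⟨hi, hj⟩
    refine ⟨Pi.single ⟨⟨i, j⟩, hmem⟩ 1, ?_⟩
    rw [Finset.sum_eq_single ⟨⟨i, j⟩, hmem⟩]
    · simp
    · intro x _ hx
      rw [Pi.single_eq_of_ne hx, C_0, zero_mul]
    · intro h
      exact absurd (Finset.mem_univ _) h
  | zero => exact ⟨0, by simp⟩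
  | add f g _ _ hf hg =>
    obtain ⟨a, rfl⟩ := hf
    obtain ⟨b, rfl⟩ := hg
    refine ⟨a + b, ?_⟩
    rw [← Finset.sum_add_distrib]
    refine Finset.sum_congr rfl fun x _ => ?_
    rw [Pi.add_apply, C_add, add_mul]
  | smul r f _ hf =>
    obtain ⟨a, rfl⟩ := hf
    refine ⟨r • a, ?_⟩
    rw [Finset.smul_sum]
    refine Finset.sum_congr rfl fun x _ => ?_
    rw [Pi.smul_apply, smul_eq_mul, C_mul, smul_eq_C_mul, mul_assoc]

theorem coeff_mono (i j i' j' : ℕ) (a : ℂ) :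
    coeff (Finsupp.single 0 i + Finsupp.single 1 j)
      (C a * (X 0 ^ i' * X 1 ^ j') : MvPolynomial (Fin 2) ℂ) =
      if i' = i ∧ j' = j then a else 0 := by
  have h1 : (X 0 ^ i' * X 1 ^ j' : MvPolynomial (Fin 2) ℂ) =
      monomial (Finsupp.single 0 i' + Finsupp.single 1 j') 1 := by
    rw [X_pow_eq_monomial, X_pow_eq_monomial, monomial_mul, one_mul]
  rw [h1, coeff_C_mul, coeff_monomial]
  have h2 : (Finsupp.single (0 : Fin 2) i' + Finsupp.single 1 j' =
      Finsupp.single 0 i + Finsupp.single 1 j) ↔ (i' = i ∧ j' = j) := by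
    constructor
    · intro h
      have e0 := DFunLike.congr_fun h 0
      have e1 := DFunLike.congr_fun h 1
      simpa using And.intro e0 e1
    · rintro ⟨rfl, rfl⟩
      rfl
  by_cases h : i' = i ∧ j' = j
  · rw [if_pos (h2.2 h), if_pos h, mul_one]
  · rw [if_neg (fun h' => h (h2.1 h')), if_neg h, mul_zero]

/-- The coefficients are determined (compare `coeff (Finsupp.single 0 i + Finsupp.single 1 j)`). -/
theorem sum_inj {D : ℕ → ℕ} {c : ℕ} {a : J D c → ℂ}
    (h : ∑ x : J D c, (C (a x) * (X 0 ^ x.1.1 * X 1 ^ x.1.2) : MvPolynomial (Fin 2) ℂ) = 0) :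
    a = 0 := by
  classical
  funext y
  have h1 := congrArg (coeff (Finsupp.single 0 y.1.1 + Finsupp.single 1 y.1.2)) h
  rw [coeff_sum, coeff_zero, Finset.sum_eq_single y] at h1
  · rw [coeff_mono, if_pos ⟨rfl, rfl⟩] at h1
    exact h1
  · intro x _ hx
    rw [coeff_mono, if_neg]
    rintro ⟨h2, h3⟩
    apply hx
    apply Subtype.ext
    exact Sigma.ext h2 (heq_of_eq h3)
  · intro h2
    exact absurd (Finset.mem_univ _) h2

theorem card_J (D : ℕ → ℕ) (c : ℕ) : Fintype.card (J D c) = num D c := by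
  rw [Fintype.card_coe, Finset.card_sigma, num]
  simp

/-- Coordinates on `PP D`. -/
noncomputable def toPP (D : ℕ → ℕ) (c : ℕ) : (J D c → ℂ) →ₗ[ℂ] PP D where
  toFun a := ⟨∑ x : J D c, C (a x) * (X 0 ^ x.1.1 * X 1 ^ x.1.2), sum_mem_PP a⟩
  map_add' a b := by
    apply Subtype.ext
    change ∑ x : J D c, (C ((a + b) x) * (X 0 ^ x.1.1 * X 1 ^ x.1.2) :
      MvPolynomial (Fin 2) ℂ) = ∑ x : J D c, C (a x) * (X 0 ^ x.1.1 * X 1 ^ x.1.2) +
        ∑ x : J D c, C (b x) * (X 0 ^ x.1.1 * X 1 ^ x.1.2)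
    rw [← Finset.sum_add_distrib]
    refine Finset.sum_congr rfl fun x _ => ?_
    rw [Pi.add_apply, C_add, add_mul]
  map_smul' r a := by
    apply Subtype.ext
    change ∑ x : J D c, (C ((r • a) x) * (X 0 ^ x.1.1 * X 1 ^ x.1.2) :
      MvPolynomial (Fin 2) ℂ) = r • ∑ x : J D c, C (a x) * (X 0 ^ x.1.1 * X 1 ^ x.1.2)
    rw [Finset.smul_sum]
    refine Finset.sum_congr rfl fun x _ => ?_
    rw [Pi.smul_apply, smul_eq_mul, C_mul, smul_eq_C_mul, mul_assoc]

theorem toPP_bij {D : ℕ → ℕ} {c : ℕ} (hD : ∀ i, c ≤ i → D i = 0) :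
    Function.Bijective (toPP D c) := by
  constructor
  · rw [injective_iff_map_eq_zero]
    intro a ha
    exact sum_inj (congrArg Subtype.val ha)
  · rintro ⟨f, hf⟩
    obtain ⟨a, ha⟩ := eq_sum_of_mem_PP hD hf
    exact ⟨a, Subtype.ext ha.symm⟩

/-- `PP D` is finite dimensional. -/
theorem finite_PP {D : ℕ → ℕ} {c : ℕ} (hD : ∀ i, c ≤ i → D i = 0) : Module.Finite ℂ (PP D) :=
  Module.Finite.of_surjective (toPP D c) (toPP_bij hD).2

/-- `dim PP D = num D c`. -/
theorem finrank_PP {D : ℕ → ℕ} {c : ℕ} (hD : ∀ i, c ≤ i → D i = 0) :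
    Module.finrank ℂ (PP D) = num D c := by
  rw [← (LinearEquiv.ofBijective (toPP D c) (toPP_bij hD)).finrank_eq,
    Module.finrank_fintype_fun_eq_card, card_J]

/-- Values and derivatives of a sum over the monomials. -/
theorem eval_sum {D : ℕ → ℕ} {c : ℕ} (a : J D c → ℂ) (p : Fin 2 → ℂ) :
    eval p (∑ x : J D c, C (a x) * (X 0 ^ x.1.1 * X 1 ^ x.1.2)) = ∑ x, a x * mv p x ∧
    eval p (pderiv 0 (∑ x : J D c, C (a x) * (X 0 ^ x.1.1 * X 1 ^ x.1.2))) = ∑ x, a x * mx p x ∧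
    eval p (pderiv 1 (∑ x : J D c, C (a x) * (X 0 ^ x.1.1 * X 1 ^ x.1.2))) = ∑ x, a x * my p x := by
  refine ⟨?_, ?_, ?_⟩
  · rw [map_sum]
    refine Finset.sum_congr rfl fun x _ => ?_
    simp [mv]
  · rw [map_sum, map_sum]
    refine Finset.sum_congr rfl fun x _ => ?_
    simp only [Derivation.leibniz, Derivation.leibniz_pow, pderiv_X, smul_eq_mul, map_add,
      map_mul, eval_X, map_pow, pderiv_C, eval_C, mx]
    simp
    left
    ring
  · rw [map_sum, map_sum]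
    refine Finset.sum_congr rfl fun x _ => ?_
    simp only [Derivation.leibniz, Derivation.leibniz_pow, pderiv_X, smul_eq_mul, map_add,
      map_mul, eval_X, map_pow, pderiv_C, eval_C, my]
    simp

theorem num_tl (D : ℕ → ℕ) (c : ℕ) : num D (c + 1) = D 0 + num (tl D) c := by
  rw [num, Finset.sum_range_succ', add_comm]
  rfl

end Pool.Agent.SV.S
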