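import Pool.Agent.Lib.MP_b54217_ag.S.Defs

/-! # PROJECT S: general properties of `Gen` and `OpenAt` -/

set_option autoImplicit false

namespace Pool.Agent.SV.S

open MvPolynomial

theorem OpenAt.gen {p0 : ℕ → Fin 2 → ℂ} {Q : (ℕ → Fin 2 → ℂ) → Prop} (h : OpenAt p0 Q) :
    Gen Q := by
  obtain ⟨F, h0, h1⟩ := h
  refine ⟨F, ?_, h1⟩
  rintro rfl
  exact h0 (map_zero _)

theorem OpenAt.and {p0 : ℕ → Fin 2 → ℂ} {Q R : (ℕ → Fin 2 → ℂ) → Prop} (h : OpenAt p0 Q)
    (h' : OpenAt p0 R) : OpenAt p0 fun p => Q p ∧ R p := by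
  obtain ⟨F, h0, h1⟩ := h
  obtain ⟨G, h0', h1'⟩ := h'
  refine ⟨F * G, ?_, fun p hp => ?_⟩
  · rw [map_mul]
    exact mul_ne_zero h0 h0'
  · rw [map_mul] at hp
    exact ⟨h1 p (left_ne_zero_of_mul hp), h1' p (right_ne_zero_of_mul hp)⟩

theorem Gen.and {Q R : (ℕ → Fin 2 → ℂ) → Prop} (h : Gen Q) (h' : Gen R) :
    Gen fun p => Q p ∧ R p := by
  obtain ⟨F, h0, h1⟩ := h
  obtain ⟨G, h0', h1'⟩ := h'
  refine ⟨F * G, mul_ne_zero h0 h0', fun p hp => ?_⟩
  rw [map_mul] at hp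
  exact ⟨h1 p (left_ne_zero_of_mul hp), h1' p (right_ne_zero_of_mul hp)⟩

theorem Gen.mono {Q R : (ℕ → Fin 2 → ℂ) → Prop} (h : Gen Q) (h' : ∀ p, Q p → R p) : Gen R := by
  obtain ⟨F, h0, h1⟩ := h
  exact ⟨F, h0, fun p hp => h' p (h1 p hp)⟩

theorem Gen.all {ι : Type} (s : Finset ι) {Q : ι → (ℕ → Fin 2 → ℂ) → Prop}
    (h : ∀ i ∈ s, Gen (Q i)) : Gen fun p => ∀ i ∈ s, Q i p := by
  classical
  induction s using Finset.induction_on with
  | empty => exact ⟨1, one_ne_zero, fun p _ i hi => absurd hi (Finset.notMem_empty i)⟩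
  | insert i s _ ih =>
    have h1 := (h i (Finset.mem_insert_self i s)).and
      (ih fun j hj => h j (Finset.mem_insert_of_mem hj))
    refine h1.mono fun p hp j hj => ?_
    rcases Finset.mem_insert.1 hj with rfl | hj
    · exact hp.1
    · exact hp.2 j hj

/-- `MvPolynomial.funext`. -/
theorem Gen.ex {Q : (ℕ → Fin 2 → ℂ) → Prop} (h : Gen Q) : ∃ p, Q p := by
  obtain ⟨F, h0, h1⟩ := h
  by_contra hcon
  push Not at hcon
  apply h0
  apply MvPolynomial.funext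
  intro x
  rw [map_zero]
  by_contra h2
  exact hcon (fun k i => x (k, i)) (h1 _ h2)

/-- Renumbering the points (`rename` of the polynomial). -/
theorem Gen.perm {Q : (ℕ → Fin 2 → ℂ) → Prop} (h : Gen Q) (π : Equiv.Perm ℕ) :
    Gen fun p => Q fun k => p (π k) := by
  obtain ⟨F, h0, h1⟩ := h
  have hinj : Function.Injective fun s : ℕ × Fin 2 => (π s.1, s.2) := by
    rintro ⟨a, b⟩ ⟨a', b'⟩ hab
    simp only [Prod.mk.injEq, EmbeddingLike.apply_eq_iff_eq] at hab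
    exact Prod.ext hab.1 hab.2
  refine ⟨rename (fun s : ℕ × Fin 2 => (π s.1, s.2)) F, ?_, fun p hp => ?_⟩
  · intro h2
    apply h0
    apply rename_injective _ hinj
    rw [h2, map_zero]
  · rw [eval_rename] at hp
    exact h1 _ hp

/-- On a line through `p0` the property fails only finitely often (a nonzero polynomial in one
variable: `Polynomial.eval e (aeval (fun s => Polynomial.C (p0 s.1 s.2) + Polynomial.X *
Polynomial.C (v s.1 s.2)) F)`). -/
theorem OpenAt.line {p0 : ℕ → Fin 2 → ℂ} {Q : (ℕ → Fin 2 → ℂ) → Prop} (h : OpenAt p0 Q)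
    (v : ℕ → Fin 2 → ℂ) : {e : ℂ | ¬ Q fun k i => p0 k i + e * v k i}.Finite := by
  obtain ⟨F, h0, h1⟩ := h
  let P : Polynomial ℂ := aeval (fun s : ℕ × Fin 2 => Polynomial.C (p0 s.1 s.2) + Polynomial.X *
    Polynomial.C (v s.1 s.2)) F
  have hP : ∀ e : ℂ, P.eval e = eval (fun s : ℕ × Fin 2 => p0 s.1 s.2 + e * v s.1 s.2) F := by
    intro e
    have h2 : (Polynomial.evalRingHom e).comp
        ((aeval (fun s : ℕ × Fin 2 => Polynomial.C (p0 s.1 s.2) + Polynomial.X *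
          Polynomial.C (v s.1 s.2)) : MvPolynomial (ℕ × Fin 2) ℂ →ₐ[ℂ] Polynomial ℂ) :
          MvPolynomial (ℕ × Fin 2) ℂ →+* Polynomial ℂ) =
        eval (fun s : ℕ × Fin 2 => p0 s.1 s.2 + e * v s.1 s.2) := by
      apply MvPolynomial.ringHom_ext
      · intro r
        simp
      · intro s
        simp
        exact mul_comm _ _
    exact RingHom.congr_fun h2 F
  have hP0 : P ≠ 0 := by
    intro h2
    have h3 := hP 0
    rw [h2, Polynomial.eval_zero] at h3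
    apply h0
    rw [h3]
    simp
  refine (P.rootSet_finite ℂ).subset ?_
  intro e he
  rw [Polynomial.mem_rootSet]
  refine ⟨hP0, ?_⟩
  rw [Polynomial.coe_aeval_eq_eval, hP]
  by_contra h2
  exact he (h1 _ h2)

end Pool.Agent.SV.S
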