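import Pool.Agent.Lib.MP_b54217_ag.S.Base

/-! # PROJECT S: openness -/

set_option autoImplicit false

namespace Pool.Agent.SV.S

open MvPolynomial

/-- Surjectivity of a matrix with polynomial entries is an open condition.
Proof: take a right inverse `R` of the matrix `M(p0)` (a complex matrix) and
`F = det (M * R.map C)`; `F(p0) = det 1 = 1`, and `F(p) ≠ 0` gives `M(p) R` invertible. -/
theorem open_surj {κ ι : Type} [Fintype κ] [Fintype ι] (M : κ → ι → MvPolynomial (ℕ × Fin 2) ℂ)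
    (p0 : ℕ → Fin 2 → ℂ)
    (h : ∀ b : κ → ℂ, ∃ a : ι → ℂ, ∀ k, ∑ i, eval (fun s => p0 s.1 s.2) (M k i) * a i = b k) :
    OpenAt p0 fun p => ∀ b : κ → ℂ, ∃ a : ι → ℂ, ∀ k,
      ∑ i, eval (fun s => p s.1 s.2) (M k i) * a i = b k := by
  classical
  choose A hA using fun j : κ => h (Pi.single j 1)
  let MM : Matrix κ ι (MvPolynomial (ℕ × Fin 2) ℂ) := Matrix.of M
  let R : Matrix ι κ ℂ := Matrix.of fun i j => A j i
  let RR : Matrix ι κ (MvPolynomial (ℕ × Fin 2) ℂ) := R.map C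
  have hev : ∀ p : ℕ → Fin 2 → ℂ, eval (fun s : ℕ × Fin 2 => p s.1 s.2) (MM * RR).det =
      ((Matrix.of fun k i => eval (fun s : ℕ × Fin 2 => p s.1 s.2) (M k i)) * R).det := by
    intro p
    rw [RingHom.map_det]
    congr 1
    ext k j
    rw [RingHom.mapMatrix_apply, Matrix.map_apply, Matrix.mul_apply, Matrix.mul_apply, map_sum]
    refine Finset.sum_congr rfl fun i _ => ?_
    simp [MM, RR, R]
  refine ⟨(MM * RR).det, ?_, fun p hp b => ?_⟩
  · rw [hev p0]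
    have h1 : (Matrix.of fun k i => eval (fun s : ℕ × Fin 2 => p0 s.1 s.2) (M k i)) * R = 1 := by
      ext k j
      rw [Matrix.mul_apply, Matrix.one_apply]
      have := hA j k
      rw [Pi.single_apply] at this
      exact this
    rw [h1, Matrix.det_one]
    exact one_ne_zero
  · rw [hev p] at hp
    set N := (Matrix.of fun k i => eval (fun s : ℕ × Fin 2 => p s.1 s.2) (M k i)) * R with hN
    have hu : IsUnit N.det := isUnit_iff_ne_zero.2 hp
    refine ⟨R.mulVec (N⁻¹.mulVec b), fun k => ?_⟩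
    have h2 : (Matrix.of fun k i => eval (fun s : ℕ × Fin 2 => p s.1 s.2) (M k i)).mulVec
        (R.mulVec (N⁻¹.mulVec b)) = b := by
      rw [Matrix.mulVec_mulVec, ← hN, Matrix.mulVec_mulVec, Matrix.mul_nonsing_inv _ hu,
        Matrix.one_mulVec]
    exact congrFun h2 k

/-- The polynomials for the values and derivatives of the monomials at the point `k`. -/
noncomputable def Mv {D : ℕ → ℕ} {c : ℕ} (k : ℕ) (x : J D c) : MvPolynomial (ℕ × Fin 2) ℂ :=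
  X (k, 0) ^ x.1.1 * X (k, 1) ^ x.1.2

noncomputable def Mx {D : ℕ → ℕ} {c : ℕ} (k : ℕ) (x : J D c) : MvPolynomial (ℕ × Fin 2) ℂ :=
  C (x.1.1 : ℂ) * X (k, 0) ^ (x.1.1 - 1) * X (k, 1) ^ x.1.2

noncomputable def My {D : ℕ → ℕ} {c : ℕ} (k : ℕ) (x : J D c) : MvPolynomial (ℕ × Fin 2) ℂ :=
  X (k, 0) ^ x.1.1 * (C (x.1.2 : ℂ) * X (k, 1) ^ (x.1.2 - 1))

theorem eval_Mv {D : ℕ → ℕ} {c : ℕ} (p : ℕ → Fin 2 → ℂ) (k : ℕ) (x : J D c) :
    eval (fun s : ℕ × Fin 2 => p s.1 s.2) (Mv k x) = mv (p k) x := by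
  simp [Mv, mv]

theorem eval_Mx {D : ℕ → ℕ} {c : ℕ} (p : ℕ → Fin 2 → ℂ) (k : ℕ) (x : J D c) :
    eval (fun s : ℕ × Fin 2 => p s.1 s.2) (Mx k x) = mx (p k) x := by
  simp [Mx, mx]

theorem eval_My {D : ℕ → ℕ} {c : ℕ} (p : ℕ → Fin 2 → ℂ) (k : ℕ) (x : J D c) :
    eval (fun s : ℕ × Fin 2 => p s.1 s.2) (My k x) = my (p k) x := by
  simp [My, my]

/-- The rows of the matrix of `Itp`. -/
noncomputable def Row {D : ℕ → ℕ} {c : ℕ} {S B : Finset ℕ} (k : S ⊕ B ⊕ B) (i : J D c) :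
    MvPolynomial (ℕ × Fin 2) ℂ :=
  match k with
  | Sum.inl k => Mv (k : ℕ) i
  | Sum.inr (Sum.inl k) => Mx (k : ℕ) i
  | Sum.inr (Sum.inr k) => My (k : ℕ) i

/-- The right hand sides. -/
def rhs (a b c : ℕ → ℂ) {S B : Finset ℕ} (k : S ⊕ B ⊕ B) : ℂ :=
  match k with
  | Sum.inl k => a (k : ℕ)
  | Sum.inr (Sum.inl k) => b (k : ℕ)
  | Sum.inr (Sum.inr k) => c (k : ℕ)

/-- A single polynomial in coordinates. -/
theorem row_iff {D : ℕ → ℕ} {c : ℕ} (p : ℕ → Fin 2 → ℂ) (S B : Finset ℕ) (w : J D c → ℂ)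
    (a b c' : ℕ → ℂ) :
    ((∀ k ∈ S, eval (p k) (∑ x : J D c, C (w x) * (X 0 ^ x.1.1 * X 1 ^ x.1.2)) = a k) ∧
      ∀ k ∈ B, eval (p k) (pderiv 0 (∑ x : J D c, C (w x) * (X 0 ^ x.1.1 * X 1 ^ x.1.2))) = b k ∧
        eval (p k) (pderiv 1 (∑ x : J D c, C (w x) * (X 0 ^ x.1.1 * X 1 ^ x.1.2))) = c' k) ↔
    ∀ k : S ⊕ B ⊕ B, ∑ i, eval (fun s : ℕ × Fin 2 => p s.1 s.2) (Row k i) * w i =
      rhs a b c' k := by
  have e1 : ∀ k : ℕ, ∑ i : J D c, eval (fun s : ℕ × Fin 2 => p s.1 s.2) (Mv k i) * w i =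
      ∑ x, w x * mv (p k) x := fun k => Finset.sum_congr rfl fun x _ => by
    rw [eval_Mv, mul_comm]
  have e2 : ∀ k : ℕ, ∑ i : J D c, eval (fun s : ℕ × Fin 2 => p s.1 s.2) (Mx k i) * w i =
      ∑ x, w x * mx (p k) x := fun k => Finset.sum_congr rfl fun x _ => by
    rw [eval_Mx, mul_comm]
  have e3 : ∀ k : ℕ, ∑ i : J D c, eval (fun s : ℕ × Fin 2 => p s.1 s.2) (My k i) * w i =
      ∑ x, w x * my (p k) x := fun k => Finset.sum_congr rfl fun x _ => by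
    rw [eval_My, mul_comm]
  constructor
  · rintro ⟨h1, h2⟩ (⟨k, hk⟩ | ⟨k, hk⟩ | ⟨k, hk⟩)
    · have h3 := h1 k hk
      rw [(eval_sum w (p k)).1] at h3
      exact (e1 k).trans h3
    · have h3 := (h2 k hk).1
      rw [(eval_sum w (p k)).2.1] at h3
      exact (e2 k).trans h3
    · have h3 := (h2 k hk).2
      rw [(eval_sum w (p k)).2.2] at h3
      exact (e3 k).trans h3
  · intro h
    refine ⟨fun k hk => ?_, fun k hk => ⟨?_, ?_⟩⟩
    · rw [(eval_sum w (p k)).1]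
      exact (e1 k).symm.trans (h (Sum.inl ⟨k, hk⟩))
    · rw [(eval_sum w (p k)).2.1]
      exact (e2 k).symm.trans (h (Sum.inr (Sum.inl ⟨k, hk⟩)))
    · rw [(eval_sum w (p k)).2.2]
      exact (e3 k).symm.trans (h (Sum.inr (Sum.inr ⟨k, hk⟩)))

/-- `Itp` in coordinates. -/
theorem itp_iff {D : ℕ → ℕ} {c : ℕ} (hD : ∀ i, c ≤ i → D i = 0) (p : ℕ → Fin 2 → ℂ)
    (S B : Finset ℕ) : Itp D p S B ↔ ∀ b : (S ⊕ B ⊕ B) → ℂ, ∃ a : J D c → ℂ,
      ∀ k : S ⊕ B ⊕ B, ∑ i, eval (fun s : ℕ × Fin 2 => p s.1 s.2)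
        (match k with
          | Sum.inl k => Mv (k : ℕ) i
          | Sum.inr (Sum.inl k) => Mx (k : ℕ) i
          | Sum.inr (Sum.inr k) => My (k : ℕ) i) * a i = b k := by
  classical
  constructor
  · intro h b
    obtain ⟨f, hf, h1, h2⟩ := h (fun k => if hk : k ∈ S then b (Sum.inl ⟨k, hk⟩) else 0)
      (fun k => if hk : k ∈ B then b (Sum.inr (Sum.inl ⟨k, hk⟩)) else 0)
      (fun k => if hk : k ∈ B then b (Sum.inr (Sum.inr ⟨k, hk⟩)) else 0)
    obtain ⟨a, rfl⟩ := eq_sum_of_mem_PP hD hf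
    refine ⟨a, ?_⟩
    rintro (⟨k, hk⟩ | ⟨k, hk⟩ | ⟨k, hk⟩)
    · have h3 := h1 k hk
      rw [(eval_sum a (p k)).1, dif_pos hk] at h3
      rw [← h3]
      refine Finset.sum_congr rfl fun x _ => ?_
      rw [mul_comm]
      exact congrArg (a x * ·) (eval_Mv p k x)
    · have h3 := (h2 k hk).1
      rw [(eval_sum a (p k)).2.1, dif_pos hk] at h3
      rw [← h3]
      refine Finset.sum_congr rfl fun x _ => ?_
      rw [mul_comm]
      exact congrArg (a x * ·) (eval_Mx p k x)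
    · have h3 := (h2 k hk).2
      rw [(eval_sum a (p k)).2.2, dif_pos hk] at h3
      rw [← h3]
      refine Finset.sum_congr rfl fun x _ => ?_
      rw [mul_comm]
      exact congrArg (a x * ·) (eval_My p k x)
  · intro h a b c'
    obtain ⟨w, hw⟩ := h (fun k => match k with
      | Sum.inl k => a k
      | Sum.inr (Sum.inl k) => b k
      | Sum.inr (Sum.inr k) => c' k)
    refine ⟨_, sum_mem_PP w, fun k hk => ?_, fun k hk => ⟨?_, ?_⟩⟩
    · rw [(eval_sum w (p k)).1]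
      refine Eq.trans ?_ (hw (Sum.inl ⟨k, hk⟩))
      refine Finset.sum_congr rfl fun x _ => ?_
      rw [mul_comm]
      exact congrArg (· * w x) (eval_Mv p k x).symm
    · rw [(eval_sum w (p k)).2.1]
      refine Eq.trans ?_ (hw (Sum.inr (Sum.inl ⟨k, hk⟩)))
      refine Finset.sum_congr rfl fun x _ => ?_
      rw [mul_comm]
      exact congrArg (· * w x) (eval_Mx p k x).symm
    · rw [(eval_sum w (p k)).2.2]
      refine Eq.trans ?_ (hw (Sum.inr (Sum.inr ⟨k, hk⟩)))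
      refine Finset.sum_congr rfl fun x _ => ?_
      rw [mul_comm]
      exact congrArg (· * w x) (eval_My p k x).symm

/-- `Itp` is open: apply `open_surj` with `κ = S ⊕ B ⊕ B`, `ι = J D c` and the polynomials
`X (k,0) ^ i * X (k,1) ^ j` and their derivatives (`eq_sum_of_mem_PP`, `sum_mem_PP`, `eval_sum`). -/
theorem itp_open {D : ℕ → ℕ} {c : ℕ} (hD : ∀ i, c ≤ i → D i = 0) {p0 : ℕ → Fin 2 → ℂ}
    {S B : Finset ℕ} (h : Itp D p0 S B) : OpenAt p0 fun p => Itp D p S B := by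
  have h1 := open_surj (fun (k : S ⊕ B ⊕ B) (i : J D c) => (match k with
          | Sum.inl k => Mv (k : ℕ) i
          | Sum.inr (Sum.inl k) => Mx (k : ℕ) i
          | Sum.inr (Sum.inr k) => My (k : ℕ) i)) p0 ((itp_iff hD p0 S B).1 h)
  obtain ⟨F, h2, h3⟩ := h1
  exact ⟨F, h2, fun p hp => (itp_iff hD p S B).2 (h3 p hp)⟩

/-- The matrix of `PairI`. -/
noncomputable def PRow {D : ℕ → ℕ} {c : ℕ} {S T A B : Finset ℕ} (z : ℕ)
    (k : (S ⊕ A ⊕ A) ⊕ (T ⊕ B ⊕ B) ⊕ Bool) (i : J D c ⊕ J D c) :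
    MvPolynomial (ℕ × Fin 2) ℂ :=
  match k, i with
  | Sum.inl k, Sum.inl i => Row k i
  | Sum.inl _, Sum.inr _ => 0
  | Sum.inr (Sum.inl _), Sum.inl _ => 0
  | Sum.inr (Sum.inl k), Sum.inr i => Row k i
  | Sum.inr (Sum.inr e), Sum.inl i => if e then Mx z i else My z i
  | Sum.inr (Sum.inr e), Sum.inr i => if e then Mx z i else My z i

/-- `PairI` in coordinates. -/
theorem pair_iff {D : ℕ → ℕ} {c : ℕ} (hD : ∀ i, c ≤ i → D i = 0) (p : ℕ → Fin 2 → ℂ)
    (S T A B : Finset ℕ) (z : ℕ) : PairI D p S T A B z ↔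
      ∀ b : ((S ⊕ A ⊕ A) ⊕ (T ⊕ B ⊕ B) ⊕ Bool) → ℂ, ∃ a : J D c ⊕ J D c → ℂ,
      ∀ k, ∑ i, eval (fun s : ℕ × Fin 2 => p s.1 s.2) (PRow z k i) * a i = b k := by
  classical
  have e2 : ∀ (w : J D c → ℂ) (k : ℕ), ∑ i : J D c, eval (fun s : ℕ × Fin 2 => p s.1 s.2) (Mx k i) *
      w i = ∑ x, w x * mx (p k) x := fun w k => Finset.sum_congr rfl fun x _ => by
    rw [eval_Mx, mul_comm]
  have e3 : ∀ (w : J D c → ℂ) (k : ℕ), ∑ i : J D c, eval (fun s : ℕ × Fin 2 => p s.1 s.2) (My k i) *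
      w i = ∑ x, w x * my (p k) x := fun w k => Finset.sum_congr rfl fun x _ => by
    rw [eval_My, mul_comm]
  constructor
  · intro h b
    obtain ⟨f, hf, g, hg, h1, h1', h2, h2', h3, h4⟩ := h
      (fun k => if hk : k ∈ S then b (Sum.inl (Sum.inl ⟨k, hk⟩)) else 0)
      (fun k => if hk : k ∈ T then b (Sum.inr (Sum.inl (Sum.inl ⟨k, hk⟩))) else 0)
      (fun k => if hk : k ∈ A then b (Sum.inl (Sum.inr (Sum.inl ⟨k, hk⟩))) else 0)
      (fun k => if hk : k ∈ B then b (Sum.inr (Sum.inl (Sum.inr (Sum.inl ⟨k, hk⟩)))) else 0)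
      (fun k => if hk : k ∈ A then b (Sum.inl (Sum.inr (Sum.inr ⟨k, hk⟩))) else 0)
      (fun k => if hk : k ∈ B then b (Sum.inr (Sum.inl (Sum.inr (Sum.inr ⟨k, hk⟩)))) else 0)
      (b (Sum.inr (Sum.inr true))) (b (Sum.inr (Sum.inr false)))
    obtain ⟨w, rfl⟩ := eq_sum_of_mem_PP hD hf
    obtain ⟨w', rfl⟩ := eq_sum_of_mem_PP hD hg
    have r1 := (row_iff p S A w _ _ _).1 ⟨h1, h2⟩
    have r2 := (row_iff p T B w' _ _ _).1 ⟨h1', h2'⟩
    refine ⟨Sum.elim w w', ?_⟩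
    rintro (k | k | e)
    · rw [Fintype.sum_sum_type]
      simp only [PRow, Sum.elim_inl, Sum.elim_inr, map_zero, zero_mul, Finset.sum_const_zero,
        add_zero]
      rw [r1 k]
      rcases k with ⟨k, hk⟩ | ⟨k, hk⟩ | ⟨k, hk⟩
      · simp [rhs, hk]
      · simp [rhs, hk]
      · simp [rhs, hk]
    · rw [Fintype.sum_sum_type]
      simp only [PRow, Sum.elim_inl, Sum.elim_inr, map_zero, zero_mul, Finset.sum_const_zero,
        zero_add]
      rw [r2 k]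
      rcases k with ⟨k, hk⟩ | ⟨k, hk⟩ | ⟨k, hk⟩
      · simp [rhs, hk]
      · simp [rhs, hk]
      · simp [rhs, hk]
    · rw [Fintype.sum_sum_type]
      cases e with
      | true =>
        simp only [PRow, Sum.elim_inl, Sum.elim_inr, if_true]
        rw [e2, e2, ← (eval_sum w (p z)).2.1, ← (eval_sum w' (p z)).2.1, ← h3, map_add, map_add]
      | false =>
        simp only [PRow, Sum.elim_inl, Sum.elim_inr, Bool.false_eq_true, if_false]
        rw [e3, e3, ← (eval_sum w (p z)).2.2, ← (eval_sum w' (p z)).2.2, ← h4, map_add, map_add]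
  · intro h a a' b b' c₁ c₁' u v
    obtain ⟨W, hW⟩ := h (fun k => match k with
      | Sum.inl k => rhs a b c₁ k
      | Sum.inr (Sum.inl k) => rhs a' b' c₁' k
      | Sum.inr (Sum.inr e) => if e then u else v)
    let w : J D c → ℂ := fun i => W (Sum.inl i)
    let w' : J D c → ℂ := fun i => W (Sum.inr i)
    have r1 : ∀ k : S ⊕ A ⊕ A, ∑ i, eval (fun s : ℕ × Fin 2 => p s.1 s.2) (Row k i) * w i =
        rhs a b c₁ k := by
      intro k
      have := hW (Sum.inl k)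
      rw [Fintype.sum_sum_type] at this
      simp only [PRow, map_zero, zero_mul, Finset.sum_const_zero, add_zero] at this
      exact this
    have r2 : ∀ k : T ⊕ B ⊕ B, ∑ i, eval (fun s : ℕ × Fin 2 => p s.1 s.2) (Row k i) * w' i =
        rhs a' b' c₁' k := by
      intro k
      have := hW (Sum.inr (Sum.inl k))
      rw [Fintype.sum_sum_type] at this
      simp only [PRow, map_zero, zero_mul, Finset.sum_const_zero, zero_add] at this
      exact this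
    obtain ⟨h1, h2⟩ := (row_iff p S A w _ _ _).2 r1
    obtain ⟨h1', h2'⟩ := (row_iff p T B w' _ _ _).2 r2
    refine ⟨_, sum_mem_PP w, _, sum_mem_PP w', h1, h1', h2, h2', ?_, ?_⟩
    · have := hW (Sum.inr (Sum.inr true))
      rw [Fintype.sum_sum_type] at this
      simp only [PRow, if_true] at this
      rw [map_add, map_add, (eval_sum w (p z)).2.1, (eval_sum w' (p z)).2.1, ← e2, ← e2]
      exact this
    · have := hW (Sum.inr (Sum.inr false))
      rw [Fintype.sum_sum_type] at this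
      simp only [PRow, Bool.false_eq_true, if_false] at this
      rw [map_add, map_add, (eval_sum w (p z)).2.2, (eval_sum w' (p z)).2.2, ← e3, ← e3]
      exact this

/-- `PairI` is open: `κ = S ⊕ T ⊕ A ⊕ A ⊕ B ⊕ B ⊕ Fin 2`, `ι = J D c ⊕ J D c`. -/
theorem pair_open {D : ℕ → ℕ} {c : ℕ} (hD : ∀ i, c ≤ i → D i = 0) {p0 : ℕ → Fin 2 → ℂ}
    {S T A B : Finset ℕ} {z : ℕ} (h : PairI D p0 S T A B z) :
    OpenAt p0 fun p => PairI D p S T A B z := by
  have h1 := open_surj (fun (k : (S ⊕ A ⊕ A) ⊕ (T ⊕ B ⊕ B) ⊕ Bool) (i : J D c ⊕ J D c) =>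
    PRow z k i) p0 ((pair_iff hD p0 S T A B z).1 h)
  obtain ⟨F, h2, h3⟩ := h1
  exact ⟨F, h2, fun p hp => (pair_iff hD p S T A B z).2 (h3 p hp)⟩

end Pool.Agent.SV.S
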