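import Pool.Agent.Lib.MP_b54217_ag.S.Horace
import Pool.Agent.Lib.MP_b54217_ag.S.Open
import Pool.Agent.Lib.MP_b54217_ag.S.GenBasic

/-! # PROJECT S: double points, the chain of Horace steps -/

set_option autoImplicit false

namespace Pool.Agent.SV.S

open MvPolynomial Finset

/-- `q` double points anywhere and `e` simple points on the line `x = 0` are independent. -/
def Ch (D : ℕ → ℕ) (q e : ℕ) : Prop :=
  ∃ p : ℕ → Fin 2 → ℂ, (∀ k, q ≤ k → p k 0 = 0) ∧ Itp D p (range (q + e)) (range q)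

theorem ch_zero (D : ℕ → ℕ) : Ch D 0 0 := by
  refine ⟨fun _ _ => 0, fun _ _ => rfl, fun a b c => ⟨0, Submodule.zero_mem _, ?_, ?_⟩⟩
  · intro k hk
    simp at hk
  · intro k hk
    simp at hk

/-- Points with `Itp` are distinct. -/
theorem itp_ne {D : ℕ → ℕ} {p : ℕ → Fin 2 → ℂ} {S B : Finset ℕ} (h : Itp D p S B) {j k : ℕ}
    (hj : j ∈ S) (hk : k ∈ S) (hjk : j ≠ k) : p j ≠ p k := by
  intro h1
  obtain ⟨f, -, h2, -⟩ := h (fun i => if i = j then 1 else 0) (fun _ => 0) (fun _ => 0)
  have h3 := h2 j hj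
  have h4 := h2 k hk
  rw [if_pos rfl] at h3
  rw [if_neg (fun h => hjk h.symm)] at h4
  rw [h1, h4] at h3
  exact zero_ne_one h3

/-- One step.  Proof: `p'` from `h`; by `itp_open` and `OpenAt.line` with `v k = (1, 0)` for `k < q`
and `v k = 0` otherwise choose `ε` such that `Itp (tl D) p'' (range (q+g)) (range q)` for
`p'' = p' + ε v` and `p'' k 0 ≠ 0` for `k < q`.  Keep the points `k < q + g` and put
`e` new points `(0, y_k)` (`q + g ≤ k`) with `y_k` distinct and different from the `y` of the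
`g` old points on the line (`itp_ne`).  Then `horace` with `x0 = 0`, `S = range (q+g+e)`,
`B = range (q+g)`, `L = Ico q (q+g+e)`. -/
theorem ch_step {D : ℕ → ℕ} {c : ℕ} (hD : Antitone D) (hf : ∀ i, c ≤ i → D i = 0) {q g e : ℕ}
    (h : Ch (tl D) q g) (hg : 2 * g + e ≤ D 0) : Ch D (q + g) e := by
  classical
  obtain ⟨p, hp0, hp⟩ := h
  have hf' : ∀ i, c ≤ i → tl D i = 0 := fun i hi => hf (i + 1) (by omega)
  let v : ℕ → Fin 2 → ℂ := fun k i => if k < q ∧ i = 0 then 1 else 0
  have hfin1 := (itp_open hf' hp).line v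
  have hfin2 : (⋃ k ∈ range q, {x : ℂ | p k 0 + x * 1 = 0}).Finite := by
    refine Set.Finite.biUnion (Finset.finite_toSet _) fun k _ => ?_
    refine (Set.finite_singleton (-p k 0)).subset ?_
    intro x hx
    simp only [Set.mem_setOf_eq, mul_one] at hx
    rw [Set.mem_singleton_iff]
    linear_combination hx
  obtain ⟨ε, hε⟩ := (hfin1.union hfin2).infinite_compl.nonempty
  rw [Set.mem_compl_iff, Set.mem_union, not_or] at hε
  obtain ⟨hε1, hε2⟩ := hε
  simp only [Set.mem_setOf_eq, not_not] at hε1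
  set p1 : ℕ → Fin 2 → ℂ := fun k i => p k i + ε * v k i with hp1
  have hp1x : ∀ k < q, p1 k 0 ≠ 0 := by
    intro k hk h0
    apply hε2
    rw [Set.mem_iUnion₂]
    refine ⟨k, mem_range.2 hk, ?_⟩
    rw [Set.mem_setOf_eq, ← h0, hp1]
    simp [v, hk]
  have hp1y : ∀ k, q ≤ k → p1 k 0 = 0 := by
    intro k hk
    rw [hp1]
    have : ¬ k < q := by omega
    simp [v, this, hp0 k hk]
  -- new points on the line
  obtain ⟨y, hyinj, hy⟩ : ∃ y : ℕ → ℂ, Function.Injective y ∧
      ∀ k, ∀ j ∈ range (q + g), y k ≠ p1 j 1 := by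
    have hinf : (Set.univ \ ((fun j => p1 j 1) '' (range (q + g) : Set ℕ)) : Set ℂ).Infinite :=
      Set.infinite_univ.diff ((Finset.finite_toSet _).image _)
    let y := hinf.natEmbedding
    refine ⟨fun k => (y k : ℂ), fun a b hab => y.injective (Subtype.ext hab), ?_⟩
    intro k j hj h1
    exact (y k).2.2 ⟨j, by exact_mod_cast hj, h1.symm⟩
  let P : ℕ → Fin 2 → ℂ := fun k => if k < q + g then p1 k else ![0, y k]
  have hPlt : ∀ k, k < q + g → P k = p1 k := fun k hk => by simp only [P, if_pos hk]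
  have hPge : ∀ k, q + g ≤ k → P k = ![0, y k] := fun k hk => by
    simp only [P, if_neg (not_lt.2 hk)]
  have hP0 : ∀ k, q ≤ k → P k 0 = 0 := by
    intro k hk
    rcases lt_or_ge k (q + g) with h1 | h1
    · rw [hPlt k h1, hp1y k hk]
    · rw [hPge k h1]
      rfl
  refine ⟨P, fun k hk => hP0 k (by omega), ?_⟩
  apply horace hD 0 P (range (q + g + e)) (range (q + g)) (Ico q (q + g + e))
  · exact range_subset_range.2 (by omega)
  · intro k hk
    rw [mem_Ico] at hk
    exact mem_range.2 hk.2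
  · intro k hk
    rw [mem_Ico] at hk
    exact hP0 k hk.1
  · intro k hk
    rw [mem_sdiff, mem_range, mem_Ico] at hk
    have hk' : k < q := by omega
    rw [hPlt k (by omega)]
    exact hp1x k hk'
  · intro j hj k hk hjk
    rw [mem_coe, mem_Ico] at hj hk
    by_contra hne
    simp only at hjk
    rcases lt_or_ge j (q + g) with h1 | h1
    · rcases lt_or_ge k (q + g) with h2 | h2
      · rw [hPlt j h1, hPlt k h2] at hjk
        apply itp_ne hε1 (mem_range.2 h1) (mem_range.2 h2) hne
        funext i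
        fin_cases i
        · exact (hp1y j hj.1).trans (hp1y k hk.1).symm
        · exact hjk
      · rw [hPlt j h1, hPge k h2] at hjk
        exact hy k j (mem_range.2 h1) hjk.symm
    · rcases lt_or_ge k (q + g) with h2 | h2
      · rw [hPge j h1, hPlt k h2] at hjk
        exact hy j k (mem_range.2 h2) hjk
      · rw [hPge j h1, hPge k h2] at hjk
        exact hne (hyinj hjk)
  · have h1 : range (q + g) ∩ Ico q (q + g + e) = Ico q (q + g) := by
      ext k
      simp only [mem_inter, mem_range, mem_Ico]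
      omega
    rw [h1, Nat.card_Ico, Nat.card_Ico]
    omega
  · have h1 : (range (q + g + e) \ Ico q (q + g + e)) ∪ (range (q + g) ∩ Ico q (q + g + e)) =
        range (q + g) := by
      ext k
      simp only [mem_union, mem_sdiff, mem_inter, mem_range, mem_Ico]
      omega
    have h2 : range (q + g) \ Ico q (q + g + e) = range q := by
      ext k
      simp only [mem_sdiff, mem_range, mem_Ico]
      omega
    rw [h1, h2]
    intro a b c
    obtain ⟨f, hf1, hf2, hf3⟩ := hε1 a b c
    refine ⟨f, hf1, fun k hk => ?_, fun k hk => ?_⟩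
    · rw [hPlt k (mem_range.1 hk)]
      exact hf2 k hk
    · rw [hPlt k (by have := mem_range.1 hk; omega)]
      exact hf3 k hk

/-- The chain, by induction on `c` (generalising `D`, `g`, `e`), from `ch_step`. -/
theorem ch_main (c : ℕ) : ∀ (D : ℕ → ℕ) (g : ℕ → ℕ) (e : ℕ), Antitone D → (∀ i, c ≤ i → D i = 0) →
    (∀ i, c ≤ i → g i = 0) → 2 * g 0 + e ≤ D 0 → (∀ i, 2 * g (i + 1) + g i ≤ D (i + 1)) →
    Ch D (∑ i ∈ range c, g i) e := by
  induction c with
  | zero =>
    intro D g e hD hf hg h0 h1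
    have h2 := hf 0 le_rfl
    have h3 : e = 0 := by omega
    subst h3
    simpa using ch_zero D
  | succ c ih =>
    intro D g e hD hf hg h0 h1
    rw [sum_range_succ']
    have hD' : Antitone (tl D) := fun i j hij => hD (Nat.succ_le_succ hij)
    apply ch_step hD hf (g := g 0) _ h0
    apply ih (tl D) (fun i => g (i + 1)) (g 0) hD' (fun i hi => hf (i + 1) (by omega))
      (fun i hi => hg (i + 1) (by omega))
    · exact h1 0
    · intro i
      exact h1 (i + 1)

/-- Weak Alexander-Hirschowitz. -/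
theorem wah_of_sum {c : ℕ} {D g : ℕ → ℕ} (hD : Antitone D) (hf : ∀ i, c ≤ i → D i = 0)
    (hg : ∀ i, c ≤ i → g i = 0) (h0 : 2 * g 0 ≤ D 0)
    (h1 : ∀ i, 2 * g (i + 1) + g i ≤ D (i + 1)) {q : ℕ} (hq : q ≤ ∑ i ∈ range c, g i) :
    WAH D q := by
  obtain ⟨p, -, hp⟩ := ch_main c D g 0 hD hf hg (by omega) h1
  refine ⟨p, fun a b c' => ?_⟩
  obtain ⟨f, hf1, hf2, hf3⟩ := hp a b c'
  refine ⟨f, hf1, fun k hk => hf2 k ?_, fun k hk => hf3 k ?_⟩
  · rw [mem_range] at hk ⊢
    omega
  · rw [mem_range] at hk ⊢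
    omega

end Pool.Agent.SV.S
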