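import Mathlib

/-!
# PROJECT S: a linear factor times a surface.  Definitions

`PP D` = polynomials in `x = X 0`, `y = X 1` with monomials `x^i y^j`, `j < D i` (staircase `D`,
nonincreasing and eventually zero).  `P^2` with `O(d)`: `D i = d + 1 - i`;
`P^1 × P^1` with `O(c, d)`: `D i = d + 1` for `i ≤ c`.
Points are `p k : Fin 2 → ℂ` (`k : ℕ`).
-/

set_option autoImplicit false

namespace Pool.Agent.SV.S

open MvPolynomial

/-- Polynomials with monomials `x^i y^j`, `j < D i`. -/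
noncomputable def PP (D : ℕ → ℕ) : Submodule ℂ (MvPolynomial (Fin 2) ℂ) :=
  Submodule.span ℂ {m | ∃ i j : ℕ, j < D i ∧ m = X 0 ^ i * X 1 ^ j}

/-- The staircase without its first column. -/
def tl (D : ℕ → ℕ) : ℕ → ℕ := fun i => D (i + 1)

/-- The number of monomials in the first `c` columns. -/
def num (D : ℕ → ℕ) (c : ℕ) : ℕ := ∑ i ∈ Finset.range c, D i

/-- Interpolation: values at the points of `S` and gradients at the points of `B` can be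
prescribed. -/
def Itp (D : ℕ → ℕ) (p : ℕ → Fin 2 → ℂ) (S B : Finset ℕ) : Prop :=
  ∀ a b c : ℕ → ℂ, ∃ f ∈ PP D, (∀ k ∈ S, eval (p k) f = a k) ∧
    ∀ k ∈ B, eval (p k) (pderiv 0 f) = b k ∧ eval (p k) (pderiv 1 f) = c k

/-- Interpolation for pairs `(f, g)`: values of `f` on `S`, of `g` on `T`, gradients of `f` on `A`,
of `g` on `B`, and the gradient of `f + g` at `z`. -/
def PairI (D : ℕ → ℕ) (p : ℕ → Fin 2 → ℂ) (S T A B : Finset ℕ) (z : ℕ) : Prop :=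
  ∀ (a a' b b' c c' : ℕ → ℂ) (u v : ℂ), ∃ f ∈ PP D, ∃ g ∈ PP D,
    (∀ k ∈ S, eval (p k) f = a k) ∧ (∀ k ∈ T, eval (p k) g = a' k) ∧
    (∀ k ∈ A, eval (p k) (pderiv 0 f) = b k ∧ eval (p k) (pderiv 1 f) = c k) ∧
    (∀ k ∈ B, eval (p k) (pderiv 0 g) = b' k ∧ eval (p k) (pderiv 1 g) = c' k) ∧
    eval (p z) (pderiv 0 (f + g)) = u ∧ eval (p z) (pderiv 1 (f + g)) = v

/-- `Q` holds for all `p` outside the zero set of a nonzero polynomial. -/
def Gen (Q : (ℕ → Fin 2 → ℂ) → Prop) : Prop :=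
  ∃ F : MvPolynomial (ℕ × Fin 2) ℂ, F ≠ 0 ∧
    ∀ p : ℕ → Fin 2 → ℂ, eval (fun s => p s.1 s.2) F ≠ 0 → Q p

/-- `Q` holds for all `p` outside the zero set of a polynomial which does not vanish at `p0`. -/
def OpenAt (p0 : ℕ → Fin 2 → ℂ) (Q : (ℕ → Fin 2 → ℂ) → Prop) : Prop :=
  ∃ F : MvPolynomial (ℕ × Fin 2) ℂ, eval (fun s => p0 s.1 s.2) F ≠ 0 ∧
    ∀ p : ℕ → Fin 2 → ℂ, eval (fun s => p s.1 s.2) F ≠ 0 → Q p

/-- `q` double points impose independent conditions for some (hence general) position. -/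
def WAH (D : ℕ → ℕ) (q : ℕ) : Prop :=
  ∃ p : ℕ → Fin 2 → ℂ, Itp D p (Finset.range q) (Finset.range q)

/-- Tuples `F ∈ (PP D)^n`: all values at the `r` points and the gradients of `∑ u_{k,l} F_l` at the
`r` points can be prescribed. -/
def SurjN (n : ℕ) (D : ℕ → ℕ) (r : ℕ) (p : ℕ → Fin 2 → ℂ) (u : ℕ → Fin n → ℂ) : Prop :=
  ∀ (a : ℕ → Fin n → ℂ) (b c : ℕ → ℂ), ∃ F : Fin n → MvPolynomial (Fin 2) ℂ,
    (∀ l, F l ∈ PP D) ∧ (∀ k < r, ∀ l, eval (p k) (F l) = a k l) ∧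
    ∀ k < r, ∑ l, u k l * eval (p k) (pderiv 0 (F l)) = b k ∧
      ∑ l, u k l * eval (p k) (pderiv 1 (F l)) = c k

/-- The same linear map is injective. -/
def InjN (n : ℕ) (D : ℕ → ℕ) (r : ℕ) (p : ℕ → Fin 2 → ℂ) (u : ℕ → Fin n → ℂ) : Prop :=
  ∀ F : Fin n → MvPolynomial (Fin 2) ℂ, (∀ l, F l ∈ PP D) →
    (∀ k < r, ∀ l, eval (p k) (F l) = 0) →
    (∀ k < r, ∑ l, u k l * eval (p k) (pderiv 0 (F l)) = 0 ∧
      ∑ l, u k l * eval (p k) (pderiv 1 (F l)) = 0) → ∀ l, F l = 0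

/-- The unbalanced case: for each `k < r` all values and one partial derivative at `p k` can be
prescribed. -/
def UnbI (D : ℕ → ℕ) (r : ℕ) (p : ℕ → Fin 2 → ℂ) : Prop :=
  ∀ k < r, ∃ e : Fin 2, ∀ (a : ℕ → ℂ) (b : ℂ), ∃ f ∈ PP D,
    (∀ j < r, eval (p j) f = a j) ∧ eval (p k) (pderiv e f) = b

/-- What is needed about the staircase `D` with `c` columns. -/
structure Good (D : ℕ → ℕ) (c : ℕ) : Prop where
  anti : Antitone D
  fin : ∀ i, c ≤ i → D i = 0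
  three : 3 ≤ D 0
  wah : ∀ q, 5 * q ≤ num D c + 2 → WAH D q
  wah' : ∀ q, 5 * q + 2 ≤ num D c → WAH (tl D) q
  big : ∀ q, 5 * q + 2 ≤ num D c → 4 * q + D 0 ≤ num D c + 1

/-- The monomials. -/
abbrev J (D : ℕ → ℕ) (c : ℕ) : Type :=
  {x : (_ : ℕ) × ℕ // x ∈ (Finset.range c).sigma fun i => Finset.range (D i)}

/-- Values of the monomials and of their derivatives. -/
noncomputable def mv {D : ℕ → ℕ} {c : ℕ} (p : Fin 2 → ℂ) (x : J D c) : ℂ :=
  p 0 ^ x.1.1 * p 1 ^ x.1.2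

/-- `∂/∂x` of the monomials. -/
noncomputable def mx {D : ℕ → ℕ} {c : ℕ} (p : Fin 2 → ℂ) (x : J D c) : ℂ :=
  (x.1.1 : ℂ) * p 0 ^ (x.1.1 - 1) * p 1 ^ x.1.2

/-- `∂/∂y` of the monomials. -/
noncomputable def my {D : ℕ → ℕ} {c : ℕ} (p : Fin 2 → ℂ) (x : J D c) : ℂ :=
  p 0 ^ x.1.1 * ((x.1.2 : ℂ) * p 1 ^ (x.1.2 - 1))

/-- Residue classes. -/
def cl (n r l : ℕ) : Finset ℕ := (Finset.range r).filter fun k => k % n = l

/-- Coordinate vectors. -/
def eu (n k : ℕ) : Fin n → ℂ := fun l => if k % n = (l : ℕ) then 1 else 0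

/-- The vectors of the window configuration: `e_{k mod n}` for `k < q n`, and
`e_{2t} + e_{2t+1}` for `k = q n + t`, `2 t + 1 < n`, and `e_{2t} + e_0` if `2 t + 1 = n`. -/
def wu (n q k : ℕ) : Fin n → ℂ := fun l =>
  if k < q * n then (if k % n = (l : ℕ) then 1 else 0)
  else if (l : ℕ) = 2 * (k - q * n) ∨
    (l : ℕ) = (if 2 * (k - q * n) + 1 < n then 2 * (k - q * n) + 1 else 0) then 1 else 0

/-- The staircase of `P^2`, `O(d)`. -/
def dP (d : ℕ) : ℕ → ℕ := fun i => d + 1 - i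

/-- The staircase of `P^1 × P^1`, `O(c,d)`. -/
def dB (c d : ℕ) : ℕ → ℕ := fun i => if i ≤ c then d + 1 else 0

end Pool.Agent.SV.S
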