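import Pool.Agent.Lib.MP_b54217_ag.S.PairMain
import Pool.Agent.Lib.MP_b54217_ag.S.AsmA
import Pool.Agent.Lib.MP_b54217_ag.S.AsmC

/-! # PROJECT S: existence of good configurations -/

set_option autoImplicit false

namespace Pool.Agent.SV.S

open MvPolynomial Finset

theorem Gen.of_true {Q : (ℕ → Fin 2 → ℂ) → Prop} (h : ∀ p, Q p) : Gen Q :=
  ⟨1, one_ne_zero, fun p _ => h p⟩

theorem cl_sub {n m r l : ℕ} (h : m ≤ r) : cl n m l ⊆ range r := by
  intro k hk
  rw [mem_range]
  have := (mem_cl.1 hk).1
  omega

theorem cl_disj {n m l l' : ℕ} (h : l ≠ l') : Disjoint (cl n m l) (cl n m l') := by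
  rw [disjoint_left]
  intro k hk hk'
  exact h ((mem_cl.1 hk).2.symm.trans (mem_cl.1 hk').2)

theorem not_mem_cl {n m l z : ℕ} (h : m ≤ z) : z ∉ cl n m l := by
  intro hz
  have := (mem_cl.1 hz).1
  omega

/-- The flat configuration. -/
theorem exists_flat {D : ℕ → ℕ} {c : ℕ} (hG : Good D c) {n r g : ℕ} (hn : 1 ≤ n) (h1 : r ≤ n * g)
    (h2 : r + 2 * g ≤ num D c) (h3 : 5 * g ≤ num D c + 2) : ∃ p u, SurjN n D r p u := by
  have hw := hG.wah g h3
  have hgen : Gen fun p => ∀ l ∈ range n, Itp D p (range r) (cl n r l) := by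
    apply Gen.all
    intro l hl
    have hc := cl_card_le hn h1 (mem_range.1 hl)
    exact gen_itp hG.fin hw _ _ (cl_sub le_rfl) hc (by rw [card_range]; omega)
  obtain ⟨p, hp⟩ := hgen.ex
  exact ⟨p, eu n, surj_flat hn fun l hl => hp l (mem_range.2 hl)⟩

/-- Subabundant `r`.  Proof: `r = q n + s`, `s < n`, `N = num D c`; `n (N - r) ≥ 2 r`.
If `s = 0`: `N ≥ r + 2 q`, groups of size `q` (`gen_itp`, `Gen.all`, `Gen.ex`, `surj_flat`,
`cl_card_le`; `5 q ≤ N` as `r ≥ 3 q`).
If `s > 0` and `N ≥ r + 2 q + 2`: groups of size `≤ q + 1` (`5 (q + 1) ≤ N + 2`).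
If `s > 0` and `N = r + 2 q + 1`: `2 s ≤ n`, `q ≥ 1` (since `r + 2 ≤ N`), `5 q + 2 ≤ N`: `gen_pair`,
`gen_itp`, `surj_window`. -/
theorem exists_surj {D : ℕ → ℕ} {c : ℕ} (hG : Good D c) {n r : ℕ} (hn : 3 ≤ n)
    (h : r * (n + 2) ≤ n * num D c) (hr : r + 2 ≤ num D c) : ∃ p u, SurjN n D r p u := by
  obtain ⟨q, s, hs, rfl⟩ : ∃ q s, s < n ∧ r = q * n + s :=
    ⟨r / n, r % n, Nat.mod_lt _ (by omega), by rw [mul_comm]; exact (Nat.div_add_mod r n).symm⟩
  obtain ⟨δ, hδ⟩ : ∃ δ, num D c = q * n + s + δ := ⟨num D c - (q * n + s), by omega⟩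
  have hq3 : q * 3 ≤ q * n := Nat.mul_le_mul_left q hn
  have key : 2 * (q * n) + 2 * s ≤ n * δ := by
    rw [hδ] at h
    nlinarith
  rcases Nat.eq_zero_or_pos s with h0 | h0
  · subst h0
    have h5 : 2 * q ≤ δ := by
      have : n * (2 * q) ≤ n * δ := by nlinarith
      exact Nat.le_of_mul_le_mul_left this (by omega)
    exact exists_flat hG (g := q) (by omega) (by rw [mul_comm]; omega) (by omega) (by omega)
  · have h5 : 2 * q < δ := by
      have : n * (2 * q) < n * δ := by nlinarith
      exact Nat.lt_of_mul_lt_mul_left this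
    rcases Nat.lt_or_ge (2 * q + 1) δ with h6 | h6
    · refine exists_flat hG (g := q + 1) (by omega) ?_ (by omega) (by omega)
      rw [Nat.mul_add, mul_comm n q]
      omega
    · have h7 : δ = 2 * q + 1 := by omega
      subst h7
      have h8 : 2 * s ≤ n := by nlinarith
      have hq : 1 ≤ q := by omega
      have hN2 : 5 * q + 2 ≤ num D c := by omega
      have hw := hG.wah q (by omega)
      have hg1 : Gen fun p => ∀ t ∈ range s, PairI D p (range (q * n + s)) (range (q * n + s))
          (cl n (q * n) (2 * t)) (cl n (q * n) (2 * t + 1)) (q * n + t) := by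
        apply Gen.all
        intro t ht
        have ht' := mem_range.1 ht
        exact gen_pair hG.anti hG.fin hG.three hq (by omega) (hG.wah' q hN2) (hG.big q hN2) _ _ _
          (cl_sub (by omega)) (cl_sub (by omega)) (cl_card_mul (by omega)) (cl_card_mul (by omega))
          (cl_disj (by omega)) (mem_range.2 (by omega)) (not_mem_cl (by omega))
          (not_mem_cl (by omega))
      have hg2 : Gen fun p => ∀ l ∈ range n, Itp D p (range (q * n + s)) (cl n (q * n) l) := by
        apply Gen.all
        intro l hl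
        have hc := cl_card_mul (q := q) (mem_range.1 hl)
        exact gen_itp hG.fin hw _ _ (cl_sub (by omega)) (by omega)
          (by rw [card_range]; omega)
      obtain ⟨p, hp1, hp2⟩ := (hg1.and hg2).ex
      exact ⟨p, wu n q, surj_window (by omega) h8 (fun t ht => hp1 t (mem_range.2 ht))
        (fun l _ hl => hp2 l (mem_range.2 hl))⟩

/-- Superabundant `r`.  Proof: if `N ≤ r`: values at `N` general points (`gen_itp` with `B = ∅`,
`itp_inj`, `inj_flat`).  Otherwise `n ≤ r < N`, `r = q n + s`, `q ≥ 1`, `n (N - r) ≤ 2 r`.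
If `N ≤ r + 2 q`: with `g = (N - r + 1) / 2 ≤ q` choose in each class `l` (at least `q` elements,
`le_cl_card`) a subset `B` of size `g` and `S = range r` (if `N - r` even) or `range r` without one
point outside `B` (if `N - r` odd), `|S| + 2 g = N`, `5 g ≤ N + 1`: `gen_itp`, `itp_inj`,
`inj_flat`.
Otherwise `N = r + 2 q + 1`, `s > 0`, `n ≤ 2 s`, `5 q + 2 ≤ N`: `gen_pair`, `inj_window`. -/
theorem exists_inj {D : ℕ → ℕ} {c : ℕ} (hG : Good D c) {n r : ℕ} (hn : 3 ≤ n)
    (h : n * num D c ≤ r * (n + 2)) (hr : min n (num D c) ≤ r) : ∃ p u, InjN n D r p u := by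
  classical
  rcases Nat.lt_or_ge r (num D c) with hrN | hrN
  · have hnr : n ≤ r := by
      rcases min_le_iff.1 hr with h1 | h1
      · exact h1
      · omega
    obtain ⟨q, s, hs, rfl⟩ : ∃ q s, s < n ∧ r = q * n + s :=
      ⟨r / n, r % n, Nat.mod_lt _ (by omega), by rw [mul_comm]; exact (Nat.div_add_mod r n).symm⟩
    obtain ⟨δ, hδ⟩ : ∃ δ, num D c = q * n + s + δ := ⟨num D c - (q * n + s), by omega⟩
    have hq3 : q * 3 ≤ q * n := Nat.mul_le_mul_left q hn
    have hq : 1 ≤ q := by
      by_contra h1
      have : q = 0 := by omega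
      subst this
      omega
    have key : n * δ ≤ 2 * (q * n) + 2 * s := by
      rw [hδ] at h
      nlinarith
    rcases Nat.lt_or_ge (2 * q) δ with h5 | h5
    · have h6 : δ < 2 * q + 2 := by
        have : n * δ < n * (2 * q + 2) := by nlinarith
        exact Nat.lt_of_mul_lt_mul_left this
      have h7 : δ = 2 * q + 1 := by omega
      subst h7
      have h8 : n ≤ 2 * s := by nlinarith
      have hN2 : 5 * q + 2 ≤ num D c := by omega
      have hg : Gen fun p => ∀ t ∈ range n, (2 * t + 1 < n →
          PairI D p (range (q * n + s)) (range (q * n + s)) (cl n (q * n) (2 * t))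
            (cl n (q * n) (2 * t + 1)) (q * n + t)) ∧ (2 * t + 1 = n →
          PairI D p (range (q * n + s)) (range (q * n + s)) (cl n (q * n) (2 * t))
            (cl n (q * n) 0) (q * n + t)) := by
        apply Gen.all
        intro t _
        apply Gen.and
        · by_cases h9 : 2 * t + 1 < n
          · refine (gen_pair hG.anti hG.fin hG.three hq (by omega) (hG.wah' q hN2) (hG.big q hN2)
              (cl n (q * n) (2 * t)) (cl n (q * n) (2 * t + 1)) (q * n + t)
              (cl_sub (by omega)) (cl_sub (by omega)) (cl_card_mul (by omega))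
              (cl_card_mul (by omega)) (cl_disj (by omega)) (mem_range.2 (by omega))
              (not_mem_cl (by omega)) (not_mem_cl (by omega))).mono fun p hp _ => hp
          · exact Gen.of_true fun p hp => absurd hp h9
        · by_cases h9 : 2 * t + 1 = n
          · refine (gen_pair hG.anti hG.fin hG.three hq (by omega) (hG.wah' q hN2) (hG.big q hN2)
              (cl n (q * n) (2 * t)) (cl n (q * n) 0) (q * n + t)
              (cl_sub (by omega)) (cl_sub (by omega)) (cl_card_mul (by omega))
              (cl_card_mul (by omega)) (cl_disj (by omega)) (mem_range.2 (by omega))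
              (not_mem_cl (by omega)) (not_mem_cl (by omega))).mono fun p hp _ => hp
          · exact Gen.of_true fun p hp => absurd hp h9
      obtain ⟨p, hp⟩ := hg.ex
      exact ⟨p, wu n q, inj_window (by omega) hG.fin h8 (by omega)
        (fun t ht => (hp t (mem_range.2 (by omega))).1 ht)
        (fun t ht => (hp t (mem_range.2 (by omega))).2 ht)⟩
    · -- groups
      obtain ⟨g, hg⟩ : ∃ g, δ = 2 * g ∨ δ + 1 = 2 * g := by
        rcases Nat.mod_two_eq_zero_or_one δ with h6 | h6
        · exact ⟨δ / 2, Or.inl (by omega)⟩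
        · exact ⟨(δ + 1) / 2, Or.inr (by omega)⟩
      have hgq : g ≤ q := by omega
      have hw := hG.wah g (by omega)
      set r := q * n + s with hrdef
      have hgen : Gen fun p => ∀ l ∈ range n, ∀ f ∈ PP D, (∀ k < r, eval (p k) f = 0) →
          (∀ k ∈ cl n r l, eval (p k) (pderiv 0 f) = 0 ∧ eval (p k) (pderiv 1 f) = 0) →
            f = 0 := by
        apply Gen.all
        intro l hl
        have hc : q ≤ (cl n r l).card := le_cl_card (mem_range.1 hl) (by rw [mul_comm]; omega)
        obtain ⟨B, hB, hBc⟩ := exists_subset_card_eq (hgq.trans hc)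
        have hBr : B ⊆ range r := hB.trans (cl_sub le_rfl)
        rcases hg with hg | hg
        · refine (gen_itp hG.fin hw (range r) B hBr (by omega)
            (by rw [card_range]; omega)).mono fun p hp f hf h0 h1 => ?_
          exact itp_inj hG.fin hp (by rw [card_range]; omega) hf
            (fun k hk => h0 k (mem_range.1 hk)) (fun k hk => h1 k (hB hk))
        · obtain ⟨j, hj, hjB⟩ : ∃ j ∈ range r, j ∉ B := by
            by_contra hcon
            push Not at hcon
            have := card_le_card (show range r ⊆ B from hcon)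
            rw [card_range] at this
            omega
          have hBS : B ⊆ (range r).erase j := by
            intro k hk
            rw [mem_erase]
            exact ⟨fun h => hjB (h ▸ hk), hBr hk⟩
          have hSc : ((range r).erase j).card = r - 1 := by
            rw [card_erase_of_mem hj, card_range]
          refine (gen_itp hG.fin hw ((range r).erase j) B hBS (by omega)
            (by omega)).mono fun p hp f hf h0 h1 => ?_
          exact itp_inj hG.fin hp (by omega) hf
            (fun k hk => h0 k (mem_range.1 (mem_of_mem_erase hk))) (fun k hk => h1 k (hB hk))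
      obtain ⟨p, hp⟩ := hgen.ex
      exact ⟨p, eu n, inj_flat (by omega) fun l hl => hp l (mem_range.2 hl)⟩
  · obtain ⟨p, hp⟩ := (gen_itp hG.fin (hG.wah 0 (by omega)) (range (num D c)) ∅
      (empty_subset _) (by simp) (by simp)).ex
    refine ⟨p, eu n, inj_flat (by omega) fun l _ f hf h0 _ => ?_⟩
    refine itp_inj hG.fin hp (by simp) hf (fun k hk => h0 k ?_) (by simp)
    have := mem_range.1 hk
    omega

/-- The unbalanced case `r = N - 1`.  Proof: general `p` with `Itp D p (range r) ∅` and
`Itp D p (range r \ {k'}) {k}` for all `k ≠ k'` in `range r` (square systems, `r - 1 + 2 = N`).  The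
space of `f ∈ PP D` vanishing at all `r` points is a line `ℂ s`, `s ≠ 0`; if both partial derivatives
of `s` at `p k` were `0` then `s = 0` by `itp_inj`.  (`num D c ≥ 3` by `Good.three`.) -/
theorem exists_unb {D : ℕ → ℕ} {c : ℕ} (hG : Good D c) {r : ℕ} (hr : r + 1 = num D c) :
    ∃ p, UnbI D r p := by
  classical
  have hN3 : 3 ≤ num D c := by
    rcases c with _ | c
    · have := hG.fin 0 le_rfl
      have := hG.three
      omega
    · rw [num_tl]
      have := hG.three
      omega
  have g1 := gen_itp hG.fin (hG.wah 0 (by omega)) (range r) ∅ (empty_subset _) (by simp)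
    (by rw [card_range]; simp; omega)
  have g2 : Gen fun p => ∀ k ∈ range r, ∀ k' ∈ (range r).erase k,
      Itp D p ((range r).erase k') {k} := by
    apply Gen.all
    intro k hk
    apply Gen.all
    intro k' hk'
    rw [mem_erase] at hk'
    refine gen_itp hG.fin (hG.wah 1 (by omega)) _ _ ?_ (by simp) ?_
    · rw [singleton_subset_iff, mem_erase]
      exact ⟨fun h => hk'.1 h.symm, hk⟩
    · rw [card_erase_of_mem hk'.2, card_range, card_singleton]
      omega
  obtain ⟨p, hp1, hp2⟩ := (g1.and g2).ex
  refine ⟨p, fun k hk => ?_⟩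
  obtain ⟨f, hf, hf0, hfv, -⟩ := exists_ker hG.fin p (range r) ∅ (by rw [card_range]; simp; omega)
  obtain ⟨k', hk', hkk'⟩ : ∃ k' < r, k' ≠ k := by
    rcases Nat.eq_zero_or_pos k with h0 | h0
    · exact ⟨1, by omega, by omega⟩
    · exact ⟨0, by omega, by omega⟩
  have hsq := hp2 k (mem_range.2 hk) k' (mem_erase.2 ⟨hkk', mem_range.2 hk'⟩)
  obtain ⟨e, he⟩ : ∃ e : Fin 2, eval (p k) (pderiv e f) ≠ 0 := by
    by_contra hcon
    push Not at hcon
    apply hf0
    refine itp_inj hG.fin hsq ?_ hf (fun j hj => hfv j (mem_of_mem_erase hj)) ?_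
    · rw [card_erase_of_mem (mem_range.2 hk'), card_range, card_singleton]
      omega
    · intro j hj
      rw [mem_singleton] at hj
      subst hj
      exact ⟨hcon 0, hcon 1⟩
  refine ⟨e, fun a b => ?_⟩
  obtain ⟨g, hg, hgv, -⟩ := hp1 a 0 0
  refine ⟨g + C ((b - eval (p k) (pderiv e g)) / eval (p k) (pderiv e f)) * f, ?_, ?_, ?_⟩
  · refine Submodule.add_mem _ hg ?_
    rw [← smul_eq_C_mul]
    exact Submodule.smul_mem _ _ hf
  · intro j hj
    rw [map_add, map_mul, hfv j (mem_range.2 hj), mul_zero, add_zero]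
    exact hgv j (mem_range.2 hj)
  · rw [map_add, Derivation.leibniz, pderiv_C, smul_zero, add_zero, smul_eq_mul, map_add,
      map_mul, eval_C, div_mul_cancel₀ _ he]
    ring

end Pool.Agent.SV.S
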