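import Pool.Agent.Lib.MP_b54217_ag.S.Exist

/-! # PROJECT S: the dimension from the bounds -/

set_option autoImplicit false

namespace Pool.Agent.SV.S

/-- Proof: `N = num D c ≥ 3`.  If `r + 1 = N ≤ n`: `exists_unb`, `hunb`, `h3`.  Otherwise, if
`r (n + 2) ≤ n N`: then `r + 2 ≤ N` (if `r ≥ N - 1`, then `(N - 1) (n + 2) ≤ n N` gives
`2 N ≤ n + 2`, so `N ≤ n`, hence `r ≥ N`, and `N (n + 2) ≤ n N` is impossible), so
`exists_surj` and `h1`.  If `n N ≤ r (n + 2)`: `min n N ≤ r`: if `r < N`, then either `r + 1 = N`,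
so `n < N`, `n ≤ r`; or `r + 2 ≤ N` and `n N ≤ r (n + 2) ≤ (N - 2) (n + 2)` gives `n + 2 ≤ N`,
and `r < n` would give `n N ≤ (n - 1) (n + 2) < n (n + 2)`.  So `exists_inj` and `h2`. -/
theorem final_arith {D : ℕ → ℕ} {c : ℕ} (hG : Good D c) {n r : ℕ} (hn : 3 ≤ n)
    (x : WithBot ℕ∞)
    (hsurj : ∀ p u, SurjN n D r p u → ((r * (n + 2) : ℕ) : WithBot ℕ∞) ≤ x)
    (hinj : ∀ p u, InjN n D r p u → ((n * num D c : ℕ) : WithBot ℕ∞) ≤ x)
    (hunb : ∀ p, r ≤ n → UnbI D r p → ((r * (n + 1) : ℕ) : WithBot ℕ∞) ≤ x)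
    (h1 : x ≤ ((r * (n + 2) : ℕ) : WithBot ℕ∞))
    (h2 : x ≤ ((n * num D c : ℕ) : WithBot ℕ∞))
    (h3 : r + 1 = num D c → x ≤ ((r * (n + 1) : ℕ) : WithBot ℕ∞)) :
    x = ((if r + 1 = num D c ∧ num D c ≤ n then r * (n + 1)
      else min (r * (n + 2)) (n * num D c) : ℕ) : WithBot ℕ∞) := by
  have hN3 : 3 ≤ num D c := by
    rcases c with _ | c
    · have := hG.fin 0 le_rfl
      have := hG.three
      omega
    · rw [num_tl]
      have := hG.three
      omega
  by_cases hU : r + 1 = num D c ∧ num D c ≤ n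
  · rw [if_pos hU]
    obtain ⟨p, hp⟩ := exists_unb hG hU.1
    exact le_antisymm (h3 hU.1) (hunb p (by omega) hp)
  · rw [if_neg hU]
    generalize hNdef : num D c = N at *
    rcases le_total (r * (n + 2)) (n * N) with h | h
    · rw [min_eq_left h]
      have hr : r + 2 ≤ N := by
        by_contra hlt
        have h5 : N ≤ r + 1 := by omega
        rcases Nat.lt_or_ge r N with h6 | h6
        · have h7 : N = r + 1 := by omega
          subst h7
          have h8 : ¬ (r + 1 ≤ n) := fun h => hU ⟨rfl, h⟩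
          nlinarith
        · nlinarith
      obtain ⟨p, u, hp⟩ := exists_surj hG hn (by rw [hNdef]; exact h) (by rw [hNdef]; exact hr)
      exact le_antisymm h1 (hsurj p u hp)
    · rw [min_eq_right h]
      have hr : min n N ≤ r := by
        by_contra hlt
        rw [not_le, lt_min_iff] at hlt
        obtain ⟨h4, h5⟩ := hlt
        rcases Nat.lt_or_ge (r + 1) N with h6 | h6
        · nlinarith
        · have h7 : N = r + 1 := by omega
          apply hU
          exact ⟨h7.symm, by omega⟩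
      obtain ⟨p, u, hp⟩ := exists_inj hG hn (by rw [hNdef]; exact h) (by rw [hNdef]; exact hr)
      exact le_antisymm h2 (hinj p u hp)

/-- `r (n + 1) < min (r (n + 2)) (n N)` for `1 ≤ r`, `r + 1 = N ≤ n`. -/
theorem defect_arith {n r N : ℕ} (hr : 1 ≤ r) :
    (if r + 1 = N ∧ N ≤ n then r * (n + 1) else min (r * (n + 2)) (n * N)) <
      min (r * (n + 2)) (n * N) ↔ r + 1 = N ∧ N ≤ n := by
  by_cases hU : r + 1 = N ∧ N ≤ n
  · rw [if_pos hU]
    constructor
    · intro _
      exact hU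
    · intro _
      obtain ⟨h1, h2⟩ := hU
      subst h1
      rw [lt_min_iff]
      constructor <;> nlinarith
  · rw [if_neg hU]
    constructor
    · intro h
      exact absurd h (lt_irrefl _)
    · intro h
      exact absurd h hU

end Pool.Agent.SV.S
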