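import Pool.Agent.Lib.MP_b54217_ag.S.Chain

/-! # PROJECT S: the staircase of `P^1 × P^1` -/

set_option autoImplicit false

namespace Pool.Agent.SV.S

open Finset

theorem num_dB (c d : ℕ) : num (dB c d) (c + 1) = (c + 1) * (d + 1) := by
  rw [num, Finset.sum_congr rfl (g := fun _ => d + 1)]
  · simp
  · intro i hi
    rw [mem_range] at hi
    simp only [dB]
    rw [if_pos (by omega)]

/-- `q` double points on the box with `m` columns of height `h`: `wah_of_sum` with
`g 0 = (h + 1) / 3`, `g i = h / 3` for `1 ≤ i < m - 1`, `g i = 0` for `i ≥ m - 1`. -/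
theorem wah_box {m h : ℕ} (hm : 2 ≤ m) (hh : 3 ≤ h) {q : ℕ}
    (hq : q ≤ (h + 1) / 3 + (m - 2) * (h / 3)) :
    WAH (fun i => if i < m then h else 0) q := by
  obtain ⟨m, rfl⟩ : ∃ m', m = m' + 2 := ⟨m - 2, by omega⟩
  let g : ℕ → ℕ := fun i => if i = 0 then (h + 1) / 3 else if i < m + 1 then h / 3 else 0
  have hsum : ∑ i ∈ range (m + 2), g i = (h + 1) / 3 + m * (h / 3) := by
    rw [sum_range_succ, sum_range_succ']
    have e1 : g (m + 1) = 0 := by
      simp only [g]
      rw [if_neg (by omega), if_neg (by omega)]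
    have e2 : g 0 = (h + 1) / 3 := by
      simp only [g, if_true]
    have e3 : ∑ k ∈ range m, g (k + 1) = m * (h / 3) := by
      rw [Finset.sum_congr rfl (g := fun _ => h / 3)]
      · simp
      · intro i hi
        rw [mem_range] at hi
        simp only [g]
        rw [if_neg (by omega), if_pos (by omega)]
    rw [e1, e2, e3]
    omega
  have hq' : q ≤ ∑ i ∈ range (m + 2), g i := by
    rw [hsum]
    have : m + 2 - 2 = m := by omega
    rw [this] at hq
    exact hq
  refine wah_of_sum (c := m + 2) (g := g) ?_ ?_ ?_ ?_ ?_ hq'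
  · intro i j hij
    simp only
    split_ifs <;> omega
  · intro i hi
    rw [if_neg (by omega)]
  · intro i hi
    simp only [g]
    rw [if_neg (by omega), if_neg (by omega)]
  · simp only [g]
    simp
    omega
  · intro i
    simp only [g]
    rcases Nat.eq_zero_or_pos i with h0 | h0
    · subst h0
      by_cases h1 : 0 < m
      · simp [h1]
        omega
      · simp [h1]
        omega
    · rw [if_neg (by omega : ¬ i + 1 = 0), if_neg (by omega : ¬ i = 0)]
      split_ifs <;> omega

/-- The arithmetic for `wah`. -/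
theorem box_arith {m h q : ℕ} (hh : 3 ≤ h) (hm : h ≤ m) (hq : 5 * q ≤ m * h + 2) :
    q ≤ (h + 1) / 3 + (m - 2) * (h / 3) := by
  obtain ⟨t, u, hu, rfl⟩ : ∃ t u, u < 3 ∧ h = 3 * t + u := ⟨h / 3, h % 3, by omega, by omega⟩
  obtain ⟨m, rfl⟩ : ∃ m', m = m' + 2 := ⟨m - 2, by omega⟩
  have e2 : m + 2 - 2 = m := by omega
  rw [e2]
  have ht : 1 ≤ t := by omega
  interval_cases u
  · have e3 : (3 * t + 0 + 1) / 3 = t := by omega
    have e4 : (3 * t + 0) / 3 = t := by omega
    rw [e3, e4]
    by_contra hlt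
    have : t + m * t + 1 ≤ q := by omega
    nlinarith [Nat.mul_le_mul_right t (show 1 ≤ m by omega)]
  · have e3 : (3 * t + 1 + 1) / 3 = t := by omega
    have e4 : (3 * t + 1) / 3 = t := by omega
    rw [e3, e4]
    by_contra hlt
    have h1 : t + m * t + 1 ≤ q := by omega
    nlinarith
  · have e3 : (3 * t + 2 + 1) / 3 = t + 1 := by omega
    have e4 : (3 * t + 2) / 3 = t := by omega
    rw [e3, e4]
    by_contra hlt
    have h1 : t + 1 + m * t + 1 ≤ q := by omega
    nlinarith

/-- The arithmetic for `wah'`. -/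
theorem box_arith' {m h q : ℕ} (hh : 3 ≤ h) (hm2 : 2 ≤ m) (hm : h ≤ m + 1)
    (hq : 5 * q + 2 ≤ (m + 1) * h) : q ≤ (h + 1) / 3 + (m - 2) * (h / 3) := by
  obtain ⟨t, u, hu, rfl⟩ : ∃ t u, u < 3 ∧ h = 3 * t + u := ⟨h / 3, h % 3, by omega, by omega⟩
  obtain ⟨m, rfl⟩ : ∃ m', m = m' + 2 := ⟨m - 2, by omega⟩
  have e2 : m + 2 - 2 = m := by omega
  rw [e2]
  have ht : 1 ≤ t := by omega
  interval_cases u
  · have e3 : (3 * t + 0 + 1) / 3 = t := by omega
    have e4 : (3 * t + 0) / 3 = t := by omega
    rw [e3, e4]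
    by_contra hlt
    have : t + m * t + 1 ≤ q := by omega
    nlinarith
  · have e3 : (3 * t + 1 + 1) / 3 = t := by omega
    have e4 : (3 * t + 1) / 3 = t := by omega
    rw [e3, e4]
    by_contra hlt
    have h1 : t + m * t + 1 ≤ q := by omega
    nlinarith
  · have e3 : (3 * t + 2 + 1) / 3 = t + 1 := by omega
    have e4 : (3 * t + 2) / 3 = t := by omega
    rw [e3, e4]
    by_contra hlt
    have h1 : t + 1 + m * t + 1 ≤ q := by omega
    nlinarith

theorem dB_eq (c d : ℕ) : dB c d = fun i => if i < c + 1 then d + 1 else 0 := by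
  funext i
  simp only [dB, Nat.lt_succ_iff]

theorem tl_dB (c d : ℕ) : tl (dB c d) = fun i => if i < c then d + 1 else 0 := by
  funext i
  simp only [tl, dB, Nat.succ_le_iff]

/-- `Good (dB c d) (c + 1)` for `c ≥ d ≥ 2`. -/
theorem good_dB {c d : ℕ} (hd : 2 ≤ d) (hc : d ≤ c) : Good (dB c d) (c + 1) where
  anti := by
    intro i j hij
    simp only [dB]
    split_ifs <;> omega
  fin := by
    intro i hi
    simp only [dB]
    rw [if_neg (by omega)]
  three := by
    simp only [dB]
    rw [if_pos (by omega)]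
    omega
  wah := by
    intro q hq
    rw [num_dB] at hq
    rw [dB_eq]
    apply wah_box (by omega) (by omega)
    exact box_arith (by omega) (by omega) hq
  wah' := by
    intro q hq
    rw [num_dB] at hq
    rw [tl_dB]
    apply wah_box (by omega) (by omega)
    exact box_arith' (by omega) (by omega) (by omega) hq
  big := by
    intro q hq
    rw [num_dB] at hq ⊢
    have e : dB c d 0 = d + 1 := by
      simp [dB]
    rw [e]
    have h1 : (d + 1) * (d + 1) ≤ (c + 1) * (d + 1) := Nat.mul_le_mul_right _ (by omega)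
    have h2 : 5 * (d + 1) ≤ (d + 1) * (d + 1) + 13 := by
      zify
      nlinarith [sq_nonneg ((d : ℤ) - 1), sq_nonneg ((d : ℤ) - 2)]
    omega

end Pool.Agent.SV.S
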