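import Pool.Agent.Lib.MP_b54217_ag.S.Base

/-! # PROJECT S: a nonzero maximal minor -/

set_option autoImplicit false

namespace Pool.Agent.SV.S

open MvPolynomial

/-- `r = N - 1` points with independent values: the `r × N` matrix of the values of the monomials
has rank `r`, so some column `x0` can be left out. -/
theorem exists_minor {D : ℕ → ℕ} {c r : ℕ} (hD : ∀ i, c ≤ i → D i = 0) (hr : r + 1 = num D c)
    {p : ℕ → Fin 2 → ℂ} (h : Itp D p (Finset.range r) ∅) :
    ∃ (x0 : J D c) (e : Fin r ≃ {x : J D c // x ≠ x0}),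
      (Matrix.of fun s s' : Fin r => mv (p s) (e s').1).det ≠ 0 := by
  classical
  let M : Matrix (Fin r) (J D c) ℂ := Matrix.of fun s x => mv (p s) x
  have hsurj : Function.Surjective M.mulVec := by
    intro b
    obtain ⟨f, hf, h1, -⟩ := h (fun k => if hk : k < r then b ⟨k, hk⟩ else 0) 0 0
    obtain ⟨a, rfl⟩ := eq_sum_of_mem_PP hD hf
    refine ⟨a, ?_⟩
    funext s
    have h2 := h1 s (Finset.mem_range.2 s.2)
    rw [(eval_sum a (p s)).1, dif_pos s.2] at h2
    rw [Matrix.mulVec, dotProduct, ← h2]
    refine Finset.sum_congr rfl fun x _ => ?_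
    rw [mul_comm]
    rfl
  have hrank : M.rank = r := by
    have h3 : LinearMap.range M.mulVecLin = ⊤ := LinearMap.range_eq_top.2 hsurj
    rw [Matrix.rank, h3, finrank_top, Module.finrank_fintype_fun_eq_card, Fintype.card_fin]
  rw [Matrix.rank_eq_finrank_span_cols] at hrank
  obtain ⟨v, hv1, -, hv3⟩ := Submodule.exists_fun_fin_finrank_span_eq ℂ (Set.range M.col)
  choose j0 hj0 using hv1
  let j : Fin r → J D c := fun s => j0 (Fin.cast hrank.symm s)
  have hj : LinearIndependent ℂ fun s => M.col (j s) := by
    have h4 := hv3.comp (Fin.cast hrank.symm) (Fin.cast_injective _)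
    have h5 : (v ∘ Fin.cast hrank.symm) = fun s => M.col (j s) := by
      funext s
      exact (hj0 _).symm
    rwa [h5] at h4
  have hjinj : Function.Injective j := by
    intro s s' hss
    exact hj.injective (congrArg M.col hss)
  have hcard : (Finset.univ.image j).card = r := by
    rw [Finset.card_image_of_injective _ hjinj, Finset.card_univ, Fintype.card_fin]
  obtain ⟨x0, hx0⟩ : ∃ x0, x0 ∉ Finset.univ.image j := by
    by_contra hcon
    push Not at hcon
    have h6 : (Finset.univ : Finset (J D c)) ⊆ Finset.univ.image j := fun x _ => hcon x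
    have h7 := Finset.card_le_card h6
    rw [Finset.card_univ, card_J, hcard] at h7
    omega
  have hne : ∀ s, j s ≠ x0 := fun s hs => hx0 (Finset.mem_image.2 ⟨s, Finset.mem_univ _, hs⟩)
  have hbij : Function.Bijective fun s : Fin r => (⟨j s, hne s⟩ : {x : J D c // x ≠ x0}) := by
    rw [Fintype.bijective_iff_injective_and_card]
    refine ⟨fun s s' hss => hjinj (congrArg Subtype.val hss), ?_⟩
    rw [Fintype.card_fin, Fintype.card_subtype_compl, Fintype.card_subtype_eq, card_J]
    omega
  refine ⟨x0, Equiv.ofBijective _ hbij, ?_⟩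
  have hunit : IsUnit (Matrix.of fun s s' : Fin r => mv (p s) (j s')) := by
    rw [← Matrix.linearIndependent_cols_iff_isUnit]
    exact hj
  rw [Matrix.isUnit_iff_isUnit_det] at hunit
  exact hunit.ne_zero

end Pool.Agent.SV.S
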