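import Pool.Agent.Lib.MP_b54217_ag.S.Base
import Pool.Agent.Lib.MP_b54217_ag.AlgB

/-! # PROJECT S: upper bounds

All three from `krull_le` (in `AlgB`). -/

set_option autoImplicit false

namespace Pool.Agent.SV.S

open MvPolynomial

/-- The number of coordinates (see `upp_amb` in `Upp.lean`). -/
theorem up_amb {σ : Type} {n c : ℕ} {D : ℕ → ℕ} (f : Fin n × J D c → MvPolynomial σ ℂ) :
    ringKrullDim (Algebra.adjoin ℂ (Set.range f)) ≤ ((n * num D c : ℕ) : WithBot ℕ∞) := by
  have h := krull_le f (Algebra.ofId (MvPolynomial σ ℂ)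
    (FractionRing (MvPolynomial σ ℂ)) |>.restrictScalars ℂ)
    (IsFractionRing.injective _ _)
    (fun x => algebraMap (MvPolynomial σ ℂ) (FractionRing (MvPolynomial σ ℂ)) (f x))
    (fun x => IntermediateField.subset_adjoin ℂ _ ⟨x, rfl⟩)
  refine h.trans (le_of_eq ?_)
  rw [Fintype.card_prod, Fintype.card_fin, card_J]

/-- The number of parameters: the field generated by the `U s l` (`r n` elements) and `a s`, `b s`
(`2 r` elements) contains all coordinates (see `upp_par` in `Upp.lean`). -/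
theorem up_par {σ L : Type} [Field L] [Algebra ℂ L] {n c r : ℕ} {D : ℕ → ℕ}
    (f : Fin n × J D c → MvPolynomial σ ℂ) (φ : MvPolynomial σ ℂ →ₐ[ℂ] L)
    (hφ : Function.Injective φ) (U : Fin r → Fin n → L) (a b : Fin r → L)
    (h : ∀ x, φ (f x) = ∑ s, U s x.1 * (a s ^ x.2.1.1 * b s ^ x.2.1.2)) :
    ringKrullDim (Algebra.adjoin ℂ (Set.range f)) ≤ ((r * (n + 2) : ℕ) : WithBot ℕ∞) := by
  let g : Fin r × (Fin n ⊕ Bool) → L := fun y => match y.2 with
    | Sum.inl l => U y.1 l
    | Sum.inr true => a y.1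
    | Sum.inr false => b y.1
  have hg : ∀ y, g y ∈ IntermediateField.adjoin ℂ (Set.range g) := fun y =>
    IntermediateField.subset_adjoin ℂ _ ⟨y, rfl⟩
  have h1 := krull_le f φ hφ g ?_
  · refine h1.trans (le_of_eq ?_)
    congr 2
    simp
  · intro x
    rw [h]
    refine sum_mem fun s _ => mul_mem (hg (s, Sum.inl x.1)) (mul_mem (pow_mem ?_ _) (pow_mem ?_ _))
    · exact hg (s, Sum.inr true)
    · exact hg (s, Sum.inr false)

/-- The rank bound: `r + 1 = N`; the `n r` coordinates `φ (f (l, e s'))` and the `r` coefficients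
`c = A⁻¹ M(·, x0)`, `A s s' = M s (e s')`, generate a field containing all coordinates. -/
theorem up_unb {σ L : Type} [Field L] [Algebra ℂ L] {n c r : ℕ} {D : ℕ → ℕ}
    (f : Fin n × J D c → MvPolynomial σ ℂ) (φ : MvPolynomial σ ℂ →ₐ[ℂ] L)
    (hφ : Function.Injective φ) (U : Fin r → Fin n → L) (M : Fin r → J D c → L)
    (h : ∀ x, φ (f x) = ∑ s, U s x.1 * M s x.2) (x0 : J D c) (e : Fin r ≃ {x : J D c // x ≠ x0})
    (hdet : (Matrix.of fun s s' : Fin r => M s (e s').1).det ≠ 0) :
    ringKrullDim (Algebra.adjoin ℂ (Set.range f)) ≤ ((r * (n + 1) : ℕ) : WithBot ℕ∞) := by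
  classical
  set A : Matrix (Fin r) (Fin r) L := Matrix.of fun s s' : Fin r => M s (e s').1 with hA
  let w : Fin r → L := A⁻¹.mulVec fun s => M s x0
  have hw : ∀ s, M s x0 = ∑ s', M s (e s').1 * w s' := by
    intro s
    have h1 : A.mulVec w = fun s => M s x0 := by
      rw [Matrix.mulVec_mulVec, Matrix.mul_nonsing_inv _ (isUnit_iff_ne_zero.2 hdet),
        Matrix.one_mulVec]
    exact (congrFun h1 s).symm
  let g : Fin r × (Fin n ⊕ Unit) → L := fun y => match y.2 with
    | Sum.inl l => φ (f (l, (e y.1).1))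
    | Sum.inr _ => w y.1
  have hg : ∀ y, g y ∈ IntermediateField.adjoin ℂ (Set.range g) := fun y =>
    IntermediateField.subset_adjoin ℂ _ ⟨y, rfl⟩
  have h1 := krull_le f φ hφ g ?_
  · refine h1.trans (le_of_eq ?_)
    congr 2
    simp
  · rintro ⟨l, x⟩
    by_cases hx : x = x0
    · subst hx
      have h2 : φ (f (l, x)) = ∑ s', φ (f (l, (e s').1)) * w s' := by
        rw [h]
        simp only [h, Finset.sum_mul]
        rw [Finset.sum_comm]
        refine Finset.sum_congr rfl fun s _ => ?_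
        rw [hw s, Finset.mul_sum]
        refine Finset.sum_congr rfl fun s' _ => ?_
        ring
      rw [h2]
      exact sum_mem fun s' _ => mul_mem (hg (s', Sum.inl l)) (hg (s', Sum.inr ()))
    · have h3 := hg (e.symm ⟨x, hx⟩, Sum.inl l)
      simp only [g, Equiv.apply_symm_apply] at h3
      exact h3

end Pool.Agent.SV.S
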