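import Pool.Agent.Lib.MP_b54217_ag.S.LowB
import Pool.Agent.Lib.MP_b54217_ag.S.Up
import Pool.Agent.Lib.MP_b54217_ag.S.Minor

/-! # PROJECT S: upper bounds for `P^(n-1) × P^1 × P^1` -/

set_option autoImplicit false

namespace Pool.Agent.SV.S

open MvPolynomial

theorem hom_algB {K : Type} [Field K] (U v0 v1 w0 w1 : K) (h : v0 ≠ 0) (h' : w0 ≠ 0)
    (m i m' j : ℕ) : U * ((v0 ^ m * v1 ^ i) * (w0 ^ m' * w1 ^ j)) =
      U * ((v0 ^ m * v0 ^ i) * (w0 ^ m' * w0 ^ j)) * ((v1 / v0) ^ i * (w1 / w0) ^ j) := by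
  rw [div_pow, div_pow]
  field_simp

/-- `up_par` with `L` the fraction field, `U s l = X(s,l) V0^c W0^d`, `a s = V1/V0`,
`b s = W1/W0`. -/
theorem upB (n c d r : ℕ) : ringKrullDim (Algebra.adjoin ℂ (Set.range (gB n c d r))) ≤
    ((r * (n + 2) : ℕ) : WithBot ℕ∞) := by
  let R := MvPolynomial (ParB n r) ℂ
  let L := FractionRing R
  let φ : R →ₐ[ℂ] L := (Algebra.ofId R L).restrictScalars ℂ
  have hφ : Function.Injective φ := IsFractionRing.injective R L
  have hX : ∀ σ : ParB n r, φ (X σ) ≠ 0 := by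
    intro σ h
    rw [← map_zero φ] at h
    exact X_ne_zero σ (hφ h)
  refine up_par (gB n c d r) φ hφ (fun s l => φ (X (s, Sum.inl l)) *
      (φ (X (s, Sum.inr (Sum.inl 0))) ^ c * φ (X (s, Sum.inr (Sum.inr 0))) ^ d))
    (fun s => φ (X (s, Sum.inr (Sum.inl 1))) / φ (X (s, Sum.inr (Sum.inl 0))))
    (fun s => φ (X (s, Sum.inr (Sum.inr 1))) / φ (X (s, Sum.inr (Sum.inr 0)))) ?_
  intro x
  rw [gB, map_sum]
  refine Finset.sum_congr rfl fun s _ => ?_
  obtain ⟨hx1, hx2⟩ := JB_spec x.2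
  obtain ⟨m, hm⟩ : ∃ m, c = m + x.2.1.1 := ⟨c - x.2.1.1, by omega⟩
  obtain ⟨m', hm'⟩ : ∃ m, d = m + x.2.1.2 := ⟨d - x.2.1.2, by omega⟩
  have e1 : c - x.2.1.1 = m := by omega
  have e1' : d - x.2.1.2 = m' := by omega
  have h0 := hX (s, Sum.inr (Sum.inl 0))
  have h0' := hX (s, Sum.inr (Sum.inr 0))
  rw [e1, e1', map_mul, map_mul, map_mul, map_mul, map_pow, map_pow, map_pow, map_pow]
  have e2 : φ (X (s, Sum.inr (Sum.inl 0))) ^ c = φ (X (s, Sum.inr (Sum.inl 0))) ^ m *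
      φ (X (s, Sum.inr (Sum.inl 0))) ^ x.2.1.1 := by
    rw [← pow_add, ← hm]
  have e2' : φ (X (s, Sum.inr (Sum.inr 0))) ^ d = φ (X (s, Sum.inr (Sum.inr 0))) ^ m' *
      φ (X (s, Sum.inr (Sum.inr 0))) ^ x.2.1.2 := by
    rw [← pow_add, ← hm']
  rw [e2, e2']
  exact hom_algB _ _ _ _ _ h0 h0' m _ m' _

/-- `up_unb` with `exists_minor`; the determinant over the fraction field is nonzero because it
specialises to the nonzero minor. -/
theorem upB_unb (n c d r : ℕ) (hr : r + 1 = num (dB c d) (c + 1)) {p : ℕ → Fin 2 → ℂ}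
    (h : Itp (dB c d) p (Finset.range r) ∅) :
    ringKrullDim (Algebra.adjoin ℂ (Set.range (gB n c d r))) ≤
      ((r * (n + 1) : ℕ) : WithBot ℕ∞) := by
  classical
  let R := MvPolynomial (ParB n r) ℂ
  let L := FractionRing R
  let φ : R →ₐ[ℂ] L := (Algebra.ofId R L).restrictScalars ℂ
  have hφ : Function.Injective φ := IsFractionRing.injective R L
  obtain ⟨x0, e, hdet⟩ := exists_minor (dB_fin c d) hr h
  let m : Fin r → J (dB c d) (c + 1) → R := fun s x =>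
    (X (s, Sum.inr (Sum.inl 0)) ^ (c - x.1.1) * X (s, Sum.inr (Sum.inl 1)) ^ x.1.1) *
     (X (s, Sum.inr (Sum.inr 0)) ^ (d - x.1.2) * X (s, Sum.inr (Sum.inr 1)) ^ x.1.2)
  refine up_unb (gB n c d r) φ hφ (fun s l => φ (X (s, Sum.inl l))) (fun s x => φ (m s x)) ?_
    x0 e ?_
  · intro x
    rw [gB, map_sum]
    refine Finset.sum_congr rfl fun s _ => ?_
    rw [map_mul]
  · let A : Matrix (Fin r) (Fin r) R := Matrix.of fun s s' => m s (e s').1
    have h1 : (Matrix.of fun s s' : Fin r => φ (m s (e s').1)) = φ.mapMatrix A := rfl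
    rw [h1, ← AlgHom.map_det]
    intro h2
    rw [← map_zero φ] at h2
    have h3 : A.det = 0 := hφ h2
    apply hdet
    have h4 : eval (tB n r p fun _ _ => 0) A.det = 0 := by rw [h3, map_zero]
    rw [RingHom.map_det] at h4
    refine Eq.trans ?_ h4
    congr 1
    ext s s'
    rw [RingHom.mapMatrix_apply, Matrix.map_apply]
    simp only [A, m, Matrix.of_apply, map_mul, map_pow, eval_X, tB_0, tB_1, tB_2, tB_3, one_pow,
      one_mul, mv]

end Pool.Agent.SV.S
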