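import Pool.Agent.Lib.MP_b54217_ag.S.FinalA
import Pool.Agent.Lib.MP_b54217_ag.S.GoodB
import Pool.Agent.Lib.MP_b54217_ag.S.UpB

/-! # PROJECT S: `P^(n-1) × P^1 × P^1`, `O(1,c,d)` -/

set_option autoImplicit false

namespace Pool.Agent.SV.S

open MvPolynomial

/-- Exchanging the two `P^1`: renaming the variables carries the coordinates `gB n c d r` to the
coordinates `gB n d c r`. -/
theorem secDim_swap (n c d r : ℕ) :
    secDim ![n, 2, 2] ![1, c, d] r = secDim ![n, 2, 2] ![1, d, c] r := by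
  rw [secDim_B, secDim_B]
  let σ : ParB n r ≃ ParB n r :=
    (Equiv.refl _).prodCongr ((Equiv.refl _).sumCongr (Equiv.sumComm _ _))
  let Φ : MvPolynomial (ParB n r) ℂ ≃ₐ[ℂ] MvPolynomial (ParB n r) ℂ := renameEquiv ℂ σ
  have hrange : Φ '' Set.range (gB n c d r) = Set.range (gB n d c r) := by
    have key : ∀ (c d : ℕ) (x : Fin n × J (dB c d) (c + 1)),
        ∃ y : Fin n × J (dB d c) (d + 1), gB n d c r y = Φ (gB n c d r x) := by
      intro c d x
      obtain ⟨hx1, hx2⟩ := JB_spec x.2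
      refine ⟨(x.1, ⟨⟨x.2.1.2, x.2.1.1⟩, ?_⟩), ?_⟩
      · rw [Finset.mem_sigma, Finset.mem_range, Finset.mem_range, dB]
        simp only
        rw [if_pos hx2]
        omega
      · rw [gB, gB, map_sum]
        refine Finset.sum_congr rfl fun s _ => ?_
        simp only [Φ, renameEquiv_apply, map_mul, map_pow, rename_X, σ, Equiv.prodCongr_apply,
          Equiv.sumCongr_apply, Prod.map_apply, Equiv.refl_apply, Sum.map_inl, Sum.map_inr,
          Equiv.sumComm_apply, Sum.swap_inl, Sum.swap_inr, Equiv.coe_refl, id_eq]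
        ring
    have hinv : ∀ P, Φ (Φ P) = P := by
      intro P
      simp only [Φ, renameEquiv_apply, rename_rename]
      have : (σ ∘ σ : ParB n r → ParB n r) = id := by
        funext y
        rcases y with ⟨s, (l | (e | e))⟩ <;> rfl
      rw [this, rename_id]
      rfl
    ext P
    constructor
    · rintro ⟨_, ⟨x, rfl⟩, rfl⟩
      obtain ⟨y, hy⟩ := key c d x
      exact ⟨y, hy⟩
    · rintro ⟨y, rfl⟩
      obtain ⟨x, hx⟩ := key d c y
      refine ⟨gB n c d r x, ⟨x, rfl⟩, ?_⟩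
      rw [hx, hinv]
  have h1 : Algebra.adjoin ℂ (Set.range (gB n d c r)) =
      (Algebra.adjoin ℂ (Set.range (gB n c d r))).map (Φ : MvPolynomial (ParB n r) ℂ →ₐ[ℂ] _) := by
    rw [AlgHom.map_adjoin, ← hrange]
    rfl
  rw [h1]
  exact ringKrullDim_eq_of_ringEquiv
    (Φ.subalgebraMap (Algebra.adjoin ℂ (Set.range (gB n c d r)))).toRingEquiv

theorem dim_B' (n c d r : ℕ) (hn : 3 ≤ n) (hd : 2 ≤ d) (hdc : d ≤ c) :
    secDim ![n, 2, 2] ![1, c, d] r =
      ((if r + 1 = (c + 1) * (d + 1) ∧ (c + 1) * (d + 1) ≤ n then r * (n + 1)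
        else min (r * (n + 2)) (n * ((c + 1) * (d + 1))) : ℕ) : WithBot ℕ∞) := by
  have hG := good_dB hd hdc
  rw [secDim_B, ← num_dB c d]
  refine final_arith hG hn _ (fun p u h => lowB_surj h) (fun p u h => lowB_inj h)
    (fun p hr h => lowB_unb hr h) (upB n c d r) (up_amb _) fun hr => ?_
  obtain ⟨p, hp⟩ := (gen_itp hG.fin (hG.wah 0 (by omega)) (Finset.range r) ∅
    (Finset.empty_subset _) (by simp) (by rw [Finset.card_range]; simp; omega)).ex
  exact upB_unb n c d r hr hp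

theorem dim_B (n c d r : ℕ) (hn : 3 ≤ n) (hc : 2 ≤ c) (hd : 2 ≤ d) :
    secDim ![n, 2, 2] ![1, c, d] r =
      ((if r + 1 = (c + 1) * (d + 1) ∧ (c + 1) * (d + 1) ≤ n then r * (n + 1)
        else min (r * (n + 2)) (n * ((c + 1) * (d + 1))) : ℕ) : WithBot ℕ∞) := by
  rcases le_total d c with h | h
  · exact dim_B' n c d r hn hd h
  · rw [secDim_swap, dim_B' n d c r hn hc h, mul_comm (d + 1) (c + 1)]

theorem defective_B (n c d r : ℕ) (hn : 3 ≤ n) (hc : 2 ≤ c) (hd : 2 ≤ d) (hr : 1 ≤ r) :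
    Defective ![n, 2, 2] ![1, c, d] r ↔
      r + 1 = (c + 1) * (d + 1) ∧ (c + 1) * (d + 1) ≤ n := by
  rw [Defective, dim_B n c d r hn hc hd, svDim_B n c d (by omega) (by omega) (by omega),
    card_idxB, num_dB, Nat.cast_lt]
  exact defect_arith hr

end Pool.Agent.SV.S
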