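import Pool.Agent.Lib.MP_b54217_ag.S.Chain

/-! # PROJECT S: the staircase of `P^2` -/

set_option autoImplicit false

namespace Pool.Agent.SV.S

open Finset

theorem sum_div3 (t u : ℕ) (hu : u < 3) :
    2 * ∑ k ∈ range (3 * t + u + 1), k / 3 + 3 * t = 3 * t * t + 2 * (u + 1) * t := by
  induction t with
  | zero =>
    have : ∑ k ∈ range (3 * 0 + u + 1), k / 3 = 0 := by
      refine Finset.sum_eq_zero fun k hk => ?_
      rw [mem_range] at hk
      omega
    rw [this]
    simp
  | succ t ih =>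
    have e : 3 * (t + 1) + u + 1 = 3 * t + u + 1 + 1 + 1 + 1 := by ring
    rw [e, sum_range_succ, sum_range_succ, sum_range_succ]
    have e2 : (3 * t + u + 1) / 3 + (3 * t + u + 1 + 1) / 3 + (3 * t + u + 1 + 1 + 1) / 3 =
        3 * t + u + 1 := by omega
    have e3 : 2 * (∑ k ∈ range (3 * t + u + 1), k / 3 + (3 * t + u + 1) / 3 +
        (3 * t + u + 1 + 1) / 3 + (3 * t + u + 1 + 1 + 1) / 3) =
        2 * ∑ k ∈ range (3 * t + u + 1), k / 3 + 2 * (3 * t + u + 1) := by
      generalize (3 * t + u + 1) / 3 = A at e2 ⊢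
      generalize (3 * t + u + 1 + 1) / 3 = B at e2 ⊢
      generalize (3 * t + u + 1 + 1 + 1) / 3 = C at e2 ⊢
      generalize ∑ k ∈ range (3 * t + u + 1), k / 3 = S
      omega
    rw [e3]
    nlinarith

theorem tl_dP' (d : ℕ) : tl (dP (d + 1)) = dP d := by
  funext i
  simp only [tl, dP]
  omega

theorem num_dP (d : ℕ) : 2 * num (dP d) (d + 1) = (d + 1) * (d + 2) := by
  induction d with
  | zero => simp [num, dP]
  | succ d ih =>
    rw [num_tl, tl_dP', mul_add, ih]
    have : dP (d + 1) 0 = d + 2 := rfl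
    rw [this]
    ring

theorem dP_anti (d : ℕ) : Antitone (dP d) := by
  intro i j hij
  simp only [dP]
  omega

/-- `WAH (dP d) q` up to the sum `∑_{k ≤ d + 1} k / 3`. -/
theorem wah_dP_sum (d q : ℕ) (hq : q ≤ ∑ k ∈ range (d + 2), k / 3) : WAH (dP d) q := by
  have h1 : ∑ k ∈ range (d + 2), k / 3 = ∑ i ∈ range (d + 1), (d + 1 - i) / 3 := by
    rw [← Finset.sum_range_reflect, sum_range_succ]
    have : d + 2 - 1 - (d + 1) = 0 := by omega
    rw [this]
    simp
  rw [h1] at hq
  refine wah_of_sum (c := d + 1) (g := fun i => (d + 1 - i) / 3) (dP_anti d) ?_ ?_ ?_ ?_ hq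
  · intro i hi
    simp only [dP]
    omega
  · intro i hi
    omega
  · simp only [dP]
    omega
  · intro i
    simp only [dP]
    omega

theorem exists_tu (m : ℕ) : ∃ t u, u < 3 ∧ m = 3 * t + u := ⟨m / 3, m % 3, by omega, by omega⟩

/-- `Good (dP d) (d + 1)` for `d ≥ 2`. -/
theorem good_dP {d : ℕ} (hd : 2 ≤ d) : Good (dP d) (d + 1) where
  anti := dP_anti d
  fin := by
    intro i hi
    simp only [dP]
    omega
  three := by
    simp only [dP]
    omega
  wah := by
    intro q hq
    apply wah_dP_sum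
    have hN := num_dP d
    obtain ⟨t, u, hu, htu⟩ := exists_tu (d + 1)
    have hS := sum_div3 t u hu
    have e : 3 * t + u + 1 = d + 2 := by omega
    rw [e] at hS
    generalize ∑ k ∈ range (d + 2), k / 3 = S at hS ⊢
    generalize num (dP d) (d + 1) = N at hN hq
    have hd1 : d = 3 * t + u - 1 := by omega
    by_contra hlt
    have hlt' : S + 1 ≤ q := by omega
    have e1 : (d + 1) * (d + 2) = (3 * t + u) * (3 * t + u + 1) := by
      rw [show d + 1 = 3 * t + u by omega, show d + 2 = 3 * t + u + 1 by omega]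
    rw [e1] at hN
    interval_cases u
    · nlinarith
    · nlinarith
    · have ht : 1 ≤ t := by omega
      nlinarith
  wah' := by
    intro q hq
    obtain ⟨d, rfl⟩ : ∃ d', d = d' + 1 := ⟨d - 1, by omega⟩
    rw [tl_dP']
    apply wah_dP_sum
    have hN := num_dP (d + 1)
    obtain ⟨t, u, hu, htu⟩ := exists_tu (d + 1)
    have hS := sum_div3 t u hu
    have e : 3 * t + u + 1 = d + 2 := by omega
    rw [e] at hS
    generalize ∑ k ∈ range (d + 2), k / 3 = S at hS ⊢
    generalize num (dP (d + 1)) (d + 1 + 1) = N at hN hq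
    by_contra hlt
    have hlt' : S + 1 ≤ q := by omega
    have e1 : (d + 1 + 1) * (d + 1 + 2) = (3 * t + u + 1) * (3 * t + u + 2) := by
      rw [htu]
    rw [e1] at hN
    interval_cases u
    · nlinarith [sq_nonneg ((t : ℤ) - 1)]
    · nlinarith [sq_nonneg ((t : ℤ) - 1)]
    · nlinarith [sq_nonneg ((t : ℤ) - 1)]
  big := by
    intro q hq
    have hN := num_dP d
    generalize num (dP d) (d + 1) = N at hN hq ⊢
    simp only [dP]
    have h1 : 5 * d ≤ N + 8 := by
      zify at hN ⊢
      nlinarith [sq_nonneg ((d : ℤ) - 3), sq_nonneg ((d : ℤ) - 4)]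
    omega

end Pool.Agent.SV.S
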