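import Pool.Agent.Lib.MP_b54217_ag.S.LowP
import Pool.Agent.Lib.MP_b54217_ag.S.Up
import Pool.Agent.Lib.MP_b54217_ag.S.Minor

/-! # PROJECT S: upper bounds for `P^(n-1) × P^2` -/

set_option autoImplicit false

namespace Pool.Agent.SV.S

open MvPolynomial

theorem hom_alg {K : Type} [Field K] (U z0 z1 z2 : K) (h : z0 ≠ 0) (m i j : ℕ) :
    U * (z0 ^ m * z1 ^ i * z2 ^ j) =
      U * (z0 ^ m * z0 ^ i * z0 ^ j) * ((z1 / z0) ^ i * (z2 / z0) ^ j) := by
  rw [div_pow, div_pow]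
  field_simp

/-- `up_par` with `L` the fraction field, `U s l = X(s,l) Z0^d`, `a s = Z1/Z0`, `b s = Z2/Z0`. -/
theorem upP (n d r : ℕ) : ringKrullDim (Algebra.adjoin ℂ (Set.range (gP n d r))) ≤
    ((r * (n + 2) : ℕ) : WithBot ℕ∞) := by
  let R := MvPolynomial (ParP n r) ℂ
  let L := FractionRing R
  let φ : R →ₐ[ℂ] L := (Algebra.ofId R L).restrictScalars ℂ
  have hφ : Function.Injective φ := IsFractionRing.injective R L
  have hX : ∀ σ : ParP n r, φ (X σ) ≠ 0 := by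
    intro σ h
    rw [← map_zero φ] at h
    exact X_ne_zero σ (hφ h)
  refine up_par (gP n d r) φ hφ (fun s l => φ (X (s, Sum.inl l)) * φ (X (s, Sum.inr 0)) ^ d)
    (fun s => φ (X (s, Sum.inr 1)) / φ (X (s, Sum.inr 0)))
    (fun s => φ (X (s, Sum.inr 2)) / φ (X (s, Sum.inr 0))) ?_
  intro x
  rw [gP, map_sum]
  refine Finset.sum_congr rfl fun s _ => ?_
  have hx := J_spec x.2
  obtain ⟨m, hm⟩ : ∃ m, d = m + x.2.1.1 + x.2.1.2 := ⟨d - x.2.1.1 - x.2.1.2, by omega⟩
  have e1 : d - x.2.1.1 - x.2.1.2 = m := by omega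
  have h0 := hX (s, Sum.inr 0)
  rw [e1, map_mul, map_mul, map_mul, map_pow, map_pow, map_pow]
  have e2 : φ (X (s, Sum.inr 0)) ^ d = φ (X (s, Sum.inr 0)) ^ m *
      φ (X (s, Sum.inr 0)) ^ x.2.1.1 * φ (X (s, Sum.inr 0)) ^ x.2.1.2 := by
    rw [← pow_add, ← pow_add, ← hm]
  rw [e2]
  exact hom_alg _ _ _ _ h0 m _ _

/-- `up_unb` with `exists_minor`; the determinant over the fraction field is nonzero because it
specialises to the nonzero minor at `Z0 = 1`, `Z1 = p s 0`, `Z2 = p s 1`. -/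
theorem upP_unb (n d r : ℕ) (hr : r + 1 = num (dP d) (d + 1)) {p : ℕ → Fin 2 → ℂ}
    (h : Itp (dP d) p (Finset.range r) ∅) :
    ringKrullDim (Algebra.adjoin ℂ (Set.range (gP n d r))) ≤
      ((r * (n + 1) : ℕ) : WithBot ℕ∞) := by
  classical
  let R := MvPolynomial (ParP n r) ℂ
  let L := FractionRing R
  let φ : R →ₐ[ℂ] L := (Algebra.ofId R L).restrictScalars ℂ
  have hφ : Function.Injective φ := IsFractionRing.injective R L
  obtain ⟨x0, e, hdet⟩ := exists_minor (dP_fin d) hr h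
  let m : Fin r → J (dP d) (d + 1) → R := fun s x => X (s, Sum.inr 0) ^ (d - x.1.1 - x.1.2) *
    X (s, Sum.inr 1) ^ x.1.1 * X (s, Sum.inr 2) ^ x.1.2
  refine up_unb (gP n d r) φ hφ (fun s l => φ (X (s, Sum.inl l))) (fun s x => φ (m s x)) ?_ x0 e ?_
  · intro x
    rw [gP, map_sum]
    refine Finset.sum_congr rfl fun s _ => ?_
    rw [map_mul]
  · let A : Matrix (Fin r) (Fin r) R := Matrix.of fun s s' => m s (e s').1
    have h1 : (Matrix.of fun s s' : Fin r => φ (m s (e s').1)) = φ.mapMatrix A := rfl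
    rw [h1, ← AlgHom.map_det]
    intro h2
    rw [← map_zero φ] at h2
    have h3 : A.det = 0 := hφ h2
    apply hdet
    have h4 : eval (tP n r p fun _ _ => 0) A.det = 0 := by rw [h3, map_zero]
    rw [RingHom.map_det] at h4
    refine Eq.trans ?_ h4
    congr 1
    ext s s'
    rw [RingHom.mapMatrix_apply, Matrix.map_apply]
    simp only [A, m, Matrix.of_apply, map_mul, map_pow, eval_X, tP_0, tP_1, tP_2, one_pow,
      one_mul, mv]

end Pool.Agent.SV.S
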