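import Pool.Agent.Lib.MP_b54217_ag.S.FinalA
import Pool.Agent.Lib.MP_b54217_ag.S.GoodP
import Pool.Agent.Lib.MP_b54217_ag.S.UpP

/-! # PROJECT S: `P^(n-1) × P^2`, `O(1,d)` -/

set_option autoImplicit false

namespace Pool.Agent.SV.S

theorem num_dP' (d : ℕ) : num (dP d) (d + 1) = (d + 2).choose 2 := by
  have h1 := num_dP d
  have h2 := Nat.triangle_succ (d + 1)
  have h3 : (d + 2).choose 2 = (d + 2) * (d + 1) / 2 := by
    rw [Nat.choose_two_right]
    rfl
  rw [h3]
  have h4 : (d + 2) * (d + 1) = 2 * num (dP d) (d + 1) := by rw [h1, mul_comm]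
  rw [h4]
  omega

theorem dim_P (n d r : ℕ) (hn : 3 ≤ n) (hd : 2 ≤ d) :
    secDim ![n, 3] ![1, d] r =
      ((if r + 1 = (d + 2).choose 2 ∧ (d + 2).choose 2 ≤ n then r * (n + 1)
        else min (r * (n + 2)) (n * (d + 2).choose 2) : ℕ) : WithBot ℕ∞) := by
  have hG := good_dP hd
  rw [secDim_P, ← num_dP' d]
  refine final_arith hG hn _ (fun p u h => lowP_surj h) (fun p u h => lowP_inj h)
    (fun p hr h => lowP_unb hr h) (upP n d r) (up_amb _) fun hr => ?_
  obtain ⟨p, hp⟩ := (gen_itp hG.fin (hG.wah 0 (by omega)) (Finset.range r) ∅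
    (Finset.empty_subset _) (by simp) (by rw [Finset.card_range]; simp; omega)).ex
  exact upP_unb n d r hr hp

theorem defective_P (n d r : ℕ) (hn : 3 ≤ n) (hd : 2 ≤ d) (hr : 1 ≤ r) :
    Defective ![n, 3] ![1, d] r ↔ r + 1 = (d + 2).choose 2 ∧ (d + 2).choose 2 ≤ n := by
  rw [Defective, dim_P n d r hn hd, svDim_P n d (by omega) (by omega), card_idxP, num_dP',
    Nat.cast_lt]
  exact defect_arith hr

end Pool.Agent.SV.S
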