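import Mathlib

/-! # PROJECT S: Hermite interpolation in one variable -/

set_option autoImplicit false

namespace Pool.Agent.SV.S

open Polynomial in
/-- Values at the points `y k` (`k ∈ L`, distinct) and derivatives at the points `y k` (`k ∈ B ⊆ L`)
can be prescribed by a polynomial of degree `< m` if `|L| + |B| ≤ m`.
Proof: `t = I + N * g` with `I = Lagrange.interpolate L y a`, `N = Lagrange.nodal L y`,
`N'(y k) ≠ 0` for `k ∈ L`, and `g = Lagrange.interpolate B y (fun k => (c k - I'(y k)) / N'(y k))`. -/
theorem hermite1 (m : ℕ) (L B : Finset ℕ) (hB : B ⊆ L) (y : ℕ → ℂ)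
    (hy : Set.InjOn y (L : Set ℕ)) (hc : L.card + B.card ≤ m) (a c : ℕ → ℂ) :
    ∃ t ∈ Polynomial.degreeLT ℂ m, (∀ k ∈ L, t.eval (y k) = a k) ∧
      ∀ k ∈ B, (Polynomial.derivative t).eval (y k) = c k := by
  classical
  set I := Lagrange.interpolate L y a with hI
  set N := Lagrange.nodal L y with hN
  have hN0 : ∀ k ∈ L, N.eval (y k) = 0 := fun k hk => Lagrange.eval_nodal_at_node hk
  have hN1 : ∀ k ∈ L, (derivative N).eval (y k) ≠ 0 := by
    intro k hk
    rw [hN, Lagrange.eval_nodal_derivative_eval_node_eq hk, Lagrange.eval_nodal,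
      Finset.prod_ne_zero_iff]
    intro j hj
    rw [Finset.mem_erase] at hj
    rw [sub_ne_zero]
    intro h
    exact hj.1 (hy hj.2 hk h.symm)
  have hyB : Set.InjOn y (B : Set ℕ) := hy.mono (by exact_mod_cast hB)
  set g := Lagrange.interpolate B y (fun k => (c k - (derivative I).eval (y k)) /
    (derivative N).eval (y k)) with hg
  refine ⟨I + N * g, ?_, ?_, ?_⟩
  · refine Submodule.add_mem _ ?_ ?_
    · rw [mem_degreeLT]
      refine lt_of_lt_of_le (Lagrange.degree_interpolate_lt _ hy) ?_
      exact_mod_cast (by omega : L.card ≤ m)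
    · rw [mem_degreeLT]
      by_cases hg0 : g = 0
      · rw [hg0, mul_zero, degree_zero]
        exact WithBot.bot_lt_coe _
      · have h1 : g.degree < B.card := Lagrange.degree_interpolate_lt _ hyB
        have h2 : N.degree = L.card := by rw [hN, Lagrange.degree_nodal]
        rw [degree_mul, h2]
        rw [degree_eq_natDegree hg0] at h1 ⊢
        have h3 : g.natDegree < B.card := by exact_mod_cast h1
        exact_mod_cast (by omega : L.card + g.natDegree < m)
  · intro k hk
    rw [eval_add, eval_mul, hN0 k hk, zero_mul, add_zero, hI]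
    exact Lagrange.eval_interpolate_at_node _ hy hk
  · intro k hk
    have h1 : g.eval (y k) = (c k - (derivative I).eval (y k)) / (derivative N).eval (y k) := by
      rw [hg]
      exact Lagrange.eval_interpolate_at_node _ hyB hk
    rw [derivative_add, derivative_mul, eval_add, eval_add, eval_mul, eval_mul,
      hN0 k (hB hk), zero_mul, add_zero, h1, mul_div_cancel₀ _ (hN1 k (hB hk))]
    ring

end Pool.Agent.SV.S
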