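import Pool.Agent.Lib.MP_b54217_ag.S.Base
import Pool.Agent.Lib.MP_b54217_ag.S.Hermite1

/-! # PROJECT S: the Horace method on a line `x = x0` -/

set_option autoImplicit false

namespace Pool.Agent.SV.S

open MvPolynomial

theorem eval_trace (t : Polynomial ℂ) (q : Fin 2 → ℂ) :
    eval q (Polynomial.aeval (X 1 : MvPolynomial (Fin 2) ℂ) t) = t.eval (q 1) := by
  rw [Polynomial.aeval_def, Polynomial.hom_eval₂, eval_X, Polynomial.eval]
  congr 1
  ext r
  simp

/-- Values and derivatives of `f = t(y) + (x - x0) g`. -/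
theorem eval_split (t : Polynomial ℂ) (x0 : ℂ) (g : MvPolynomial (Fin 2) ℂ) (q : Fin 2 → ℂ) :
    eval q (Polynomial.aeval (X 1 : MvPolynomial (Fin 2) ℂ) t + (X 0 - C x0) * g) =
      t.eval (q 1) + (q 0 - x0) * eval q g ∧
    eval q (pderiv 0 (Polynomial.aeval (X 1 : MvPolynomial (Fin 2) ℂ) t + (X 0 - C x0) * g)) =
      eval q g + (q 0 - x0) * eval q (pderiv 0 g) ∧
    eval q (pderiv 1 (Polynomial.aeval (X 1 : MvPolynomial (Fin 2) ℂ) t + (X 0 - C x0) * g)) =
      (Polynomial.derivative t).eval (q 1) + (q 0 - x0) * eval q (pderiv 1 g) := by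
  refine ⟨?_, ?_, ?_⟩
  · rw [map_add, eval_trace, map_mul, map_sub, eval_X, eval_C]
  · rw [map_add, Derivation.map_aeval, pderiv_X_of_ne (by decide), smul_zero, zero_add,
      Derivation.leibniz, map_sub, pderiv_X_self, pderiv_C, sub_zero, smul_eq_mul, smul_eq_mul,
      mul_one, map_add, map_mul, map_sub, eval_X, eval_C]
    ring
  · rw [map_add, Derivation.map_aeval, pderiv_X_self, smul_eq_mul, mul_one,
      Derivation.leibniz, map_sub, pderiv_X_of_ne (by decide), pderiv_C, sub_zero, smul_zero,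
      add_zero, smul_eq_mul, map_add, map_mul, map_sub, eval_X, eval_C, eval_trace]

/-- The Horace step.  `L` = the points of `S` on the line `x = x0`.
Proof: given targets `a, b, c`, take `t` from `hermite1 (D 0) L (B ∩ L)` (values `a`, derivatives
`c`), then `g ∈ PP (tl D)` from `h` with: for `k ∈ S \ L`: `g(p k) = (a k - t(y_k)) / (x_k - x0)`;
for `k ∈ B ∩ L`: `g(p k) = b k`; for `k ∈ B \ L`: `∂x g = (b k - g(p k)) / (x_k - x0)`,
`∂y g = (c k - t'(y_k)) / (x_k - x0)`; and `f = t(y) + (x - x0) g` (`eval_split`, `trace_mem`,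
`shift_mem`). -/
theorem horace {D : ℕ → ℕ} (hD : Antitone D) (x0 : ℂ) (p : ℕ → Fin 2 → ℂ) (S B L : Finset ℕ)
    (hBS : B ⊆ S) (hLS : L ⊆ S) (hL : ∀ k ∈ L, p k 0 = x0) (hL' : ∀ k ∈ S \ L, p k 0 ≠ x0)
    (hy : Set.InjOn (fun k => p k 1) (L : Set ℕ)) (hc : L.card + (B ∩ L).card ≤ D 0)
    (h : Itp (tl D) p ((S \ L) ∪ (B ∩ L)) (B \ L)) : Itp D p S B := by
  classical
  intro a b c
  obtain ⟨t, ht, ht1, ht2⟩ := hermite1 (D 0) L (B ∩ L) Finset.inter_subset_right
    (fun k => p k 1) hy hc a c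
  let w : ℕ → ℂ := fun k => if k ∈ L then b k else (a k - t.eval (p k 1)) / (p k 0 - x0)
  obtain ⟨g, hg, hg1, hg2⟩ := h w (fun k => (b k - w k) / (p k 0 - x0))
    (fun k => (c k - (Polynomial.derivative t).eval (p k 1)) / (p k 0 - x0))
  have hne : ∀ k ∈ S, k ∉ L → p k 0 - x0 ≠ 0 := fun k hk hk' =>
    sub_ne_zero.2 (hL' k (Finset.mem_sdiff.2 ⟨hk, hk'⟩))
  refine ⟨Polynomial.aeval (X 1 : MvPolynomial (Fin 2) ℂ) t + (X 0 - C x0) * g,
    Submodule.add_mem _ (trace_mem t ht) (shift_mem hD x0 hg), ?_, ?_⟩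
  · intro k hk
    rw [(eval_split t x0 g (p k)).1]
    by_cases hkL : k ∈ L
    · rw [hL k hkL, sub_self, zero_mul, add_zero, ht1 k hkL]
    · have h1 := hg1 k (Finset.mem_union_left _ (Finset.mem_sdiff.2 ⟨hk, hkL⟩))
      have h2 := hne k hk hkL
      simp only [w, if_neg hkL] at h1
      rw [h1]
      field_simp
      ring
  · intro k hk
    rw [(eval_split t x0 g (p k)).2.1, (eval_split t x0 g (p k)).2.2]
    by_cases hkL : k ∈ L
    · have h1 := hg1 k (Finset.mem_union_right _ (Finset.mem_inter.2 ⟨hk, hkL⟩))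
      have h2 := ht2 k (Finset.mem_inter.2 ⟨hk, hkL⟩)
      simp only [w, if_pos hkL] at h1
      rw [hL k hkL, sub_self, zero_mul, zero_mul, add_zero, add_zero, h1, h2]
      exact ⟨rfl, rfl⟩
    · have h1 := hg1 k (Finset.mem_union_left _ (Finset.mem_sdiff.2 ⟨hBS hk, hkL⟩))
      obtain ⟨h3, h4⟩ := hg2 k (Finset.mem_sdiff.2 ⟨hk, hkL⟩)
      have h2 := hne k (hBS hk) hkL
      rw [h1, h3, h4]
      constructor
      · field_simp
        ring
      · field_simp
        ring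

/-- The Horace step for pairs; the same proof for `f` and for `g`; `z` is off the line, so that
`f(p z)`, `g(p z)` and hence the values of both residual polynomials at `p z` are known, and the
gradient of `f + g` at `z` translates into the gradient of the sum of the residual polynomials. -/
theorem horace_pair {D : ℕ → ℕ} (hD : Antitone D) (x0 : ℂ) (p : ℕ → Fin 2 → ℂ)
    (S T A B L M : Finset ℕ) (z : ℕ) (hAS : A ⊆ S) (hBT : B ⊆ T) (hLS : L ⊆ S) (hMT : M ⊆ T)
    (hL : ∀ k ∈ L, p k 0 = x0) (hL' : ∀ k ∈ S \ L, p k 0 ≠ x0)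
    (hM : ∀ k ∈ M, p k 0 = x0) (hM' : ∀ k ∈ T \ M, p k 0 ≠ x0)
    (hyL : Set.InjOn (fun k => p k 1) (L : Set ℕ)) (hyM : Set.InjOn (fun k => p k 1) (M : Set ℕ))
    (hcL : L.card + (A ∩ L).card ≤ D 0) (hcM : M.card + (B ∩ M).card ≤ D 0)
    (hzS : z ∈ S \ L) (hzT : z ∈ T \ M)
    (h : PairI (tl D) p ((S \ L) ∪ (A ∩ L)) ((T \ M) ∪ (B ∩ M)) (A \ L) (B \ M) z) :
    PairI D p S T A B z := by
  classical
  intro a a' b b' c c' u v
  obtain ⟨t, ht, ht1, ht2⟩ := hermite1 (D 0) L (A ∩ L) Finset.inter_subset_right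
    (fun k => p k 1) hyL hcL a c
  obtain ⟨t', ht', ht1', ht2'⟩ := hermite1 (D 0) M (B ∩ M) Finset.inter_subset_right
    (fun k => p k 1) hyM hcM a' c'
  let w : ℕ → ℂ := fun k => if k ∈ L then b k else (a k - t.eval (p k 1)) / (p k 0 - x0)
  let w' : ℕ → ℂ := fun k => if k ∈ M then b' k else (a' k - t'.eval (p k 1)) / (p k 0 - x0)
  obtain ⟨g, hg, g', hg', hg1, hg1', hg2, hg2', hu, hv⟩ := h w w'
    (fun k => (b k - w k) / (p k 0 - x0)) (fun k => (b' k - w' k) / (p k 0 - x0))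
    (fun k => (c k - (Polynomial.derivative t).eval (p k 1)) / (p k 0 - x0))
    (fun k => (c' k - (Polynomial.derivative t').eval (p k 1)) / (p k 0 - x0))
    ((u - (w z + w' z)) / (p z 0 - x0))
    ((v - ((Polynomial.derivative t).eval (p z 1) + (Polynomial.derivative t').eval (p z 1))) /
      (p z 0 - x0))
  have hne : ∀ k ∈ S, k ∉ L → p k 0 - x0 ≠ 0 := fun k hk hk' =>
    sub_ne_zero.2 (hL' k (Finset.mem_sdiff.2 ⟨hk, hk'⟩))
  have hne' : ∀ k ∈ T, k ∉ M → p k 0 - x0 ≠ 0 := fun k hk hk' =>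
    sub_ne_zero.2 (hM' k (Finset.mem_sdiff.2 ⟨hk, hk'⟩))
  have hz : p z 0 - x0 ≠ 0 := sub_ne_zero.2 (hL' z hzS)
  have hgz : eval (p z) g = w z := hg1 z (Finset.mem_union_left _ hzS)
  have hgz' : eval (p z) g' = w' z := hg1' z (Finset.mem_union_left _ hzT)
  refine ⟨Polynomial.aeval (X 1 : MvPolynomial (Fin 2) ℂ) t + (X 0 - C x0) * g,
    Submodule.add_mem _ (trace_mem t ht) (shift_mem hD x0 hg),
    Polynomial.aeval (X 1 : MvPolynomial (Fin 2) ℂ) t' + (X 0 - C x0) * g',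
    Submodule.add_mem _ (trace_mem t' ht') (shift_mem hD x0 hg'), ?_, ?_, ?_, ?_, ?_, ?_⟩
  · intro k hk
    rw [(eval_split t x0 g (p k)).1]
    by_cases hkL : k ∈ L
    · rw [hL k hkL, sub_self, zero_mul, add_zero, ht1 k hkL]
    · have h1 := hg1 k (Finset.mem_union_left _ (Finset.mem_sdiff.2 ⟨hk, hkL⟩))
      have h2 := hne k hk hkL
      simp only [w, if_neg hkL] at h1
      rw [h1]
      field_simp
      ring
  · intro k hk
    rw [(eval_split t' x0 g' (p k)).1]
    by_cases hkL : k ∈ M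
    · rw [hM k hkL, sub_self, zero_mul, add_zero, ht1' k hkL]
    · have h1 := hg1' k (Finset.mem_union_left _ (Finset.mem_sdiff.2 ⟨hk, hkL⟩))
      have h2 := hne' k hk hkL
      simp only [w', if_neg hkL] at h1
      rw [h1]
      field_simp
      ring
  · intro k hk
    rw [(eval_split t x0 g (p k)).2.1, (eval_split t x0 g (p k)).2.2]
    by_cases hkL : k ∈ L
    · have h1 := hg1 k (Finset.mem_union_right _ (Finset.mem_inter.2 ⟨hk, hkL⟩))
      have h2 := ht2 k (Finset.mem_inter.2 ⟨hk, hkL⟩)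
      simp only [w, if_pos hkL] at h1
      rw [hL k hkL, sub_self, zero_mul, zero_mul, add_zero, add_zero, h1, h2]
      exact ⟨rfl, rfl⟩
    · have h1 := hg1 k (Finset.mem_union_left _ (Finset.mem_sdiff.2 ⟨hAS hk, hkL⟩))
      obtain ⟨h3, h4⟩ := hg2 k (Finset.mem_sdiff.2 ⟨hk, hkL⟩)
      have h2 := hne k (hAS hk) hkL
      rw [h1, h3, h4]
      constructor
      · field_simp
        ring
      · field_simp
        ring
  · intro k hk
    rw [(eval_split t' x0 g' (p k)).2.1, (eval_split t' x0 g' (p k)).2.2]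
    by_cases hkL : k ∈ M
    · have h1 := hg1' k (Finset.mem_union_right _ (Finset.mem_inter.2 ⟨hk, hkL⟩))
      have h2 := ht2' k (Finset.mem_inter.2 ⟨hk, hkL⟩)
      simp only [w', if_pos hkL] at h1
      rw [hM k hkL, sub_self, zero_mul, zero_mul, add_zero, add_zero, h1, h2]
      exact ⟨rfl, rfl⟩
    · have h1 := hg1' k (Finset.mem_union_left _ (Finset.mem_sdiff.2 ⟨hBT hk, hkL⟩))
      obtain ⟨h3, h4⟩ := hg2' k (Finset.mem_sdiff.2 ⟨hk, hkL⟩)
      have h2 := hne' k (hBT hk) hkL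
      rw [h1, h3, h4]
      constructor
      · field_simp
        ring
      · field_simp
        ring
  · rw [map_add, map_add, (eval_split t x0 g (p z)).2.1, (eval_split t' x0 g' (p z)).2.1, hgz,
      hgz']
    rw [map_add, map_add] at hu
    have : w z + (p z 0 - x0) * eval (p z) (pderiv 0 g) +
        (w' z + (p z 0 - x0) * eval (p z) (pderiv 0 g')) = w z + w' z + (p z 0 - x0) *
        (eval (p z) (pderiv 0 g) + eval (p z) (pderiv 0 g')) := by ring
    rw [this, hu, mul_div_cancel₀ _ hz]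
    ring
  · rw [map_add, map_add, (eval_split t x0 g (p z)).2.2, (eval_split t' x0 g' (p z)).2.2]
    rw [map_add, map_add] at hv
    have : (Polynomial.derivative t).eval (p z 1) + (p z 0 - x0) * eval (p z) (pderiv 1 g) +
        ((Polynomial.derivative t').eval (p z 1) + (p z 0 - x0) * eval (p z) (pderiv 1 g')) =
        (Polynomial.derivative t).eval (p z 1) + (Polynomial.derivative t').eval (p z 1) +
        (p z 0 - x0) * (eval (p z) (pderiv 1 g) + eval (p z) (pderiv 1 g')) := by ring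
    rw [this, hv, mul_div_cancel₀ _ hz]
    ring

end Pool.Agent.SV.S
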