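import Pool.Agent.Lib.MP_b54217_ag.S.Base

/-! # PROJECT S: square systems are injective -/

set_option autoImplicit false

namespace Pool.Agent.SV.S

open MvPolynomial

/-- The evaluation map of `Itp`. -/
noncomputable def evMap (D : ℕ → ℕ) (p : ℕ → Fin 2 → ℂ) (S B : Finset ℕ) :
    PP D →ₗ[ℂ] ((S → ℂ) × (B → ℂ) × (B → ℂ)) where
  toFun f := (fun k => eval (p k) f.1, fun k => eval (p k) (pderiv 0 f.1),
    fun k => eval (p k) (pderiv 1 f.1))
  map_add' f g := by
    refine Prod.ext ?_ (Prod.ext ?_ ?_)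
    · funext k
      simp
    · funext k
      simp
    · funext k
      simp
  map_smul' r f := by
    refine Prod.ext ?_ (Prod.ext ?_ ?_)
    · funext k
      simp
    · funext k
      simp
    · funext k
      simp

/-- A surjective linear map between spaces of the same finite dimension is injective:
`PP D → (S → ℂ) × (B → ℂ) × (B → ℂ)`. -/
theorem itp_inj {D : ℕ → ℕ} {c : ℕ} (hD : ∀ i, c ≤ i → D i = 0) {p : ℕ → Fin 2 → ℂ}
    {S B : Finset ℕ} (h : Itp D p S B) (hN : S.card + 2 * B.card = num D c)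
    {f : MvPolynomial (Fin 2) ℂ} (hf : f ∈ PP D) (h0 : ∀ k ∈ S, eval (p k) f = 0)
    (h1 : ∀ k ∈ B, eval (p k) (pderiv 0 f) = 0 ∧ eval (p k) (pderiv 1 f) = 0) : f = 0 := by
  classical
  haveI := finite_PP hD
  have hsurj : Function.Surjective (evMap D p S B) := by
    rintro ⟨a, b, c'⟩
    obtain ⟨g, hg, h2, h3⟩ := h (fun k => if hk : k ∈ S then a ⟨k, hk⟩ else 0)
      (fun k => if hk : k ∈ B then b ⟨k, hk⟩ else 0) (fun k => if hk : k ∈ B then c' ⟨k, hk⟩ else 0)
    refine ⟨⟨g, hg⟩, Prod.ext ?_ (Prod.ext ?_ ?_)⟩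
    · funext k
      exact (h2 k k.2).trans (dif_pos k.2)
    · funext k
      exact (h3 k k.2).1.trans (dif_pos k.2)
    · funext k
      exact (h3 k k.2).2.trans (dif_pos k.2)
  have hdim : Module.finrank ℂ (PP D) = Module.finrank ℂ ((S → ℂ) × (B → ℂ) × (B → ℂ)) := by
    rw [finrank_PP hD, Module.finrank_prod, Module.finrank_prod,
      Module.finrank_fintype_fun_eq_card, Module.finrank_fintype_fun_eq_card, Fintype.card_coe,
      Fintype.card_coe]
    omega
  have hinj := (LinearMap.injective_iff_surjective_of_finrank_eq_finrank hdim).2 hsurj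
  have h2 : evMap D p S B ⟨f, hf⟩ = 0 := by
    refine Prod.ext ?_ (Prod.ext ?_ ?_)
    · funext k
      exact h0 k k.2
    · funext k
      exact (h1 k k.2).1
    · funext k
      exact (h1 k k.2).2
  have h3 : (⟨f, hf⟩ : PP D) = 0 := hinj (h2.trans (map_zero _).symm)
  exact congrArg Subtype.val h3

/-- The gradient of the sum at `z`. -/
noncomputable def gradSum (D : ℕ → ℕ) (q : Fin 2 → ℂ) : (PP D × PP D) →ₗ[ℂ] (ℂ × ℂ) where
  toFun f := (eval q (pderiv 0 (f.1.1 + f.2.1)), eval q (pderiv 1 (f.1.1 + f.2.1)))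
  map_add' f g := by
    refine Prod.ext ?_ ?_
    · simp
      ring
    · simp
      ring
  map_smul' r f := by
    refine Prod.ext ?_ ?_
    · simp
      ring
    · simp
      ring

/-- The same for pairs. -/
theorem pair_inj {D : ℕ → ℕ} {c : ℕ} (hD : ∀ i, c ≤ i → D i = 0) {p : ℕ → Fin 2 → ℂ}
    {S T A B : Finset ℕ} {z : ℕ} (h : PairI D p S T A B z)
    (hN : S.card + T.card + 2 * A.card + 2 * B.card + 2 = 2 * num D c)
    {f g : MvPolynomial (Fin 2) ℂ} (hf : f ∈ PP D) (hg : g ∈ PP D)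
    (h0 : ∀ k ∈ S, eval (p k) f = 0) (h0' : ∀ k ∈ T, eval (p k) g = 0)
    (h1 : ∀ k ∈ A, eval (p k) (pderiv 0 f) = 0 ∧ eval (p k) (pderiv 1 f) = 0)
    (h1' : ∀ k ∈ B, eval (p k) (pderiv 0 g) = 0 ∧ eval (p k) (pderiv 1 g) = 0)
    (h2 : eval (p z) (pderiv 0 (f + g)) = 0) (h3 : eval (p z) (pderiv 1 (f + g)) = 0) :
    f = 0 ∧ g = 0 := by
  classical
  haveI := finite_PP hD
  let Φ : (PP D × PP D) →ₗ[ℂ] (((S → ℂ) × (A → ℂ) × (A → ℂ)) ×
      ((T → ℂ) × (B → ℂ) × (B → ℂ)) × (ℂ × ℂ)) :=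
    LinearMap.prod ((evMap D p S A).comp (LinearMap.fst ℂ _ _))
      (LinearMap.prod ((evMap D p T B).comp (LinearMap.snd ℂ _ _)) (gradSum D (p z)))
  have hsurj : Function.Surjective Φ := by
    rintro ⟨⟨a, b, c₁⟩, ⟨a', b', c₁'⟩, ⟨u, v⟩⟩
    obtain ⟨f, hf, g, hg, e1, e1', e2, e2', e3, e4⟩ := h
      (fun k => if hk : k ∈ S then a ⟨k, hk⟩ else 0)
      (fun k => if hk : k ∈ T then a' ⟨k, hk⟩ else 0)
      (fun k => if hk : k ∈ A then b ⟨k, hk⟩ else 0)
      (fun k => if hk : k ∈ B then b' ⟨k, hk⟩ else 0)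
      (fun k => if hk : k ∈ A then c₁ ⟨k, hk⟩ else 0)
      (fun k => if hk : k ∈ B then c₁' ⟨k, hk⟩ else 0) u v
    refine ⟨(⟨f, hf⟩, ⟨g, hg⟩), Prod.ext (Prod.ext ?_ (Prod.ext ?_ ?_))
      (Prod.ext (Prod.ext ?_ (Prod.ext ?_ ?_)) (Prod.ext ?_ ?_))⟩
    · funext k
      exact (e1 k k.2).trans (dif_pos k.2)
    · funext k
      exact (e2 k k.2).1.trans (dif_pos k.2)
    · funext k
      exact (e2 k k.2).2.trans (dif_pos k.2)
    · funext k
      exact (e1' k k.2).trans (dif_pos k.2)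
    · funext k
      exact (e2' k k.2).1.trans (dif_pos k.2)
    · funext k
      exact (e2' k k.2).2.trans (dif_pos k.2)
    · exact e3
    · exact e4
  have hdim : Module.finrank ℂ (PP D × PP D) = Module.finrank ℂ
      (((S → ℂ) × (A → ℂ) × (A → ℂ)) × ((T → ℂ) × (B → ℂ) × (B → ℂ)) × (ℂ × ℂ)) := by
    simp only [Module.finrank_prod, Module.finrank_fintype_fun_eq_card, Fintype.card_coe,
      finrank_PP hD, Module.finrank_self]
    omega
  have hinj := (LinearMap.injective_iff_surjective_of_finrank_eq_finrank hdim).2 hsurj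
  have h4 : Φ (⟨f, hf⟩, ⟨g, hg⟩) = 0 := by
    refine Prod.ext (Prod.ext ?_ (Prod.ext ?_ ?_))
      (Prod.ext (Prod.ext ?_ (Prod.ext ?_ ?_)) (Prod.ext ?_ ?_))
    · funext k
      exact h0 k k.2
    · funext k
      exact (h1 k k.2).1
    · funext k
      exact (h1 k k.2).2
    · funext k
      exact h0' k k.2
    · funext k
      exact (h1' k k.2).1
    · funext k
      exact (h1' k k.2).2
    · exact h2
    · exact h3
  have h5 : ((⟨f, hf⟩, ⟨g, hg⟩) : PP D × PP D) = 0 := hinj (h4.trans (map_zero _).symm)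
  exact ⟨congrArg Subtype.val (congrArg Prod.fst h5), congrArg Subtype.val (congrArg Prod.snd h5)⟩

end Pool.Agent.SV.S
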