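import Pool.Agent.Lib.MP_b54217_ag.S.Base

/-! # PROJECT S: from interpolation to ranks -/

set_option autoImplicit false

namespace Pool.Agent.SV.S

open MvPolynomial

/-- Vectors whose pairings with some vector can be prescribed are linearly independent. -/
theorem linInd_of_pair {κ ι : Type} [Fintype κ] [Fintype ι] (v : κ → ι → ℂ)
    (h : ∀ t : κ → ℂ, ∃ a : ι → ℂ, ∀ k, ∑ i, v k i * a i = t k) : LinearIndependent ℂ v := by
  classical
  rw [Fintype.linearIndependent_iff]
  intro g hg k0
  obtain ⟨a, ha⟩ := h (Pi.single k0 1)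
  have h1 : ∑ k, g k * ∑ i, v k i * a i = 0 := by
    have h2 : ∑ k, g k * ∑ i, v k i * a i = ∑ i, (∑ k, g k • v k) i * a i := by
      simp only [Finset.sum_apply, Pi.smul_apply, smul_eq_mul, Finset.sum_mul, Finset.mul_sum]
      rw [Finset.sum_comm]
      refine Finset.sum_congr rfl fun i _ => Finset.sum_congr rfl fun k _ => ?_
      ring
    rw [h2, hg]
    simp
  rw [Finset.sum_eq_single k0] at h1
  · rw [ha, Pi.single_eq_same, mul_one] at h1
    exact h1
  · intro k _ hk
    rw [ha, Pi.single_eq_of_ne hk, mul_zero]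
  · intro hk
    exact absurd (Finset.mem_univ _) hk

/-- Pairing with a vector of the first kind. -/
theorem pair_val {n c : ℕ} {D : ℕ → ℕ} (a : Fin n × J D c → ℂ) (q : Fin 2 → ℂ) (l : Fin n) :
    ∑ x : Fin n × J D c, (if x.1 = l then mv q x.2 else 0) * a x =
      eval q (∑ x : J D c, C (a (l, x)) * (X 0 ^ x.1.1 * X 1 ^ x.1.2)) := by
  classical
  rw [(eval_sum (fun x => a (l, x)) q).1, Fintype.sum_prod_type, Finset.sum_eq_single l]
  · refine Finset.sum_congr rfl fun x _ => ?_
    rw [if_pos rfl, mul_comm]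
  · intro l' _ hl'
    refine Finset.sum_eq_zero fun x _ => ?_
    rw [if_neg hl', zero_mul]
  · intro h
    exact absurd (Finset.mem_univ _) h

theorem pair_dx {n c : ℕ} {D : ℕ → ℕ} (a : Fin n × J D c → ℂ) (q : Fin 2 → ℂ) (u : Fin n → ℂ) :
    ∑ x : Fin n × J D c, (u x.1 * mx q x.2) * a x =
      ∑ l, u l * eval q (pderiv 0
        (∑ x : J D c, C (a (l, x)) * (X 0 ^ x.1.1 * X 1 ^ x.1.2))) := by
  rw [Fintype.sum_prod_type]
  refine Finset.sum_congr rfl fun l _ => ?_
  rw [(eval_sum (fun x => a (l, x)) q).2.1, Finset.mul_sum]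
  refine Finset.sum_congr rfl fun x _ => ?_
  ring

theorem pair_dy {n c : ℕ} {D : ℕ → ℕ} (a : Fin n × J D c → ℂ) (q : Fin 2 → ℂ) (u : Fin n → ℂ) :
    ∑ x : Fin n × J D c, (u x.1 * my q x.2) * a x =
      ∑ l, u l * eval q (pderiv 1
        (∑ x : J D c, C (a (l, x)) * (X 0 ^ x.1.1 * X 1 ^ x.1.2))) := by
  rw [Fintype.sum_prod_type]
  refine Finset.sum_congr rfl fun l _ => ?_
  rw [(eval_sum (fun x => a (l, x)) q).2.2, Finset.mul_sum]
  refine Finset.sum_congr rfl fun x _ => ?_
  ring

/-- Proof: the `r (n + 2)` vectors in `T` are linearly independent: a relation with coefficients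
`α_{k,l}, β_k, γ_k`, paired with the coefficient vector of a tuple `F` (`SurjN` with arbitrary
targets, `eq_sum_of_mem_PP`, `eval_sum`), gives `∑ α a + ∑ β b + ∑ γ c = 0` for all targets. -/
theorem rank_surj {n c r : ℕ} {D : ℕ → ℕ} (hD : ∀ i, c ≤ i → D i = 0) {p : ℕ → Fin 2 → ℂ}
    {u : ℕ → Fin n → ℂ} (h : SurjN n D r p u) (T : Submodule ℂ (Fin n × J D c → ℂ))
    (h1 : ∀ k < r, ∀ l : Fin n,
      (fun x : Fin n × J D c => if x.1 = l then mv (p k) x.2 else 0) ∈ T)
    (h2 : ∀ k < r, (fun x : Fin n × J D c => u k x.1 * mx (p k) x.2) ∈ T)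
    (h3 : ∀ k < r, (fun x : Fin n × J D c => u k x.1 * my (p k) x.2) ∈ T) :
    r * (n + 2) ≤ Module.finrank ℂ T := by
  classical
  let v : Fin r × (Fin n ⊕ Bool) → (Fin n × J D c → ℂ) := fun k => match k.2 with
    | Sum.inl l => fun x => if x.1 = l then mv (p k.1) x.2 else 0
    | Sum.inr true => fun x => u k.1 x.1 * mx (p k.1) x.2
    | Sum.inr false => fun x => u k.1 x.1 * my (p k.1) x.2
  have hv : ∀ k, v k ∈ T := by
    rintro ⟨k, (l | (_ | _))⟩
    · exact h1 k k.2 l
    · exact h3 k k.2
    · exact h2 k k.2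
  have hli : LinearIndependent ℂ v := by
    apply linInd_of_pair
    intro t
    obtain ⟨F, hF1, hF2, hF3⟩ := h
      (fun k l => if hk : k < r then t (⟨k, hk⟩, Sum.inl l) else 0)
      (fun k => if hk : k < r then t (⟨k, hk⟩, Sum.inr true) else 0)
      (fun k => if hk : k < r then t (⟨k, hk⟩, Sum.inr false) else 0)
    choose w hw using fun l => eq_sum_of_mem_PP (c := c) hD (hF1 l)
    refine ⟨fun x => w x.1 x.2, ?_⟩
    rintro ⟨k, (l | (_ | _))⟩
    · have e1 := pair_val (fun x : Fin n × J D c => w x.1 x.2) (p k) l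
      refine e1.trans ?_
      simp only
      rw [← hw l, hF2 k k.2 l, dif_pos k.2]
    · have e1 := pair_dy (fun x : Fin n × J D c => w x.1 x.2) (p k) (u k)
      refine e1.trans ?_
      simp only
      have e2 := (hF3 k k.2).2
      rw [dif_pos k.2] at e2
      rw [← e2]
      refine Finset.sum_congr rfl fun l _ => ?_
      rw [← hw l]
    · have e1 := pair_dx (fun x : Fin n × J D c => w x.1 x.2) (p k) (u k)
      refine e1.trans ?_
      simp only
      have e2 := (hF3 k k.2).1
      rw [dif_pos k.2] at e2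
      rw [← e2]
      refine Finset.sum_congr rfl fun l _ => ?_
      rw [← hw l]
  let v' : Fin r × (Fin n ⊕ Bool) → T := fun k => ⟨v k, hv k⟩
  have hli' : LinearIndependent ℂ v' := by
    apply LinearIndependent.of_comp T.subtype
    exact hli
  have h4 := hli'.fintype_card_le_finrank
  simpa using h4

/-- Proof: if `T ≠ ⊤` there is a nonzero linear functional on `Fin n × J D c → ℂ` vanishing on
`T`, i.e. a nonzero coefficient vector of a tuple `F` in the kernel of `InjN`. -/
theorem rank_inj {n c r : ℕ} {D : ℕ → ℕ} (_hD : ∀ i, c ≤ i → D i = 0) {p : ℕ → Fin 2 → ℂ}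
    {u : ℕ → Fin n → ℂ} (h : InjN n D r p u) (T : Submodule ℂ (Fin n × J D c → ℂ))
    (h1 : ∀ k < r, ∀ l : Fin n,
      (fun x : Fin n × J D c => if x.1 = l then mv (p k) x.2 else 0) ∈ T)
    (h2 : ∀ k < r, (fun x : Fin n × J D c => u k x.1 * mx (p k) x.2) ∈ T)
    (h3 : ∀ k < r, (fun x : Fin n × J D c => u k x.1 * my (p k) x.2) ∈ T) :
    n * num D c ≤ Module.finrank ℂ T := by
  classical
  have htop : T = ⊤ := by
    by_contra hT
    obtain ⟨f, hf, hfT⟩ := Submodule.exists_le_ker_of_lt_top T (lt_top_iff_ne_top.2 hT)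
    apply hf
    let a : Fin n × J D c → ℂ := fun x => f (Pi.single x 1)
    have hfa : ∀ w, f w = ∑ x, w x * a x := by
      intro w
      have e1 : w = ∑ x, w x • (Pi.single x (1 : ℂ) : Fin n × J D c → ℂ) := by
        funext y
        simp [Finset.sum_apply, Pi.single_apply]
      conv_lhs => rw [e1]
      rw [map_sum]
      refine Finset.sum_congr rfl fun x _ => ?_
      rw [map_smul, smul_eq_mul]
    let F : Fin n → MvPolynomial (Fin 2) ℂ := fun l =>
      ∑ x : J D c, C (a (l, x)) * (X 0 ^ x.1.1 * X 1 ^ x.1.2)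
    have hF := h F (fun l => sum_mem_PP (fun x => a (l, x))) ?_ ?_
    · have ha : ∀ l x, a (l, x) = 0 := by
        intro l x
        exact congrFun (sum_inj (hF l)) x
      apply LinearMap.ext
      intro w
      rw [hfa w, LinearMap.zero_apply]
      refine Finset.sum_eq_zero fun x _ => ?_
      rw [ha x.1 x.2, mul_zero]
    · intro k hk l
      have e1 := pair_val a (p k) l
      rw [← hfa (fun x : Fin n × J D c => if x.1 = l then mv (p k) x.2 else 0)] at e1
      rw [← e1]
      exact hfT (h1 k hk l)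
    · intro k hk
      constructor
      · have e1 := pair_dx a (p k) (u k)
        rw [← hfa (fun x : Fin n × J D c => u k x.1 * mx (p k) x.2)] at e1
        rw [← e1]
        exact hfT (h2 k hk)
      · have e1 := pair_dy a (p k) (u k)
        rw [← hfa (fun x : Fin n × J D c => u k x.1 * my (p k) x.2)] at e1
        rw [← e1]
        exact hfT (h3 k hk)
  rw [htop, finrank_top, Module.finrank_fintype_fun_eq_card, Fintype.card_prod, Fintype.card_fin,
    card_J]

/-- The unbalanced case with `u_k = e_k` (`k < r ≤ n`): `r n` vectors of the first kind and one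
derivative vector for each `k < r`. -/
theorem rank_unb {n c r : ℕ} {D : ℕ → ℕ} (hD : ∀ i, c ≤ i → D i = 0) {p : ℕ → Fin 2 → ℂ}
    (hr : r ≤ n) (h : UnbI D r p) (T : Submodule ℂ (Fin n × J D c → ℂ))
    (h1 : ∀ k < r, ∀ l : Fin n,
      (fun x : Fin n × J D c => if x.1 = l then mv (p k) x.2 else 0) ∈ T)
    (h2 : ∀ k < r, (fun x : Fin n × J D c => (if (x.1 : ℕ) = k then 1 else 0) * mx (p k) x.2) ∈ T)
    (h3 : ∀ k < r, (fun x : Fin n × J D c => (if (x.1 : ℕ) = k then 1 else 0) * my (p k) x.2) ∈ T) :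
    r * (n + 1) ≤ Module.finrank ℂ T := by
  classical
  choose e he using fun k : Fin r => h k k.2
  let v : Fin r × (Fin n ⊕ Unit) → (Fin n × J D c → ℂ) := fun k => match k.2 with
    | Sum.inl l => fun x => if x.1 = l then mv (p k.1) x.2 else 0
    | Sum.inr _ => fun x => (if (x.1 : ℕ) = k.1 then 1 else 0) *
        (if e k.1 = 0 then mx (p k.1) x.2 else my (p k.1) x.2)
  have hv : ∀ k, v k ∈ T := by
    rintro ⟨k, (l | _)⟩
    · exact h1 k k.2 l
    · by_cases h0 : e k = 0
      · simp only [v, if_pos h0]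
        exact h2 k k.2
      · simp only [v, if_neg h0]
        exact h3 k k.2
  have hli : LinearIndependent ℂ v := by
    apply linInd_of_pair
    intro t
    have hex : ∀ l : Fin n, ∃ f ∈ PP D, (∀ j : Fin r, eval (p j) f = t (j, Sum.inl l)) ∧
        ∀ k : Fin r, (k : ℕ) = l → eval (p k) (pderiv (e k) f) = t (k, Sum.inr ()) := by
      intro l
      by_cases hl : (l : ℕ) < r
      · obtain ⟨f, hf, hf1, hf2⟩ := he ⟨l, hl⟩
          (fun j => if hj : j < r then t (⟨j, hj⟩, Sum.inl l) else 0) (t (⟨l, hl⟩, Sum.inr ()))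
        refine ⟨f, hf, fun j => ?_, fun k hk => ?_⟩
        · rw [hf1 j j.2, dif_pos j.2]
        · have : k = ⟨l, hl⟩ := Fin.ext hk
          rw [this]
          exact hf2
      · rcases Nat.eq_zero_or_pos r with h0 | h0
        · refine ⟨0, Submodule.zero_mem _, fun j => ?_, fun k => ?_⟩
          · exact absurd j.2 (by omega)
          · exact absurd k.2 (by omega)
        · obtain ⟨f, hf, hf1, -⟩ := he ⟨0, h0⟩
            (fun j => if hj : j < r then t (⟨j, hj⟩, Sum.inl l) else 0) 0
          refine ⟨f, hf, fun j => ?_, fun k hk => ?_⟩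
          · rw [hf1 j j.2, dif_pos j.2]
          · have := k.2
            omega
    choose F hF1 hF2 hF3 using hex
    choose w hw using fun l => eq_sum_of_mem_PP (c := c) hD (hF1 l)
    refine ⟨fun x => w x.1 x.2, ?_⟩
    rintro ⟨k, (l | _)⟩
    · have e1 := pair_val (fun x : Fin n × J D c => w x.1 x.2) (p k) l
      refine e1.trans ?_
      simp only
      rw [← hw l, hF2 l k]
    · have hkn : (k : ℕ) < n := lt_of_lt_of_le k.2 hr
      have hsum : ∀ g : Fin n → ℂ, ∑ l : Fin n, (if (l : ℕ) = k then 1 else 0) * g l =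
          g ⟨k, hkn⟩ := by
        intro g
        rw [Finset.sum_eq_single ⟨k, hkn⟩]
        · simp
        · intro l _ hl
          rw [if_neg (fun h => hl (Fin.ext h)), zero_mul]
        · intro h
          exact absurd (Finset.mem_univ _) h
      have e3 := hF3 ⟨k, hkn⟩ k rfl
      by_cases h0 : e k = 0
      · have e1 := pair_dx (fun x : Fin n × J D c => w x.1 x.2) (p k)
          (fun l : Fin n => if (l : ℕ) = k then 1 else 0)
        simp only [v, if_pos h0]
        refine e1.trans ?_
        rw [hsum]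
        rw [h0] at e3
        rw [← e3]
        simp only
        rw [← hw]
      · have h0' : e k = 1 := by
          have := (e k).2
          have h5 : (e k : ℕ) ≠ 0 := fun h => h0 (Fin.ext h)
          exact Fin.ext (by simp; omega)
        have e1 := pair_dy (fun x : Fin n × J D c => w x.1 x.2) (p k)
          (fun l : Fin n => if (l : ℕ) = k then 1 else 0)
        simp only [v, if_neg h0]
        refine e1.trans ?_
        rw [hsum]
        rw [h0'] at e3
        rw [← e3]
        simp only
        rw [← hw]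
  let v' : Fin r × (Fin n ⊕ Unit) → T := fun k => ⟨v k, hv k⟩
  have hli' : LinearIndependent ℂ v' := by
    apply LinearIndependent.of_comp T.subtype
    exact hli
  have h4 := hli'.fintype_card_le_finrank
  simpa using h4

end Pool.Agent.SV.S
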