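import Pool.Agent.Lib.MP_b54217_ag.S.TranP
import Pool.Agent.Lib.MP_b54217_ag.S.Rank
import Pool.Agent.Lib.MP_b54217_ag.AlgC

/-! # PROJECT S: lower bounds for `P^(n-1) × P^2` -/

set_option autoImplicit false

namespace Pool.Agent.SV.S

open MvPolynomial

/-- The special point: `u_s`, `z_s = (1, p_s)`. -/
noncomputable def tP (n r : ℕ) (p : ℕ → Fin 2 → ℂ) (u : ℕ → Fin n → ℂ) : ParP n r → ℂ := fun x =>
  match x.2 with
  | Sum.inl l => u x.1 l
  | Sum.inr e => if e = 0 then 1 else if e = 1 then p x.1 0 else p x.1 1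

theorem tP_u (n r : ℕ) (p : ℕ → Fin 2 → ℂ) (u : ℕ → Fin n → ℂ) (s : Fin r) (l : Fin n) :
    tP n r p u (s, Sum.inl l) = u s l := rfl

theorem tP_0 (n r : ℕ) (p : ℕ → Fin 2 → ℂ) (u : ℕ → Fin n → ℂ) (s : Fin r) :
    tP n r p u (s, Sum.inr 0) = 1 := rfl

theorem tP_1 (n r : ℕ) (p : ℕ → Fin 2 → ℂ) (u : ℕ → Fin n → ℂ) (s : Fin r) :
    tP n r p u (s, Sum.inr 1) = p s 0 := rfl

theorem tP_2 (n r : ℕ) (p : ℕ → Fin 2 → ℂ) (u : ℕ → Fin n → ℂ) (s : Fin r) :
    tP n r p u (s, Sum.inr 2) = p s 1 := rfl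

/-- The tangent space at the special point. -/
noncomputable def TP (n d r : ℕ) (p : ℕ → Fin 2 → ℂ) (u : ℕ → Fin n → ℂ) :
    Submodule ℂ (Fin n × J (dP d) (d + 1) → ℂ) :=
  Submodule.span ℂ (Set.range fun (s : ParP n r) =>
    (fun x => eval (tP n r p u) (pderiv s (gP n d r x)) : Fin n × J (dP d) (d + 1) → ℂ))

/-- Derivative with respect to `(k, inl l)`. -/
theorem TP_u {n d r : ℕ} (p : ℕ → Fin 2 → ℂ) (u : ℕ → Fin n → ℂ) {k : ℕ} (hk : k < r)
    (l : Fin n) : (fun x : Fin n × J (dP d) (d + 1) => if x.1 = l then mv (p k) x.2 else 0) ∈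
      TP n d r p u := by
  classical
  refine Submodule.subset_span ⟨(⟨k, hk⟩, Sum.inl l), ?_⟩
  funext x
  simp only [gP, map_sum]
  rw [Finset.sum_eq_single ⟨k, hk⟩]
  · simp only [Derivation.leibniz, Derivation.leibniz_pow, pderiv_X, smul_eq_mul, map_add,
      map_mul, eval_X, map_pow, tP_u, tP_0, tP_1, tP_2, mv]
    by_cases h : x.1 = l
    · simp [h]
    · have h' : ¬ l = x.1 := fun h' => h h'.symm
      simp [Pi.single_apply, h]
  · intro s _ hs
    simp only [Derivation.leibniz, Derivation.leibniz_pow, pderiv_X, smul_eq_mul, map_add,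
      map_mul, eval_X, map_pow]
    simp [Pi.single_apply, hs]
  · intro h
    exact absurd (Finset.mem_univ _) h

/-- Derivative with respect to `(k, inr 1)`. -/
theorem TP_x {n d r : ℕ} (p : ℕ → Fin 2 → ℂ) (u : ℕ → Fin n → ℂ) {k : ℕ} (hk : k < r) :
    (fun x : Fin n × J (dP d) (d + 1) => u k x.1 * mx (p k) x.2) ∈ TP n d r p u := by
  classical
  refine Submodule.subset_span ⟨(⟨k, hk⟩, Sum.inr 1), ?_⟩
  funext x
  simp only [gP, map_sum]
  rw [Finset.sum_eq_single ⟨k, hk⟩]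
  · simp only [Derivation.leibniz, Derivation.leibniz_pow, pderiv_X, smul_eq_mul, map_add,
      map_mul, eval_X, map_pow, tP_u, tP_0, tP_1, tP_2, mx]
    simp
    left
    rw [tP_1]
    simp only [Fin.val_mk]
    ring
  · intro s _ hs
    simp only [Derivation.leibniz, Derivation.leibniz_pow, pderiv_X, smul_eq_mul, map_add,
      map_mul, eval_X, map_pow]
    simp [Pi.single_apply, hs]
  · intro h
    exact absurd (Finset.mem_univ _) h

/-- Derivative with respect to `(k, inr 2)`. -/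
theorem TP_y {n d r : ℕ} (p : ℕ → Fin 2 → ℂ) (u : ℕ → Fin n → ℂ) {k : ℕ} (hk : k < r) :
    (fun x : Fin n × J (dP d) (d + 1) => u k x.1 * my (p k) x.2) ∈ TP n d r p u := by
  classical
  refine Submodule.subset_span ⟨(⟨k, hk⟩, Sum.inr 2), ?_⟩
  funext x
  simp only [gP, map_sum]
  rw [Finset.sum_eq_single ⟨k, hk⟩]
  · simp only [Derivation.leibniz, Derivation.leibniz_pow, pderiv_X, smul_eq_mul, map_add,
      map_mul, eval_X, map_pow, tP_u, tP_0, tP_1, tP_2, my]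
    simp
    exact Or.inl (Or.inl (Or.inl rfl))
  · intro s _ hs
    simp only [Derivation.leibniz, Derivation.leibniz_pow, pderiv_X, smul_eq_mul, map_add,
      map_mul, eval_X, map_pow]
    simp [Pi.single_apply, hs]
  · intro h
    exact absurd (Finset.mem_univ _) h

theorem dP_fin (d : ℕ) : ∀ i, d + 1 ≤ i → dP d i = 0 := by
  intro i hi
  simp only [dP]
  omega

theorem lowP_surj {n d r : ℕ} {p : ℕ → Fin 2 → ℂ} {u : ℕ → Fin n → ℂ}
    (h : SurjN n (dP d) r p u) : ((r * (n + 2) : ℕ) : WithBot ℕ∞) ≤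
      ringKrullDim (Algebra.adjoin ℂ (Set.range (gP n d r))) :=
  krull_ge _ (tP n r p u) _ (rank_surj (dP_fin d) h (TP n d r p u) (fun _ hk l => TP_u p u hk l)
    (fun _ hk => TP_x p u hk) (fun _ hk => TP_y p u hk))

theorem lowP_inj {n d r : ℕ} {p : ℕ → Fin 2 → ℂ} {u : ℕ → Fin n → ℂ}
    (h : InjN n (dP d) r p u) : ((n * num (dP d) (d + 1) : ℕ) : WithBot ℕ∞) ≤
      ringKrullDim (Algebra.adjoin ℂ (Set.range (gP n d r))) :=
  krull_ge _ (tP n r p u) _ (rank_inj (dP_fin d) h (TP n d r p u) (fun _ hk l => TP_u p u hk l)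
    (fun _ hk => TP_x p u hk) (fun _ hk => TP_y p u hk))

theorem lowP_unb {n d r : ℕ} {p : ℕ → Fin 2 → ℂ} (hr : r ≤ n) (h : UnbI (dP d) r p) :
    ((r * (n + 1) : ℕ) : WithBot ℕ∞) ≤
      ringKrullDim (Algebra.adjoin ℂ (Set.range (gP n d r))) :=
  krull_ge _ (tP n r p fun k l => if (l : ℕ) = k then 1 else 0) _
    (rank_unb (dP_fin d) hr h (TP n d r p fun k l => if (l : ℕ) = k then 1 else 0)
      (fun _ hk l => TP_u p _ hk l) (fun _ hk => TP_x p _ hk) (fun _ hk => TP_y p _ hk))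

end Pool.Agent.SV.S
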