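import Pool.Agent.Lib.MP_b54217_ag.S.Open
import Pool.Agent.Lib.MP_b54217_ag.S.GenBasic

/-! # PROJECT S: general simple points impose independent conditions -/

set_option autoImplicit false

namespace Pool.Agent.SV.S

open MvPolynomial Finset

/-- Renumbering in `Itp`. -/
theorem itp_perm {D : ℕ → ℕ} {p : ℕ → Fin 2 → ℂ} {S B : Finset ℕ} (π : Equiv.Perm ℕ) :
    Itp D (fun k => p (π k)) S B ↔ Itp D p (S.map π.toEmbedding) (B.map π.toEmbedding) := by
  constructor
  · intro h a b c
    obtain ⟨f, hf, h1, h2⟩ := h (fun k => a (π k)) (fun k => b (π k)) (fun k => c (π k))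
    refine ⟨f, hf, ?_, ?_⟩
    · intro k hk
      obtain ⟨j, hj, rfl⟩ := mem_map.1 hk
      exact h1 j hj
    · intro k hk
      obtain ⟨j, hj, rfl⟩ := mem_map.1 hk
      exact h2 j hj
  · intro h a b c
    obtain ⟨f, hf, h1, h2⟩ := h (fun k => a (π.symm k)) (fun k => b (π.symm k))
      (fun k => c (π.symm k))
    refine ⟨f, hf, ?_, ?_⟩
    · intro k hk
      have := h1 (π k) (mem_map.2 ⟨k, hk, rfl⟩)
      rwa [Equiv.symm_apply_apply] at this
    · intro k hk
      have := h2 (π k) (mem_map.2 ⟨k, hk, rfl⟩)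
      rwa [Equiv.symm_apply_apply] at this

/-- Renumbering in `PairI`. -/
theorem pair_perm {D : ℕ → ℕ} {p : ℕ → Fin 2 → ℂ} {S T A B : Finset ℕ} {z : ℕ}
    (π : Equiv.Perm ℕ) :
    PairI D (fun k => p (π k)) S T A B z ↔ PairI D p (S.map π.toEmbedding)
      (T.map π.toEmbedding) (A.map π.toEmbedding) (B.map π.toEmbedding) (π z) := by
  constructor
  · intro h a a' b b' c c' u v
    obtain ⟨f, hf, g, hg, h1, h1', h2, h2', h3, h4⟩ := h (fun k => a (π k)) (fun k => a' (π k))
      (fun k => b (π k)) (fun k => b' (π k)) (fun k => c (π k)) (fun k => c' (π k)) u v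
    refine ⟨f, hf, g, hg, ?_, ?_, ?_, ?_, h3, h4⟩
    · intro k hk
      obtain ⟨j, hj, rfl⟩ := mem_map.1 hk
      exact h1 j hj
    · intro k hk
      obtain ⟨j, hj, rfl⟩ := mem_map.1 hk
      exact h1' j hj
    · intro k hk
      obtain ⟨j, hj, rfl⟩ := mem_map.1 hk
      exact h2 j hj
    · intro k hk
      obtain ⟨j, hj, rfl⟩ := mem_map.1 hk
      exact h2' j hj
  · intro h a a' b b' c c' u v
    obtain ⟨f, hf, g, hg, h1, h1', h2, h2', h3, h4⟩ := h (fun k => a (π.symm k))
      (fun k => a' (π.symm k)) (fun k => b (π.symm k)) (fun k => b' (π.symm k))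
      (fun k => c (π.symm k)) (fun k => c' (π.symm k)) u v
    refine ⟨f, hf, g, hg, ?_, ?_, ?_, ?_, h3, h4⟩
    · intro k hk
      have := h1 (π k) (mem_map.2 ⟨k, hk, rfl⟩)
      rwa [Equiv.symm_apply_apply] at this
    · intro k hk
      have := h1' (π k) (mem_map.2 ⟨k, hk, rfl⟩)
      rwa [Equiv.symm_apply_apply] at this
    · intro k hk
      have := h2 (π k) (mem_map.2 ⟨k, hk, rfl⟩)
      rwa [Equiv.symm_apply_apply] at this
    · intro k hk
      have := h2' (π k) (mem_map.2 ⟨k, hk, rfl⟩)
      rwa [Equiv.symm_apply_apply] at this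

theorem itp_mono {D : ℕ → ℕ} {p : ℕ → Fin 2 → ℂ} {S B S' B' : Finset ℕ} (h : Itp D p S B)
    (hS : S' ⊆ S) (hB : B' ⊆ B) : Itp D p S' B' := by
  intro a b c
  obtain ⟨f, hf, h1, h2⟩ := h a b c
  exact ⟨f, hf, fun k hk => h1 k (hS hk), fun k hk => h2 k (hB hk)⟩

/-- There is a nonzero element of `PP D` in the kernel if there are fewer conditions than
monomials. -/
theorem exists_ker {D : ℕ → ℕ} {c : ℕ} (hD : ∀ i, c ≤ i → D i = 0) (p : ℕ → Fin 2 → ℂ)
    (S B : Finset ℕ) (hN : S.card + 2 * B.card < num D c) : ∃ f ∈ PP D, f ≠ 0 ∧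
      (∀ k ∈ S, eval (p k) f = 0) ∧
      ∀ k ∈ B, eval (p k) (pderiv 0 f) = 0 ∧ eval (p k) (pderiv 1 f) = 0 := by
  classical
  have : Module.Finite ℂ (PP D) := finite_PP hD
  let Φ : PP D →ₗ[ℂ] ((S → ℂ) × (B → ℂ) × (B → ℂ)) :=
    { toFun := fun f => (fun k => eval (p k) f.1, fun k => eval (p k) (pderiv 0 f.1),
        fun k => eval (p k) (pderiv 1 f.1))
      map_add' := by
        intro f g
        refine Prod.ext ?_ (Prod.ext ?_ ?_)
        · funext k
          simp
        · funext k
          simp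
        · funext k
          simp
      map_smul' := by
        intro r f
        refine Prod.ext ?_ (Prod.ext ?_ ?_)
        · funext k
          simp
        · funext k
          simp
        · funext k
          simp }
  have h1 : ¬ Function.Injective Φ := by
    intro h
    have := LinearMap.finrank_le_finrank_of_injective h
    rw [finrank_PP hD, Module.finrank_prod, Module.finrank_prod,
      Module.finrank_fintype_fun_eq_card, Module.finrank_fintype_fun_eq_card, Fintype.card_coe,
      Fintype.card_coe] at this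
    omega
  rw [injective_iff_map_eq_zero] at h1
  push Not at h1
  obtain ⟨f, hf, hf0⟩ := h1
  refine ⟨f.1, f.2, fun h => hf0 (Subtype.ext h), ?_, ?_⟩
  · intro k hk
    exact congrFun (congrArg Prod.fst hf) ⟨k, hk⟩
  · intro k hk
    exact ⟨congrFun (congrArg (fun x => x.2.1) hf) ⟨k, hk⟩,
      congrFun (congrArg (fun x => x.2.2) hf) ⟨k, hk⟩⟩

/-- One more simple point.  Proof: by the dimension there is `0 ≠ f ∈ PP D` vanishing at all
conditions (`finrank_PP`); take `v` with `f(v) ≠ 0` and `p n := v`. -/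
theorem add_simple {D : ℕ → ℕ} {c : ℕ} (hD : ∀ i, c ≤ i → D i = 0) {p : ℕ → Fin 2 → ℂ} {q n : ℕ}
    (hq : q ≤ n) (h : Itp D p (range n) (range q)) (hN : n + 2 * q < num D c) :
    ∃ v : Fin 2 → ℂ, Itp D (Function.update p n v) (range (n + 1)) (range q) := by
  obtain ⟨f, hf, hf0, h1, h2⟩ := exists_ker hD p (range n) (range q) (by simpa using hN)
  obtain ⟨v, hv⟩ : ∃ v, eval v f ≠ 0 := by
    by_contra hcon
    push Not at hcon
    apply hf0
    apply MvPolynomial.funext
    intro x
    rw [hcon x, map_zero]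
  refine ⟨v, fun a b c' => ?_⟩
  obtain ⟨g, hg, hg1, hg2⟩ := h a b c'
  have hup : ∀ k < n, Function.update p n v k = p k := fun k hk =>
    Function.update_of_ne (by omega) _ _
  have hupn : Function.update p n v n = v := Function.update_self _ _ _
  refine ⟨g + C ((a n - eval v g) / eval v f) * f, ?_, ?_, ?_⟩
  · refine Submodule.add_mem _ hg ?_
    rw [← smul_eq_C_mul]
    exact Submodule.smul_mem _ _ hf
  · intro k hk
    rw [mem_range] at hk
    rcases Nat.lt_succ_iff_lt_or_eq.1 hk with hk | rfl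
    · rw [hup k hk, map_add, map_mul, h1 k (mem_range.2 hk), mul_zero, add_zero]
      exact hg1 k (mem_range.2 hk)
    · rw [hupn, map_add, map_mul, eval_C, div_mul_cancel₀ _ hv]
      ring
  · intro k hk
    have hk' := mem_range.1 hk
    rw [hup k (by omega)]
    obtain ⟨h3, h4⟩ := h2 k hk
    obtain ⟨h5, h6⟩ := hg2 k hk
    constructor
    · rw [map_add, Derivation.leibniz, pderiv_C, smul_zero, add_zero, smul_eq_mul, map_add,
        map_mul, h3, mul_zero, add_zero, h5]
    · rw [map_add, Derivation.leibniz, pderiv_C, smul_zero, add_zero, smul_eq_mul, map_add,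
        map_mul, h4, mul_zero, add_zero, h6]

/-- A permutation starting with a given list. -/
theorem perm_of_list (l : List ℕ) (hl : l.Nodup) : ∃ π : Equiv.Perm ℕ,
    ∀ (i : ℕ) (hi : i < l.length), π i = l[i] := by
  have h := Equiv.Perm.isMultiplyPretransitive ℕ l.length
  let x : Fin l.length ↪ ℕ := ⟨fun i => (i : ℕ), Fin.val_injective⟩
  let y : Fin l.length ↪ ℕ := ⟨fun i => l[i], fun i j hij => by
    have := (List.Nodup.getElem_inj_iff hl).1 hij
    exact Fin.ext this⟩
  obtain ⟨π, hπ⟩ := h.exists_smul_eq x y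
  refine ⟨π, fun i hi => ?_⟩
  exact DFunLike.congr_fun hπ ⟨i, hi⟩

theorem map_eq_of {s t : Finset ℕ} (π : Equiv.Perm ℕ) (h : ∀ i ∈ s, π i ∈ t)
    (hc : t.card ≤ s.card) : s.map π.toEmbedding = t := by
  apply Finset.eq_of_subset_of_card_le
  · intro k hk
    obtain ⟨j, hj, rfl⟩ := mem_map.1 hk
    exact h j hj
  · rw [card_map]
    exact hc

/-- There is a permutation of `ℕ` with `range b → B`, `range s → S` (`B ⊆ S`, `|B| = b`,
`|S| = s`). -/
theorem exists_perm (S B : Finset ℕ) (hB : B ⊆ S) : ∃ π : Equiv.Perm ℕ,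
    (range B.card).map π.toEmbedding = B ∧ (range S.card).map π.toEmbedding = S := by
  classical
  have hnd : (B.toList ++ (S \ B).toList).Nodup := by
    rw [List.nodup_append]
    refine ⟨B.nodup_toList, (S \ B).nodup_toList, ?_⟩
    intro a ha b hb hab
    rw [mem_toList] at ha hb
    rw [hab] at ha
    exact (mem_sdiff.1 hb).2 ha
  obtain ⟨π, hπ⟩ := perm_of_list _ hnd
  have hlen : (B.toList ++ (S \ B).toList).length = S.card := by
    rw [List.length_append, length_toList, length_toList, card_sdiff_of_subset hB]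
    have := card_le_card hB
    omega
  refine ⟨π, map_eq_of π ?_ (by simp), map_eq_of π ?_ (by simp)⟩
  · intro i hi
    have hi' := mem_range.1 hi
    have hc := card_le_card hB
    rw [hπ i (by omega), List.getElem_append_left (by rw [length_toList]; exact hi')]
    rw [← mem_toList]
    exact List.getElem_mem _
  · intro i hi
    have hi' := mem_range.1 hi
    rw [hπ i (by omega)]
    have h1 := List.getElem_mem (l := B.toList ++ (S \ B).toList) (n := i) (by omega)
    rw [List.mem_append, mem_toList, mem_toList, mem_sdiff] at h1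
    rcases h1 with h1 | h1
    · exact hB h1
    · exact h1.1

/-- General points: double at `B`, simple at `S \ B`.  Proof: `WAH D q` gives `Itp D p (range b)
(range b)` for `b = |B| ≤ q` (`itp_mono`); `add_simple` repeatedly up to `|S|`; `itp_open`,
`OpenAt.gen`, `Gen.perm` and `itp_perm` with `exists_perm`. -/
theorem gen_itp {D : ℕ → ℕ} {c : ℕ} (hD : ∀ i, c ≤ i → D i = 0) {q : ℕ} (hw : WAH D q)
    (S B : Finset ℕ) (hB : B ⊆ S) (hc : B.card ≤ q) (hN : S.card + 2 * B.card ≤ num D c) :
    Gen fun p => Itp D p S B := by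
  obtain ⟨p, hp⟩ := hw
  have h1 : ∀ m, B.card + m ≤ S.card → ∃ p, Itp D p (range (B.card + m)) (range B.card) := by
    intro m
    induction m with
    | zero =>
      intro _
      exact ⟨p, itp_mono hp (range_subset_range.2 (by omega)) (range_subset_range.2 hc)⟩
    | succ m ih =>
      intro hm
      obtain ⟨p', hp'⟩ := ih (by omega)
      obtain ⟨v, hv⟩ := add_simple hD (by omega) hp' (by omega)
      exact ⟨_, hv⟩
  have hBS := card_le_card hB
  obtain ⟨p', hp'⟩ := h1 (S.card - B.card) (by omega)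
  rw [Nat.add_sub_cancel' hBS] at hp'
  obtain ⟨π, hπ1, hπ2⟩ := exists_perm S B hB
  have h2 := (itp_open hD hp').gen.perm π
  refine h2.mono fun p'' hp'' => ?_
  have h3 := (itp_perm π).1 hp''
  rw [hπ1, hπ2] at h3
  exact h3

end Pool.Agent.SV.S
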