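import Pool.Agent.Lib.MP_b54217_ag.S.PairTail
import Pool.Agent.Lib.MP_b54217_ag.S.Horace
import Pool.Agent.Lib.MP_b54217_ag.S.Simple

/-! # PROJECT S: the pair lemma -/

set_option autoImplicit false

namespace Pool.Agent.SV.S

open MvPolynomial Finset

/-- `PairI` depends only on the points with indices in `S`, `T`, `A`, `B`, `{z}`. -/
theorem pair_congr {D : ℕ → ℕ} {p p' : ℕ → Fin 2 → ℂ} {S T A B : Finset ℕ} {z : ℕ}
    (h : ∀ k ∈ insert z (S ∪ T ∪ A ∪ B), p k = p' k) (h' : PairI D p S T A B z) :
    PairI D p' S T A B z := by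
  intro a a' b b' c c' u v
  obtain ⟨f, hf, g, hg, h1, h1', h2, h2', h3, h4⟩ := h' a a' b b' c c' u v
  have hz := h z (mem_insert_self _ _)
  refine ⟨f, hf, g, hg, fun k hk => ?_, fun k hk => ?_, fun k hk => ?_, fun k hk => ?_, ?_, ?_⟩
  · rw [← h k (by simp [hk])]
    exact h1 k hk
  · rw [← h k (by simp [hk])]
    exact h1' k hk
  · rw [← h k (by simp [hk])]
    exact h2 k hk
  · rw [← h k (by simp [hk])]
    exact h2' k hk
  · rw [← hz]
    exact h3
  · rw [← hz]
    exact h4

/-- The pair lemma in standard position.  Proof: `α = q - 1`, `β = 2 q - 1`,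
`Cl = Ico (r - (D 0 - 3)) r`, `S' = range r \ ({α, β} ∪ Cl)` (so `2 q ∈ S'`),
`A' = range (q - 1)`, `B' = Ico q (2 q - 1)`.  `gen_itp` for `tl D` (with `c - 1` columns, `num_tl`)
gives `p` with `Itp (tl D) p S' (insert (2 q) A')` and `Itp (tl D) p S' (insert (2 q) B')`
(`|S'| + 2 q = num D c - D 0`).  `pair_tail` with `bad = {p k 0 | k ∈ S'}` gives `x0, y1, y2`.  Put
the points of `Cl` on the line `x = x0` with distinct `y`, different from `y1`, `y2`
(`pair_congr`), and apply `horace_pair` with `S = T = range r`, `A = range q`, `B = Ico q (2 q)`,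
`L = M = {α, β} ∪ Cl` (`|L| + 1 = D 0`).  Finally `pair_open`, `OpenAt.gen`. -/
theorem pair_std {D : ℕ → ℕ} {c : ℕ} (hD : Antitone D) (hf : ∀ i, c ≤ i → D i = 0)
    (h3 : 3 ≤ D 0) {q r : ℕ} (hq : 1 ≤ q) (hN : num D c = r + 2 * q + 1) (hw : WAH (tl D) q)
    (hb : 4 * q + D 0 ≤ num D c + 1) :
    Gen fun p => PairI D p (range r) (range r) (range q) (Ico q (2 * q)) (2 * q) := by
  classical
  obtain ⟨c, rfl⟩ : ∃ c', c = c' + 1 := by
    rcases c with _ | c
    · have := hf 0 le_rfl
      omega
    · exact ⟨c, rfl⟩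
  obtain ⟨m, hm⟩ : ∃ m, D 0 = m + 3 := ⟨D 0 - 3, by omega⟩
  have hnum := num_tl D c
  have hf' : ∀ i, c ≤ i → tl D i = 0 := fun i hi => hf (i + 1) (by omega)
  have hr : 2 * q + 1 + m ≤ r := by omega
  set L : Finset ℕ := insert (q - 1) (insert (2 * q - 1) (Ico (r - m) r)) with hL
  have memL : ∀ k, k ∈ L ↔ k = q - 1 ∨ k = 2 * q - 1 ∨ (r - m ≤ k ∧ k < r) := by
    intro k
    rw [hL, mem_insert, mem_insert, mem_Ico]
  set S' : Finset ℕ := range r \ L with hS'
  have memS' : ∀ k, k ∈ S' ↔ k < r - m ∧ k ≠ q - 1 ∧ k ≠ 2 * q - 1 := by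
    intro k
    rw [hS', mem_sdiff, mem_range, memL]
    omega
  have hLcard : L.card = m + 2 := by
    rw [hL, card_insert_of_notMem, card_insert_of_notMem, Nat.card_Ico]
    · omega
    · rw [mem_Ico]
      omega
    · rw [mem_insert, mem_Ico]
      omega
  have hLsub : L ⊆ range r := by
    intro k hk
    rw [memL] at hk
    rw [mem_range]
    omega
  have hS'card : S'.card = r - (m + 2) := by
    rw [hS', card_sdiff_of_subset hLsub, card_range, hLcard]
  have hzS' : 2 * q ∈ S' := (memS' _).2 (by omega)
  have hA'S' : insert (2 * q) (range (q - 1)) ⊆ S' := by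
    intro k hk
    rw [mem_insert, mem_range] at hk
    rw [memS']
    omega
  have hB'S' : insert (2 * q) (Ico q (2 * q - 1)) ⊆ S' := by
    intro k hk
    rw [mem_insert, mem_Ico] at hk
    rw [memS']
    omega
  have hA'card : (insert (2 * q) (range (q - 1))).card = q := by
    rw [card_insert_of_notMem (by rw [mem_range]; omega), card_range]
    omega
  have hB'card : (insert (2 * q) (Ico q (2 * q - 1))).card = q := by
    rw [card_insert_of_notMem (by rw [mem_Ico]; omega), Nat.card_Ico]
    omega
  have g1 := gen_itp hf' hw S' (insert (2 * q) (range (q - 1))) hA'S' (by omega) (by omega)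
  have g2 := gen_itp hf' hw S' (insert (2 * q) (Ico q (2 * q - 1))) hB'S' (by omega) (by omega)
  obtain ⟨p, hp1, hp2⟩ := (g1.and g2).ex
  obtain ⟨x0, hx0, y1, y2, hy12, hpair⟩ := pair_tail p S' (range (q - 1)) (Ico q (2 * q - 1))
    (2 * q) (q - 1) (2 * q - 1) (by rw [mem_range]; omega) (by rw [mem_Ico]; omega) hzS'
    (fun k hk => hA'S' (mem_insert_of_mem hk)) (fun k hk => hB'S' (mem_insert_of_mem hk))
    (by rw [memS']; omega) (by rw [memS']; omega) (by omega) hp1 hp2
    ((fun k => p k 0) '' (S' : Set ℕ)) ((Finset.finite_toSet _).image _)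
  -- the points of the line
  obtain ⟨y, hyinj, hy⟩ : ∃ y : ℕ → ℂ, Function.Injective y ∧ ∀ k, y k ≠ y1 ∧ y k ≠ y2 := by
    have hinf : ({y1, y2} : Set ℂ)ᶜ.Infinite := (Set.toFinite _).infinite_compl
    let y := hinf.natEmbedding
    refine ⟨fun k => (y k : ℂ), fun a b hab => y.injective (Subtype.ext hab), ?_⟩
    intro k
    have := (y k).2
    rw [Set.mem_compl_iff, Set.mem_insert_iff, Set.mem_singleton_iff, not_or] at this
    exact this
  set U := Function.update (Function.update p (q - 1) ![x0, y1]) (2 * q - 1) ![x0, y2] with hU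
  let P : ℕ → Fin 2 → ℂ := fun k => if r - m ≤ k ∧ k < r then ![x0, y k] else U k
  have hPC : ∀ k, r - m ≤ k → k < r → P k = ![x0, y k] := fun k h1 h2 => by
    simp only [P, if_pos (And.intro h1 h2)]
  have hPU : ∀ k, k < r - m → P k = U k := fun k h1 => by
    have : ¬ (r - m ≤ k ∧ k < r) := by omega
    simp only [P, if_neg this]
  have hUα : U (q - 1) = ![x0, y1] := by
    rw [hU, Function.update_of_ne (by omega), Function.update_self]
  have hUβ : U (2 * q - 1) = ![x0, y2] := by
    rw [hU, Function.update_self]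
  have hPS : ∀ k ∈ S', P k = p k := by
    intro k hk
    rw [memS'] at hk
    rw [hPU k hk.1, hU, Function.update_of_ne hk.2.2, Function.update_of_ne hk.2.1]
  have hpair' : PairI (tl D) P (insert (q - 1) S') (insert (2 * q - 1) S') (range (q - 1))
      (Ico q (2 * q - 1)) (2 * q) := by
    refine pair_congr (fun k hk => ?_) hpair
    have : k < r - m := by
      simp only [mem_insert, mem_union, mem_range, mem_Ico, memS'] at hk
      omega
    exact (hPU k this).symm
  have hPL : ∀ k ∈ L, P k 0 = x0 := by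
    intro k hk
    rw [memL] at hk
    rcases hk with rfl | rfl | ⟨h1, h2⟩
    · rw [hPU _ (by omega), hUα]
      rfl
    · rw [hPU _ (by omega), hUβ]
      rfl
    · rw [hPC k h1 h2]
      rfl
  have hPL' : ∀ k ∈ range r \ L, P k 0 ≠ x0 := by
    intro k hk h1
    have hk' : k ∈ S' := hk
    rw [hPS k hk'] at h1
    exact hx0 ⟨k, by exact_mod_cast hk', h1⟩
  have hinj : Set.InjOn (fun k => P k 1) (L : Set ℕ) := by
    have val : ∀ k ∈ L, (k = q - 1 ∧ P k 1 = y1) ∨ (k = 2 * q - 1 ∧ P k 1 = y2) ∨
        (r - m ≤ k ∧ P k 1 = y k) := by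
      intro k hk
      rw [memL] at hk
      rcases hk with rfl | rfl | ⟨h1, h2⟩
      · left
        refine ⟨rfl, ?_⟩
        rw [hPU _ (by omega), hUα]
        rfl
      · right
        left
        refine ⟨rfl, ?_⟩
        rw [hPU _ (by omega), hUβ]
        rfl
      · right
        right
        refine ⟨h1, ?_⟩
        rw [hPC k h1 h2]
        rfl
    intro j hj k hk hjk
    simp only at hjk
    rcases val j (by exact_mod_cast hj) with ⟨ej, vj⟩ | ⟨ej, vj⟩ | ⟨ej, vj⟩ <;>
    rcases val k (by exact_mod_cast hk) with ⟨ek, vk⟩ | ⟨ek, vk⟩ | ⟨ek, vk⟩ <;>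
    rw [vj, vk] at hjk
    · rw [ej, ek]
    · exact absurd hjk hy12
    · exact absurd hjk.symm (hy k).1
    · exact absurd hjk.symm hy12
    · rw [ej, ek]
    · exact absurd hjk.symm (hy k).2
    · exact absurd hjk (hy j).1
    · exact absurd hjk (hy j).2
    · exact hyinj hjk
  have eA : range q ∩ L = {q - 1} := by
    ext k
    rw [mem_inter, mem_range, memL, mem_singleton]
    omega
  have eB : Ico q (2 * q) ∩ L = {2 * q - 1} := by
    ext k
    rw [mem_inter, mem_Ico, memL, mem_singleton]
    omega
  have eA' : range q \ L = range (q - 1) := by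
    ext k
    rw [mem_sdiff, mem_range, memL, mem_range]
    omega
  have eB' : Ico q (2 * q) \ L = Ico q (2 * q - 1) := by
    ext k
    rw [mem_sdiff, mem_Ico, memL, mem_Ico]
    omega
  have main : PairI D P (range r) (range r) (range q) (Ico q (2 * q)) (2 * q) := by
    apply horace_pair hD x0 P (range r) (range r) (range q) (Ico q (2 * q)) L L (2 * q)
    · exact range_subset_range.2 (by omega)
    · intro k hk
      rw [mem_Ico] at hk
      rw [mem_range]
      omega
    · exact hLsub
    · exact hLsub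
    · exact hPL
    · exact hPL'
    · exact hPL
    · exact hPL'
    · exact hinj
    · exact hinj
    · rw [eA, card_singleton, hLcard]
      omega
    · rw [eB, card_singleton, hLcard]
      omega
    · exact hzS'
    · exact hzS'
    · rw [eA, eB, eA', eB', union_comm, ← insert_eq, union_comm, ← insert_eq]
      exact hpair'
  exact (pair_open hf main).gen

/-- There is a permutation of `ℕ` mapping `range q, Ico q (2q), 2q, range r` to
`A, B, z, range r`. -/
theorem exists_perm_pair {q r : ℕ} (A B : Finset ℕ) (z : ℕ) (hA : A ⊆ range r)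
    (hB : B ⊆ range r) (hAc : A.card = q) (hBc : B.card = q) (hAB : Disjoint A B)
    (hz : z ∈ range r) (hzA : z ∉ A) (hzB : z ∉ B) : ∃ π : Equiv.Perm ℕ,
      (range q).map π.toEmbedding = A ∧ (Ico q (2 * q)).map π.toEmbedding = B ∧
      (range r).map π.toEmbedding = range r ∧ π (2 * q) = z := by
  classical
  set R := range r \ (A ∪ B ∪ {z}) with hR
  have hRm : ∀ k, k ∈ R ↔ k ∈ range r ∧ k ∉ A ∧ k ∉ B ∧ k ≠ z := by
    intro k
    rw [hR, mem_sdiff, mem_union, mem_union, mem_singleton]
    tauto
  have hnd : (A.toList ++ (B.toList ++ (z :: R.toList))).Nodup := by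
    rw [List.nodup_append, List.nodup_append, List.nodup_cons]
    refine ⟨A.nodup_toList, ⟨B.nodup_toList, ⟨?_, R.nodup_toList⟩, ?_⟩, ?_⟩
    · rw [mem_toList, hRm]
      tauto
    · intro a ha b hb hab
      rw [mem_toList] at ha
      rw [List.mem_cons, mem_toList] at hb
      rcases hb with hb | hb
      · rw [hab, hb] at ha
        exact hzB ha
      · rw [hab] at ha
        exact ((hRm b).1 hb).2.2.1 ha
    · intro a ha b hb hab
      rw [mem_toList] at ha
      rw [List.mem_append, mem_toList, List.mem_cons, mem_toList] at hb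
      rcases hb with hb | hb | hb
      · rw [hab] at ha
        exact (disjoint_left.1 hAB ha) hb
      · rw [hab, hb] at ha
        exact hzA ha
      · rw [hab] at ha
        exact ((hRm b).1 hb).2.1 ha
  obtain ⟨π, hπ⟩ := perm_of_list _ hnd
  have hcard : (A ∪ B ∪ {z}).card = 2 * q + 1 := by
    rw [card_union_of_disjoint, card_union_of_disjoint hAB, hAc, hBc, card_singleton]
    · omega
    · rw [disjoint_singleton_right, mem_union]
      tauto
  have hsub : A ∪ B ∪ {z} ⊆ range r := by
    intro k hk
    rw [mem_union, mem_union, mem_singleton] at hk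
    rcases hk with (hk | hk) | rfl
    · exact hA hk
    · exact hB hk
    · exact hz
  have hle := card_le_card hsub
  rw [hcard, card_range] at hle
  have hRc : R.card = r - (2 * q + 1) := by
    rw [hR, card_sdiff_of_subset hsub, card_range, hcard]
  have hlen : (A.toList ++ (B.toList ++ (z :: R.toList))).length = r := by
    simp only [List.length_append, List.length_cons, length_toList]
    omega
  refine ⟨π, map_eq_of π ?_ (by rw [card_range, hAc]), map_eq_of π ?_
    (by rw [Nat.card_Ico, hBc]; omega), map_eq_of π ?_ le_rfl, ?_⟩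
  · intro i hi
    have hi' := mem_range.1 hi
    rw [hπ i (by omega), List.getElem_append_left (by rw [length_toList]; omega), ← mem_toList]
    exact List.getElem_mem _
  · intro i hi
    rw [mem_Ico] at hi
    rw [hπ i (by omega), List.getElem_append_right (by rw [length_toList]; omega),
      List.getElem_append_left (by simp only [length_toList]; omega), ← mem_toList]
    exact List.getElem_mem _
  · intro i hi
    have hi' := mem_range.1 hi
    rw [hπ i (by omega)]
    have h1 := List.getElem_mem (l := A.toList ++ (B.toList ++ (z :: R.toList))) (n := i)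
      (by omega)
    rw [List.mem_append, List.mem_append, List.mem_cons, mem_toList, mem_toList, mem_toList] at h1
    rcases h1 with h1 | h1 | h1 | h1
    · exact hA h1
    · exact hB h1
    · rw [h1]
      exact hz
    · exact ((hRm _).1 h1).1
  · rw [hπ (2 * q) (by omega), List.getElem_append_right (by rw [length_toList]; omega),
      List.getElem_append_right (by simp only [length_toList]; omega)]
    have e : 2 * q - A.toList.length - B.toList.length = 0 := by
      simp only [length_toList]
      omega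
    simp only [e, List.getElem_cons_zero]

/-- The pair lemma. -/
theorem gen_pair {D : ℕ → ℕ} {c : ℕ} (hD : Antitone D) (hf : ∀ i, c ≤ i → D i = 0)
    (h3 : 3 ≤ D 0) {q r : ℕ} (hq : 1 ≤ q) (hN : num D c = r + 2 * q + 1) (hw : WAH (tl D) q)
    (hb : 4 * q + D 0 ≤ num D c + 1) (A B : Finset ℕ) (z : ℕ) (hA : A ⊆ range r)
    (hB : B ⊆ range r) (hAc : A.card = q) (hBc : B.card = q) (hAB : Disjoint A B)
    (hz : z ∈ range r) (hzA : z ∉ A) (hzB : z ∉ B) :
    Gen fun p => PairI D p (range r) (range r) A B z := by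
  obtain ⟨π, h1, h2, h4, h5⟩ := exists_perm_pair A B z hA hB hAc hBc hAB hz hzA hzB
  refine ((pair_std hD hf h3 hq hN hw hb).perm π).mono fun p hp => ?_
  have h6 := (pair_perm π).1 hp
  rw [h1, h2, h4, h5] at h6
  exact h6

end Pool.Agent.SV.S
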