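import Pool.Agent.Lib.MP_b54217_ag.S.Defs

/-! # PROJECT S: the 2 x 2 determinant -/

set_option autoImplicit false

namespace Pool.Agent.SV.S

open MvPolynomial

/-- Restriction to the line `x = const`. -/
noncomputable def resY (x : ℂ) : MvPolynomial (Fin 2) ℂ →ₐ[ℂ] Polynomial ℂ :=
  aeval ![Polynomial.C x, Polynomial.X]

/-- Restriction to the line `y = const`. -/
noncomputable def resX (y : ℂ) : MvPolynomial (Fin 2) ℂ →ₐ[ℂ] Polynomial ℂ :=
  aeval ![Polynomial.X, Polynomial.C y]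

theorem resY_eval (x y : ℂ) (P : MvPolynomial (Fin 2) ℂ) :
    (resY x P).eval y = eval ![x, y] P := by
  induction P using MvPolynomial.induction_on with
  | C a => simp [resY]
  | add p q hp hq => rw [map_add, Polynomial.eval_add, hp, hq, map_add]
  | mul_X p i hp =>
    rw [map_mul, Polynomial.eval_mul, hp, map_mul, eval_X, resY, aeval_X]
    fin_cases i <;> simp

theorem resX_eval (x y : ℂ) (P : MvPolynomial (Fin 2) ℂ) :
    (resX y P).eval x = eval ![x, y] P := by
  induction P using MvPolynomial.induction_on with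
  | C a => simp [resX]
  | add p q hp hq => rw [map_add, Polynomial.eval_add, hp, hq, map_add]
  | mul_X p i hp =>
    rw [map_mul, Polynomial.eval_mul, hp, map_mul, eval_X, resX, aeval_X]
    fin_cases i <;> simp

theorem resY_der (x : ℂ) (P : MvPolynomial (Fin 2) ℂ) :
    Polynomial.derivative (resY x P) = resY x (pderiv 1 P) := by
  induction P using MvPolynomial.induction_on with
  | C a => simp [resY]
  | add p q hp hq => rw [map_add, Polynomial.derivative_add, hp, hq, map_add, map_add]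
  | mul_X p i hp =>
    rw [map_mul, Polynomial.derivative_mul, hp, Derivation.leibniz, map_add, smul_eq_mul,
      smul_eq_mul, map_mul, map_mul]
    have h0 : resY x (X 0) = Polynomial.C x := by rw [resY, aeval_X]; rfl
    have h1 : resY x (X 1) = Polynomial.X := by rw [resY, aeval_X]; rfl
    match i with
    | 0 =>
      rw [h0, Polynomial.derivative_C, pderiv_X_of_ne (by decide), map_zero]
      ring
    | 1 =>
      rw [h1, Polynomial.derivative_X, pderiv_X_self, map_one]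
      ring

theorem resX_der (y : ℂ) (P : MvPolynomial (Fin 2) ℂ) :
    Polynomial.derivative (resX y P) = resX y (pderiv 0 P) := by
  induction P using MvPolynomial.induction_on with
  | C a => simp [resX]
  | add p q hp hq => rw [map_add, Polynomial.derivative_add, hp, hq, map_add, map_add]
  | mul_X p i hp =>
    rw [map_mul, Polynomial.derivative_mul, hp, Derivation.leibniz, map_add, smul_eq_mul,
      smul_eq_mul, map_mul, map_mul]
    have h0 : resX y (X 0) = Polynomial.X := by rw [resX, aeval_X]; rfl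
    have h1 : resX y (X 1) = Polynomial.C y := by rw [resX, aeval_X]; rfl
    match i with
    | 0 =>
      rw [h0, Polynomial.derivative_X, pderiv_X_self, map_one]
      ring
    | 1 =>
      rw [h1, Polynomial.derivative_C, pderiv_X_of_ne (by decide), map_zero]
      ring

/-- Let `f₁, f₂, g₁, g₂` be polynomials vanishing at `z` with gradients `(1,0), (0,1), (1,0), (0,1)`
there.  Then `f₁(x,y₁) g₂(x,y₂) - f₂(x,y₁) g₁(x,y₂) ≠ 0` for some `x` outside a finite set and some
`y₁ ≠ y₂`.  Proof: otherwise (an identity of polynomials outside a proper closed set) it holds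
everywhere; put `y₁ = z 1`, differentiate in `y₂` at `z 1`:
`f₁(x,z1) ∂y g₂(x,z1) - f₂(x,z1) ∂y g₁(x,z1) = 0` for all `x`; differentiate in `x` at `z 0`:
`1 * 1 - 0 * 0 = 0`. -/
theorem delta_ne (f₁ f₂ g₁ g₂ : MvPolynomial (Fin 2) ℂ) (z : Fin 2 → ℂ)
    (hf₁ : eval z f₁ = 0 ∧ eval z (pderiv 0 f₁) = 1 ∧ eval z (pderiv 1 f₁) = 0)
    (hf₂ : eval z f₂ = 0 ∧ eval z (pderiv 0 f₂) = 0 ∧ eval z (pderiv 1 f₂) = 1)
    (hg₁ : eval z g₁ = 0 ∧ eval z (pderiv 0 g₁) = 1 ∧ eval z (pderiv 1 g₁) = 0)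
    (hg₂ : eval z g₂ = 0 ∧ eval z (pderiv 0 g₂) = 0 ∧ eval z (pderiv 1 g₂) = 1)
    (bad : Set ℂ) (hbad : bad.Finite) : ∃ x : ℂ, x ∉ bad ∧ ∃ y₁ y₂ : ℂ, y₁ ≠ y₂ ∧
      eval ![x, y₁] f₁ * eval ![x, y₂] g₂ - eval ![x, y₁] f₂ * eval ![x, y₂] g₁ ≠ 0 := by
  by_contra hcon
  push Not at hcon
  have hz : z = ![z 0, z 1] := by
    funext i
    fin_cases i <;> rfl
  -- step 1
  have s1 : ∀ x, x ∉ bad → eval ![x, z 1] f₁ * eval ![x, z 1] (pderiv 1 g₂) -
      eval ![x, z 1] f₂ * eval ![x, z 1] (pderiv 1 g₁) = 0 := by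
    intro x hx
    let Q : Polynomial ℂ := Polynomial.C (eval ![x, z 1] f₁) * resY x g₂ -
      Polynomial.C (eval ![x, z 1] f₂) * resY x g₁
    have hQ : Q = 0 := by
      apply Polynomial.eq_zero_of_infinite_isRoot
      refine ((Set.finite_singleton (z 1)).infinite_compl).mono ?_
      intro y hy
      have h1 := hcon x hx (z 1) y (fun h => hy h.symm)
      change Q.eval y = 0
      simp only [Q, Polynomial.eval_sub, Polynomial.eval_mul, Polynomial.eval_C, resY_eval]
      exact h1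
    have h2 : (Polynomial.derivative Q).eval (z 1) = 0 := by rw [hQ]; simp
    simp only [Q, Polynomial.derivative_sub, Polynomial.derivative_mul, Polynomial.derivative_C,
      zero_mul, zero_add, Polynomial.eval_sub, Polynomial.eval_mul, Polynomial.eval_C, resY_der,
      resY_eval] at h2
    exact h2
  let R : Polynomial ℂ := resX (z 1) f₁ * resX (z 1) (pderiv 1 g₂) -
    resX (z 1) f₂ * resX (z 1) (pderiv 1 g₁)
  have hR : R = 0 := by
    apply Polynomial.eq_zero_of_infinite_isRoot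
    refine (hbad.infinite_compl).mono ?_
    intro x hx
    change R.eval x = 0
    simp only [R, Polynomial.eval_sub, Polynomial.eval_mul, resX_eval]
    exact s1 x hx
  have h2 : (Polynomial.derivative R).eval (z 0) = 0 := by rw [hR]; simp
  simp only [R, Polynomial.derivative_sub, Polynomial.derivative_mul, Polynomial.eval_sub,
    Polynomial.eval_mul, Polynomial.eval_add, resX_der, resX_eval] at h2
  rw [← hz, hf₁.1, hf₁.2.1, hf₂.1, hf₂.2.1, hg₁.2.2, hg₂.2.2] at h2
  norm_num at h2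

/-- The residual pair problem.  Proof: `f₁, f₂` from `h1` (zero on `S`, zero gradients on `A`,
gradient `(1,0)`, `(0,1)` at `z`), `g₁, g₂` from `h2`; `x0, y1, y2` from `delta_ne`.  Given targets,
take `f₀` from `h1` (values `a` on `S`, gradients on `A`, gradient `0` at `z`), `g₀` from `h2`;
`f = f₀ + s₁ f₁ + s₂ f₂`, `g = g₀ + (u - s₁) g₁ + (v - s₂) g₂`; the two remaining conditions
`f(α) = a α`, `g(β) = a' β` are a linear system for `(s₁, s₂)` with determinant `± Δ ≠ 0`. -/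
theorem pair_tail {E : ℕ → ℕ} (p : ℕ → Fin 2 → ℂ) (S A B : Finset ℕ) (z α β : ℕ)
    (hzA : z ∉ A) (hzB : z ∉ B) (hz : z ∈ S) (hA : A ⊆ S) (hB : B ⊆ S) (hα : α ∉ S)
    (hβ : β ∉ S) (hαβ : α ≠ β) (h1 : Itp E p S (insert z A)) (h2 : Itp E p S (insert z B))
    (bad : Set ℂ) (hbad : bad.Finite) : ∃ x0 : ℂ, x0 ∉ bad ∧ ∃ y1 y2 : ℂ, y1 ≠ y2 ∧
      PairI E (Function.update (Function.update p α ![x0, y1]) β ![x0, y2])
        (insert α S) (insert β S) A B z := by
  classical
  obtain ⟨f₁, hf₁, hf₁S, hf₁A⟩ := h1 0 (fun k => if k = z then 1 else 0) 0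
  obtain ⟨f₂, hf₂, hf₂S, hf₂A⟩ := h1 0 0 (fun k => if k = z then 1 else 0)
  obtain ⟨g₁, hg₁, hg₁S, hg₁B⟩ := h2 0 (fun k => if k = z then 1 else 0) 0
  obtain ⟨g₂, hg₂, hg₂S, hg₂B⟩ := h2 0 0 (fun k => if k = z then 1 else 0)
  have zf₁ := hf₁A z (Finset.mem_insert_self z A)
  have zf₂ := hf₂A z (Finset.mem_insert_self z A)
  have zg₁ := hg₁B z (Finset.mem_insert_self z B)
  have zg₂ := hg₂B z (Finset.mem_insert_self z B)
  simp only [if_true, Pi.zero_apply] at zf₁ zf₂ zg₁ zg₂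
  obtain ⟨x0, hx0, y1, y2, hy, hΔ⟩ := delta_ne f₁ f₂ g₁ g₂ (p z) ⟨hf₁S z hz, zf₁⟩
    ⟨hf₂S z hz, zf₂⟩ ⟨hg₁S z hz, zg₁⟩ ⟨hg₂S z hz, zg₂⟩ bad hbad
  refine ⟨x0, hx0, y1, y2, hy, ?_⟩
  set P := Function.update (Function.update p α ![x0, y1]) β ![x0, y2] with hP
  have hPS : ∀ k ∈ S, P k = p k := by
    intro k hk
    have e1 : k ≠ β := fun h => hβ (h ▸ hk)
    have e2 : k ≠ α := fun h => hα (h ▸ hk)
    rw [hP, Function.update_of_ne e1, Function.update_of_ne e2]
  have hPα : P α = ![x0, y1] := by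
    rw [hP, Function.update_of_ne hαβ, Function.update_self]
  have hPβ : P β = ![x0, y2] := by
    rw [hP, Function.update_self]
  intro a a' b b' c c' u v
  obtain ⟨f₀, hf₀, hf₀S, hf₀A⟩ := h1 a (fun k => if k = z then 0 else b k)
    (fun k => if k = z then 0 else c k)
  obtain ⟨g₀, hg₀, hg₀S, hg₀B⟩ := h2 a' (fun k => if k = z then 0 else b' k)
    (fun k => if k = z then 0 else c' k)
  have zf₀ := hf₀A z (Finset.mem_insert_self z A)
  have zg₀ := hg₀B z (Finset.mem_insert_self z B)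
  simp only [if_true] at zf₀ zg₀
  set F1 := eval ![x0, y1] f₁
  set F2 := eval ![x0, y1] f₂
  set G1 := eval ![x0, y2] g₁
  set G2 := eval ![x0, y2] g₂
  -- right hand sides
  set m := a α - eval ![x0, y1] f₀
  set n := eval ![x0, y2] g₀ + u * G1 + v * G2 - a' β
  set Δ := F1 * G2 - F2 * G1 with hΔdef
  -- s₁ F1 + s₂ F2 = m, s₁ G1 + s₂ G2 = n
  set s₁ := (m * G2 - n * F2) / Δ with hs₁
  set s₂ := (F1 * n - G1 * m) / Δ with hs₂
  have key1 : s₁ * F1 + s₂ * F2 = m := by
    rw [hs₁, hs₂]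
    field_simp
    rw [hΔdef]
    ring
  have key2 : s₁ * G1 + s₂ * G2 = n := by
    rw [hs₁, hs₂]
    field_simp
    rw [hΔdef]
    ring
  have hsm : ∀ (s : ℂ) {w : MvPolynomial (Fin 2) ℂ}, w ∈ PP E → C s * w ∈ PP E := by
    intro s w hw
    rw [← smul_eq_C_mul]
    exact Submodule.smul_mem _ _ hw
  have hev : ∀ (q : Fin 2 → ℂ) (s t : ℂ) (w w₁ w₂ : MvPolynomial (Fin 2) ℂ),
      eval q (w + C s * w₁ + C t * w₂) = eval q w + s * eval q w₁ + t * eval q w₂ := by
    intro q s t w w₁ w₂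
    simp
  have hder : ∀ (q : Fin 2 → ℂ) (i : Fin 2) (s t : ℂ) (w w₁ w₂ : MvPolynomial (Fin 2) ℂ),
      eval q (pderiv i (w + C s * w₁ + C t * w₂)) =
        eval q (pderiv i w) + s * eval q (pderiv i w₁) + t * eval q (pderiv i w₂) := by
    intro q i s t w w₁ w₂
    simp
  refine ⟨f₀ + C s₁ * f₁ + C s₂ * f₂, Submodule.add_mem _ (Submodule.add_mem _ hf₀ (hsm _ hf₁))
    (hsm _ hf₂), g₀ + C (u - s₁) * g₁ + C (v - s₂) * g₂,
    Submodule.add_mem _ (Submodule.add_mem _ hg₀ (hsm _ hg₁)) (hsm _ hg₂), ?_, ?_, ?_, ?_, ?_, ?_⟩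
  · intro k hk
    rcases Finset.mem_insert.1 hk with rfl | hk
    · rw [hPα, hev]
      change eval ![x0, y1] f₀ + s₁ * F1 + s₂ * F2 = _
      linear_combination key1
    · rw [hPS k hk, hev, hf₀S k hk, hf₁S k hk, hf₂S k hk]
      simp
  · intro k hk
    rcases Finset.mem_insert.1 hk with rfl | hk
    · rw [hPβ, hev]
      change eval ![x0, y2] g₀ + (u - s₁) * G1 + (v - s₂) * G2 = _
      linear_combination -key2
    · rw [hPS k hk, hev, hg₀S k hk, hg₁S k hk, hg₂S k hk]
      simp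
  · intro k hk
    have hkz : k ≠ z := fun h => hzA (h ▸ hk)
    have e0 := hf₀A k (Finset.mem_insert_of_mem hk)
    have e1 := hf₁A k (Finset.mem_insert_of_mem hk)
    have e2 := hf₂A k (Finset.mem_insert_of_mem hk)
    simp only [if_neg hkz, Pi.zero_apply] at e0 e1 e2
    rw [hPS k (hA hk), hder, hder, e0.1, e0.2, e1.1, e1.2, e2.1, e2.2]
    constructor <;> ring
  · intro k hk
    have hkz : k ≠ z := fun h => hzB (h ▸ hk)
    have e0 := hg₀B k (Finset.mem_insert_of_mem hk)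
    have e1 := hg₁B k (Finset.mem_insert_of_mem hk)
    have e2 := hg₂B k (Finset.mem_insert_of_mem hk)
    simp only [if_neg hkz, Pi.zero_apply] at e0 e1 e2
    rw [hPS k (hB hk), hder, hder, e0.1, e0.2, e1.1, e1.2, e2.1, e2.2]
    constructor <;> ring
  · rw [hPS z hz, map_add, map_add, hder, hder, zf₀.1, zf₁.1, zf₂.1, zg₀.1, zg₁.1, zg₂.1]
    ring
  · rw [hPS z hz, map_add, map_add, hder, hder, zf₀.2, zf₁.2, zf₂.2, zg₀.2, zg₁.2, zg₂.2]
    ring

end Pool.Agent.SV.S
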