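import Pool.Agent.Lib.MP_b54217_ag.Tran
import Pool.Agent.Lib.MP_b54217_ag.S.Base

/-! # PROJECT S: coordinates for `P^(n-1) × P^2`, `O(1,d)` (see `Tran.lean` for the pattern) -/

set_option autoImplicit false

namespace Pool.Agent.SV.S

open MvPolynomial

/-- Parameters. -/
abbrev ParP (n r : ℕ) : Type := Fin r × (Fin n ⊕ Fin 3)

/-- The coordinates of `∑ u_s ⊗ z_s^d` without the multinomial coefficients. -/
noncomputable def gP (n d r : ℕ) (x : Fin n × J (dP d) (d + 1)) : MvPolynomial (ParP n r) ℂ :=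
  ∑ s : Fin r, X (s, Sum.inl x.1) * (X (s, Sum.inr 0) ^ (d - x.2.1.1 - x.2.1.2) *
    X (s, Sum.inr 1) ^ x.2.1.1 * X (s, Sum.inr 2) ^ x.2.1.2)

theorem J_spec {d : ℕ} (x : J (dP d) (d + 1)) : x.1.1 + x.1.2 ≤ d := by
  have h := x.2
  rw [Finset.mem_sigma, Finset.mem_range, Finset.mem_range, dP] at h
  omega

/-- The monomial `x_l z_0^{d-i-j} z_1^i z_2^j`. -/
def ixP (n d : ℕ) (x : Fin n × J (dP d) (d + 1)) : Idx ![n, 3] ![1, d] :=
  fun j => match j with
  | 0 => (⟨Pi.single x.1 1, by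
      rw [Finset.Nat.mem_antidiagonalTuple]; simp⟩ :
        {m : Fin n → ℕ // m ∈ Finset.Nat.antidiagonalTuple n 1})
  | 1 => (⟨![d - x.2.1.1 - x.2.1.2, x.2.1.1, x.2.1.2], by
      rw [Finset.Nat.mem_antidiagonalTuple, Fin.sum_univ_three]
      have := J_spec x.2
      simp
      omega⟩ : {m : Fin 3 → ℕ // m ∈ Finset.Nat.antidiagonalTuple 3 d})

theorem ixP_bij (n d : ℕ) : Function.Bijective (ixP n d) := by
  constructor
  · rintro ⟨l, x⟩ ⟨l', x'⟩ h
    have h0 : (Pi.single l 1 : Fin n → ℕ) = Pi.single l' 1 := congrArg Subtype.val (congrFun h 0)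
    have h1 : (![d - x.1.1 - x.1.2, x.1.1, x.1.2] : Fin 3 → ℕ) =
        ![d - x'.1.1 - x'.1.2, x'.1.1, x'.1.2] := congrArg Subtype.val (congrFun h 1)
    have e0 : l = l' := by
      by_contra hne
      have := congrFun h0 l
      rw [Pi.single_eq_same, Pi.single_eq_of_ne hne] at this
      exact one_ne_zero this
    have e1 : x.1.1 = x'.1.1 := by
      have := congrFun h1 1
      simpa using this
    have e2 : x.1.2 = x'.1.2 := by
      have := congrFun h1 2
      simpa using this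
    rw [e0]
    congr 1
    apply Subtype.ext
    exact Sigma.ext e1 (heq_of_eq e2)
  · intro m
    have m0 : ∑ i : Fin n, (m 0).1 i = 1 := Finset.Nat.mem_antidiagonalTuple.1 (m 0).2
    have m1 : (m 1).1 (0 : Fin 3) + (m 1).1 (1 : Fin 3) + (m 1).1 (2 : Fin 3) = d := by
      have h : ∑ i : Fin 3, (m 1).1 i = d := Finset.Nat.mem_antidiagonalTuple.1 (m 1).2
      exact (Fin.sum_univ_three _).symm.trans h
    obtain ⟨l, hl⟩ := single_of_sum _ m0
    refine ⟨(l, ⟨⟨(m 1).1 (1 : Fin 3), (m 1).1 (2 : Fin 3)⟩, ?_⟩), ?_⟩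
    · rw [Finset.mem_sigma, Finset.mem_range, Finset.mem_range, dP]
      simp only
      omega
    · funext j
      apply Subtype.ext
      match j with
      | 0 => exact hl.symm
      | 1 =>
        change (![d - (m 1).1 (1 : Fin 3) - (m 1).1 (2 : Fin 3), (m 1).1 (1 : Fin 3),
          (m 1).1 (2 : Fin 3)] : Fin 3 → ℕ) = (m 1).1
        funext e
        match e with
        | 0 =>
          change d - (m 1).1 (1 : Fin 3) - (m 1).1 (2 : Fin 3) = (m 1).1 (0 : Fin 3)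
          omega
        | 1 => rfl
        | 2 => rfl

/-- The product of the multinomial coefficients. -/
noncomputable def mcP (n d : ℕ) (x : Fin n × J (dP d) (d + 1)) : ℂ :=
  (Nat.multinomial Finset.univ (Pi.single x.1 1 : Fin n → ℕ) : ℂ) *
    (Nat.multinomial Finset.univ ![d - x.2.1.1 - x.2.1.2, x.2.1.1, x.2.1.2] : ℂ)

theorem mcP_ne (n d : ℕ) (x : Fin n × J (dP d) (d + 1)) : mcP n d x ≠ 0 := by
  have h : ∀ {n : ℕ} (f : Fin n → ℕ), (Nat.multinomial Finset.univ f : ℂ) ≠ 0 := by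
    intro n f
    exact_mod_cast (Nat.multinomial_pos Finset.univ f).ne'
  exact mul_ne_zero (h _) (h _)

theorem prod_two (n d : ℕ) (u : Fin n → ℂ) (z : Fin 3 → ℂ) (x : Fin n × J (dP d) (d + 1)) :
    ((Nat.multinomial Finset.univ (Pi.single x.1 1 : Fin n → ℕ) : ℂ) *
      ∏ i, u i ^ (Pi.single x.1 1 : Fin n → ℕ) i) *
    ((Nat.multinomial Finset.univ
        (![d - x.2.1.1 - x.2.1.2, x.2.1.1, x.2.1.2] : Fin 3 → ℕ) : ℂ) *
      ∏ i, z i ^ (![d - x.2.1.1 - x.2.1.2, x.2.1.1, x.2.1.2] : Fin 3 → ℕ) i) =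
    mcP n d x * (u x.1 * (z 0 ^ (d - x.2.1.1 - x.2.1.2) * z 1 ^ x.2.1.1 * z 2 ^ x.2.1.2)) := by
  rw [prod_single, Fin.prod_univ_three, mcP]
  simp only [Matrix.cons_val_zero, Matrix.cons_val_one, Matrix.cons_val]
  ring

theorem pt_ixP (n d : ℕ) (l : (j : Fin 2) → Fin (![n, 3] j) → ℂ)
    (x : Fin n × J (dP d) (d + 1)) :
    pt ![n, 3] ![1, d] l (ixP n d x) =
      mcP n d x * ((l 0 : Fin n → ℂ) x.1 *
        ((l 1 : Fin 3 → ℂ) (0 : Fin 3) ^ (d - x.2.1.1 - x.2.1.2) *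
          (l 1 : Fin 3 → ℂ) (1 : Fin 3) ^ x.2.1.1 * (l 1 : Fin 3 → ℂ) (2 : Fin 3) ^ x.2.1.2)) := by
  rw [pt, Fin.prod_univ_two]
  exact prod_two n d (l 0) (l 1) x

/-- The coordinates with the multinomial coefficients. -/
noncomputable def fP (n d r : ℕ) (m : Idx ![n, 3] ![1, d]) : MvPolynomial (ParP n r) ℂ :=
  C (mcP n d ((Equiv.ofBijective _ (ixP_bij n d)).symm m)) *
    gP n d r ((Equiv.ofBijective _ (ixP_bij n d)).symm m)

theorem eval_gP (n d r : ℕ) (t : ParP n r → ℂ) (x : Fin n × J (dP d) (d + 1)) :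
    eval t (gP n d r x) = ∑ s : Fin r, t (s, Sum.inl x.1) *
      (t (s, Sum.inr 0) ^ (d - x.2.1.1 - x.2.1.2) * t (s, Sum.inr 1) ^ x.2.1.1 *
        t (s, Sum.inr 2) ^ x.2.1.2) := by
  simp [gP]

theorem rankLocusP_eq (n d r : ℕ) : rankLocus ![n, 3] ![1, d] r =
    Set.range fun (t : ParP n r → ℂ) m => eval t (fP n d r m) := by
  have key : ∀ (t : ParP n r → ℂ) (w : Idx ![n, 3] ![1, d] → ℂ),
      (∀ x, w (ixP n d x) = mcP n d x * eval t (gP n d r x)) →
      (fun m => eval t (fP n d r m)) = w := by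
    intro t w h
    funext m
    have h1 := h ((Equiv.ofBijective _ (ixP_bij n d)).symm m)
    have h2 : ixP n d ((Equiv.ofBijective _ (ixP_bij n d)).symm m) = m :=
      (Equiv.ofBijective _ (ixP_bij n d)).apply_symm_apply m
    rw [h2] at h1
    rw [h1, fP, map_mul, eval_C]
  ext w
  constructor
  · rintro ⟨c, l, rfl⟩
    refine ⟨fun y => match y.2 with
      | Sum.inl i => c y.1 * (l y.1 0 : Fin n → ℂ) i
      | Sum.inr e => (l y.1 1 : Fin 3 → ℂ) e, ?_⟩
    apply key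
    intro x
    rw [eval_gP, Finset.sum_apply, Finset.mul_sum]
    refine Finset.sum_congr rfl fun s _ => ?_
    rw [Pi.smul_apply, smul_eq_mul, pt_ixP]
    ring
  · rintro ⟨t, rfl⟩
    refine ⟨fun _ => 1, fun s j => match j with
      | 0 => (fun i => t (s, Sum.inl i) : Fin n → ℂ)
      | 1 => (fun e => t (s, Sum.inr e) : Fin 3 → ℂ), ?_⟩
    apply key
    intro x
    rw [eval_gP, Finset.sum_apply, Finset.mul_sum]
    refine Finset.sum_congr rfl fun s _ => ?_
    rw [Pi.smul_apply, smul_eq_mul, pt_ixP]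
    ring

/-- The monomial with exponents `e_l` and `(d - i - j, i, j)`; bijective; see `ix`, `ix_bij`,
`mc`, `fp`, `rankLocus_eq`, `secDim_eq` in `Tran.lean`. -/
theorem secDim_P (n d r : ℕ) : secDim ![n, 3] ![1, d] r =
    ringKrullDim (Algebra.adjoin ℂ (Set.range (gP n d r))) := by
  rw [secDim, krull_image (fP n d r) _ (rankLocusP_eq n d r)]
  have h : Algebra.adjoin ℂ (Set.range (fP n d r)) =
      Algebra.adjoin ℂ (Set.range (gP n d r)) := by
    apply le_antisymm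
    · rw [Algebra.adjoin_le_iff]
      rintro _ ⟨m, rfl⟩
      rw [fP]
      exact Subalgebra.mul_mem _ (Subalgebra.algebraMap_mem _ _)
        (Algebra.subset_adjoin ⟨_, rfl⟩)
    · rw [Algebra.adjoin_le_iff]
      rintro _ ⟨x, rfl⟩
      have h1 : gP n d r x = C ((mcP n d x)⁻¹) * fP n d r (ixP n d x) := by
        rw [fP]
        have h2 : (Equiv.ofBijective _ (ixP_bij n d)).symm (ixP n d x) = x :=
          (Equiv.ofBijective _ (ixP_bij n d)).symm_apply_apply x
        rw [h2, ← mul_assoc, ← C_mul, inv_mul_cancel₀ (mcP_ne n d x), C_1, one_mul]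
      rw [h1]
      exact Subalgebra.mul_mem _ (Subalgebra.algebraMap_mem _ _)
        (Algebra.subset_adjoin ⟨_, rfl⟩)
  rw [h]

theorem card_idxP (n d : ℕ) :
    Fintype.card (Idx ![n, 3] ![1, d]) = n * num (dP d) (d + 1) := by
  rw [← Fintype.card_of_bijective (ixP_bij n d), Fintype.card_prod, Fintype.card_fin, card_J]

theorem svDim_P (n d : ℕ) (hn : 1 ≤ n) (hd : 1 ≤ d) : svDim ![n, 3] ![1, d] + 1 = n + 2 := by
  rw [svDim, Fin.sum_univ_two]
  change (if (1 : ℕ) = 0 then 0 else n - 1) + (if d = 0 then 0 else 3 - 1) + 1 = n + 2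
  rw [if_neg one_ne_zero, if_neg (by omega : ¬ d = 0)]
  omega

end Pool.Agent.SV.S
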